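import Mathlib
import Pool.Agent.Lib.MP_f9aece_nt_ms.StmtsQ
import Pool.Agent.Lib.MP_f9aece_nt_ms.StmtsZ

/-!
Moments of the partial sums of zeta on the critical line, all real orders: definitions and
statements of the modules. Module `X` proves `theorem x : X`; modules using `X` take it as a
hypothesis.

The partial sum over `n ≤ e^L` is the sum with the Lipschitz cut-off `1 - rp τ (log n / L)`, whose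
moments are known (`MT.LimEx`), plus the sum with the weights `rp τ (log n / L)`, `n ≤ e^L`: this
lives on the window `(1 - τ) L < log n ≤ L` and has a jump at `L`. `Tail` says that its moments
are at most `C τ^(k (k - q + 1)) L^(k^2)`, `q - 1 < k ≤ q`.
-/

set_option autoImplicit false

namespace Pool.Agent.Lib.PS

open MeasureTheory Set Filter Topology Complex
open Pool.Agent.Lib.MP_f9aece_nt (DP pair BK K1 ev PP VV Smo expo)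
open Pool.Agent.Lib.MP_f9aece_nt_h40 (ind)
open Pool.Agent.Lib.MP_f9aece_nt_h85 (Rst)
open Pool.Agent.Lib.J4 (En V2)
open Pool.Agent.Lib.N4 (OmS)
open Pool.Agent.Lib.MS (MVP Par RW TZ zr ZS un)

/-- the ramp: `0` for `x ≤ 1 - τ`, `1` for `x ≥ 1`, linear in between -/
noncomputable def rp (τ x : ℝ) : ℝ := max 0 (min 1 ((x - (1 - τ)) / τ))

/-- the primes of one group -/
def Grp (p0 : ℕ) (y' y : ℝ) (S : Finset ℕ) : Prop :=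
  ∀ p, p ∈ S ↔ p.Prime ∧ p0 < p ∧ y' < Real.log p ∧ Real.log p ≤ y

/-- P1: reciprocals over a window, the primes of one group with weight two -/
def WinOne : Prop := ∀ p0 : ℕ, 1000 ≤ p0 → ∃ C : ℝ, 1 ≤ C ∧ ∀ y y' x x' : ℝ, 0 ≤ y' → y' ≤ y →
  x ≤ x' → ∀ S : Finset ℕ, Grp p0 y' y S → ∀ B : Finset ℕ,
  (∀ n ∈ B, n ∈ Smo (Rst p0 y') ∧ x < Real.log n ∧ Real.log n ≤ x') →
  ∑ n ∈ B, 2 ^ OmS S n * (n : ℝ)⁻¹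
    ≤ C * (Real.exp (2 * VV S) * ((x' - x + y + 1) / (y + 1)))

/-- P2: divisor functions over a window -/
def WinDiv : Prop := ∀ q p0 : ℕ, 1000 ≤ p0 → ∃ C : ℝ, 1 ≤ C ∧ ∀ y y' x x' : ℝ, 0 ≤ y' → y' ≤ y →
  x ≤ x' → 0 ≤ x' → ∀ S : Finset ℕ, Grp p0 y' y S → ∀ B : Finset ℕ,
  (∀ n ∈ B, n ∈ Smo (Rst p0 y') ∧ x < Real.log n ∧ Real.log n ≤ x') →
  ∑ n ∈ B, 2 ^ OmS S n * ((zr ^ (q + 1)) n * (n : ℝ)⁻¹)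
    ≤ C * (Real.exp (2 * (q + 1) * VV S)
      * (((x' + y + 1) / (y + 1)) ^ q * ((x' - x + y + 1) / (y + 1))))

/-- P3: energy of a power of a Dirichlet polynomial -/
def EnPow : Prop := ∀ (q : ℕ) (f : DP) (a : ℝ), 0 ≤ a → f.coeff 0 = 0 → (∀ n, |f.coeff n| ≤ a) →
  En (f ^ q) ≤ a ^ (2 * q) * (∑ n ∈ f.coeff.support, (zr ^ q) n * (n : ℝ)⁻¹) ^ q

/-- P4: energy of a power of a window -/
def WinPow : Prop := ∀ q p0 : ℕ, 1 ≤ q → 1000 ≤ p0 → ∃ C : ℝ, 1 ≤ C ∧ ∀ y y' x x' a : ℝ,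
  0 ≤ y' → y' ≤ y → x ≤ x' → 0 ≤ x' → 0 ≤ a → ∀ S : Finset ℕ, Grp p0 y' y S →
  ∀ (κ : ℕ) (f : DP), (∀ n, |f.coeff n| ≤ a ∧ (f.coeff n ≠ 0 →
    n ∈ Smo (Rst p0 y') ∧ x < Real.log n ∧ Real.log n ≤ x' ∧ κ ≤ OmS S n)) →
  En (f ^ q) ≤ C * (a ^ (2 * q) * ((1 / 2) ^ κ * (Real.exp (2 * q * VV S)
    * (((x' + y + 1) / (y + 1)) ^ (q - 1) * ((x' - x + y + 1) / (y + 1))))) ^ q)

/-- P5: the window polynomials of the ramp, in three parts: differences of the ramp, the jump at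
`L`, many prime factors in one group -/
def QSplit : Prop := ∀ A : Par, A.Ok → ∀ τ L : ℝ, 0 < τ → τ ≤ 1 → 0 < L → ∀ i < A.J,
  ∃ Fa Fb Fc : DP, A.QW (rp τ) L i = Fa + Fb + Fc ∧ ∀ n : ℕ,
  (|Fa.coeff n| ≤ A.κ i * A.y i / (τ * L) ∧ (Fa.coeff n ≠ 0 →
    n ∈ Smo (Rst A.p0 (A.y (i + 1))) ∧ (1 - τ) * L < Real.log n ∧ Real.log n ≤ L)) ∧
  (|Fb.coeff n| ≤ 1 ∧ (Fb.coeff n ≠ 0 →
    n ∈ Smo (Rst A.p0 (A.y (i + 1))) ∧ L < Real.log n ∧ Real.log n ≤ L + A.κ i * A.y i)) ∧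
  (|Fc.coeff n| ≤ 1 ∧ (Fc.coeff n ≠ 0 →
    n ∈ Smo (Rst A.p0 (A.y (i + 1))) ∧ (1 - τ) * L < Real.log n ∧ Real.log n ≤ L ∧
    A.κ i < OmS (A.S i) n))

/-- P6: the numerical inequalities for the three parts -/
def Num : Prop := ∀ (q : ℕ) (k : ℝ), 1 ≤ q → 0 < k → (q : ℝ) - 1 < k → k ≤ q → ∀ v : ℕ, 4 ≤ v →
  ∃ C : ℝ, 1 ≤ C ∧ ∀ A : Par, A.q = q → A.v = v → A.Ok → ∀ τ L : ℝ, 0 < τ → τ ≤ 1 →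
  A.Y = τ * L → ∀ i < A.J,
  (((A.κ i * A.y i / (τ * L)) ^ 2 * (Real.exp (4 * q * v * (i + 1))
      * (((L + A.y i + 1) / (A.y i + 1)) ^ (q - 1) * ((τ * L + A.y i + 1) / (A.y i + 1))))) ^ k
    * (A.y i + 1) ^ (k ^ 2) ≤ C * ((1 / 4) ^ i * (τ ^ (k * (k - q + 1)) * L ^ (k ^ 2)))) ∧
  ((Real.exp (4 * q * v * (i + 1)) * (((L + A.κ i * A.y i + A.y i + 1) / (A.y i + 1)) ^ (q - 1)
      * ((A.κ i * A.y i + A.y i + 1) / (A.y i + 1)))) ^ k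
    * (A.y i + 1) ^ (k ^ 2) ≤ C * ((1 / 4) ^ i * (τ ^ (k * (k - q + 1)) * L ^ (k ^ 2)))) ∧
  (((1 / 2) ^ A.κ i * (Real.exp (4 * q * v * (i + 1))
      * (((L + A.y i + 1) / (A.y i + 1)) ^ (q - 1) * ((τ * L + A.y i + 1) / (A.y i + 1))))) ^ k
    * (A.y i + 1) ^ (k ^ 2) ≤ C * ((1 / 4) ^ i * (τ ^ (k * (k - q + 1)) * L ^ (k ^ 2))))

/-- P7: one window -/
def Piece : Prop := ∀ (q : ℕ) (k : ℝ), 1 ≤ q → 0 < k → (q : ℝ) - 1 < k → k ≤ q → ∃ v0 : ℕ,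
  ∀ v : ℕ, v0 ≤ v → ∃ C : ℝ, 1 ≤ C ∧ ∀ A : Par, A.q = q → A.v = v → A.p0 = 1000 → A.Ok →
  ∀ τ L : ℝ, 0 < τ → τ ≤ 1 → A.Y = τ * L → ∀ (X η : ℝ) (ν : Measure ℝ), MVP ν X η → η ≤ 1 →
  ∀ i < A.J, Real.exp (q * (L + A.κ i * A.y i) + A.ell (i + 1)) ≤ X →
  ∫ t, ‖ev t (A.QW (rp τ) L i * A.EI (i + 1))‖ ^ (2 * k) ∂ν
    ≤ C * ((1 / 4) ^ i * (τ ^ (k * (k - q + 1)) * L ^ (k ^ 2)))

/-- P8: the head -/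
def Head : Prop := ∀ (q : ℕ) (k : ℝ), 1 ≤ q → 0 < k → (q : ℝ) - 1 < k → k ≤ q →
  ∃ C : ℝ, 1 ≤ C ∧ ∀ A : Par, A.q = q → A.p0 = 1000 → A.Ok →
  ∀ τ L : ℝ, 0 < τ → τ ≤ 1 → 1 ≤ τ * L → A.Y = τ * L → ∀ (X η : ℝ) (ν : Measure ℝ), MVP ν X η →
  η ≤ 1 → Real.exp (q * L + A.ell 0) ≤ X →
  ∫ t, ‖ev t (RW (rp τ) A.p0 A.Y L * A.EI 0)‖ ^ (2 * k) ∂ν
    ≤ C * (τ ^ (k * (k - q + 1)) * L ^ (k ^ 2))

/-- P9: moments of the window at the edge -/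
def Tail : Prop := ∀ (q : ℕ) (k : ℝ), 1 ≤ q → 0 < k → (q : ℝ) - 1 < k → k ≤ q →
  ∃ C : ℝ, 1 ≤ C ∧ ∀ τ : ℝ, 0 < τ → τ ≤ 1 → ∃ C0 : ℝ, 1 ≤ C0 ∧ ∀ L : ℝ, C0 ≤ L →
  ∀ (X η : ℝ) (ν : Measure ℝ), MVP ν X η → η ≤ 1 → Real.exp (C0 * L) ≤ X →
  ∫ t, ‖ev t (TZ (rp τ) L)‖ ^ (2 * k) ∂ν ≤ C * (τ ^ (k * (k - q + 1)) * L ^ (k ^ 2))

/-- P10: the limit for the partial sums -/
def SharpLim : Prop := ∀ k : ℝ, 0 < k → ∃ c : ℝ, 0 ≤ c ∧ ∀ ε : ℝ, 0 < ε → ∃ N : ℝ, 1 ≤ N ∧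
  ∀ (L X η : ℝ) (ν : Measure ℝ), N ≤ L → MVP ν X η → Real.exp (N * L) ≤ X → 0 ≤ η → η * N ≤ 1 →
  |∫ t, ‖ZS (fun _ => 1) L t‖ ^ (2 * k) ∂ν - c * L ^ (k ^ 2)| ≤ ε * L ^ (k ^ 2)

/-- P11: the same over intervals -/
def SharpInt : Prop := ∀ k : ℝ, 0 < k → ∃ c : ℝ, 0 ≤ c ∧ ∀ ε : ℝ, 0 < ε → ∃ C : ℝ, 0 < C ∧
  ∀ L T : ℝ, C ≤ L → 1 ≤ T → C * L ≤ Real.log T → ∀ x : ℝ,
  |T⁻¹ * (∫ t in x..(x + T), ‖ZS (fun _ => 1) L t‖ ^ (2 * k)) - c * L ^ (k ^ 2)| ≤ ε * L ^ (k ^ 2)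

/-- P12: positivity -/
def SharpPos : Prop := ∀ k : ℝ, 0 < k → ∃ c : ℝ, 0 < c ∧ ∀ ε : ℝ, 0 < ε → ∃ C : ℝ, 0 < C ∧
  ∀ L T : ℝ, C ≤ L → 1 ≤ T → C * L ≤ Real.log T → ∀ x : ℝ,
  |T⁻¹ * (∫ t in x..(x + T), ‖ZS (fun _ => 1) L t‖ ^ (2 * k)) - c * L ^ (k ^ 2)| ≤ ε * L ^ (k ^ 2)

end Pool.Agent.Lib.PS
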