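import Pool.Agent.Lib.MP_f9aece_nt_ps.Defs
import Pool.Agent.Lib.MP_f9aece_nt_n4.R1
import Pool.Agent.Lib.MP_f9aece_nt_ms.Q1EnW
import Pool.Agent.Lib.MP_f9aece_nt_ms.Q11OmQ

/-!
P1: reciprocals over a window, the primes of one group with weight two.
-/

set_option autoImplicit false

namespace Pool.Agent.Lib.PS

open MeasureTheory Set Filter Topology Complex
open Pool.Agent.Lib.MP_f9aece_nt (DP pair BK K1 ev PP VV Smo expo)
open Pool.Agent.Lib.MP_f9aece_nt_h40 (ind)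
open Pool.Agent.Lib.MP_f9aece_nt_h85 (Rst)
open Pool.Agent.Lib.J4 (En V2)
open Pool.Agent.Lib.N4 (OmS)
open Pool.Agent.Lib.MS (MVP Par RW TZ zr ZS un)

/-- the sum over the smooth parts -/
private lemma R01_smooth : ∃ C : ℝ, 1 ≤ C ∧ ∀ S : Finset ℕ, (∀ p ∈ S, p.Prime) →
    (∀ p ∈ S, 1000 < p) → ∀ M : Finset ℕ, (∀ m ∈ M, m ∈ Smo (S : Set ℕ)) →
    ∑ m ∈ M, 2 ^ OmS S m * (m : ℝ)⁻¹ ≤ C * Real.exp (2 * VV S) := by
  obtain ⟨C0, hC0, hE⟩ := MS.enW 1 0 le_rfl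
  refine ⟨Real.exp (4 * C0), Real.one_le_exp (by positivity), fun S hS hSk M hM => ?_⟩
  have h1 := hE S hS (MS.Q11.w S)
    (fun p hp => ⟨MS.Q11.w_nonneg S p, MS.Q11.w_le_half hSk (hS p hp)⟩) 0 (by simp) M hM
  have h2 : ∑ m ∈ M, 2 ^ OmS S m * (m : ℝ)⁻¹
      = ∑ n ∈ M, MS.hq 1 0 n ^ 2 * ∏ p ∈ S, MS.Q11.w S p ^ n.factorization p := by
    refine Finset.sum_congr rfl fun m hm => ?_
    have h3 : MS.hq 1 0 m = 1 := by
      rw [MS.hq_zero, pow_one]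
      show (if m = 0 then (0 : ℝ) else 1) = 1
      rw [if_neg (hM m hm).1]
    rw [h3, MS.Q11.prod_w hS (hM m hm), one_pow, one_mul]
  rw [h2]
  refine h1.trans ?_
  rw [← Real.exp_add]
  apply Real.exp_le_exp.2
  rw [Finset.sum_add_distrib, ← Finset.mul_sum, ← Finset.mul_sum]
  have h4 : ∑ p ∈ S, MS.Q11.w S p ≤ 2 * VV S := by
    calc ∑ p ∈ S, MS.Q11.w S p ≤ ∑ p ∈ S, 2 * (p : ℝ)⁻¹ :=
          Finset.sum_le_sum fun p _ => MS.Q11.w_le S p
      _ = 2 * VV S := by rw [← Finset.mul_sum]; rfl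
  have h5 : ∑ p ∈ S, MS.Q11.w S p ^ 2 ≤ 4 := by
    calc ∑ p ∈ S, MS.Q11.w S p ^ 2 ≤ ∑ p ∈ S, 4 * ((p : ℝ)⁻¹) ^ 2 := by
          refine Finset.sum_le_sum fun p _ => ?_
          have h3 := pow_le_pow_left₀ (MS.Q11.w_nonneg S p) (MS.Q11.w_le S p) 2
          calc MS.Q11.w S p ^ 2 ≤ (2 * (p : ℝ)⁻¹) ^ 2 := h3
            _ = _ := by ring
      _ = 4 * ∑ p ∈ S, ((p : ℝ)⁻¹) ^ 2 := by rw [← Finset.mul_sum]
      _ ≤ 4 * 1 := mul_le_mul_of_nonneg_left (MS.Q10.sq_sum_le_one S hS) (by norm_num)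
      _ = 4 := by norm_num
  have h6 := mul_le_mul_of_nonneg_left h5 hC0
  push_cast
  nlinarith

private lemma R01_log {z : ℕ} (hz : z ≠ 0) {y : ℝ} : z ≤ ⌊Real.exp y⌋₊ ↔ Real.log z ≤ y := by
  have hz0 : (0 : ℝ) < z := by exact_mod_cast Nat.pos_of_ne_zero hz
  rw [Nat.le_floor_iff (Real.exp_pos y).le, Real.log_le_iff_le_exp hz0]

/-- Write `n = m r` with `m ∈ Smo S`, `r ∈ Smo (Rst p0 y)` (unique: `N4.R1.smo_inj`, existence as in
`N4/R1.lean` / `h85.exists_factor`); `2 ^ OmS S n = 2 ^ OmS S m`. For fixed `m` the `r` run over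
`x - log m < log r ≤ x' - log m`: `N4.roughSum` (n4/R1.lean, `RoughSum`) gives
`C (x' - x + y + 1) / (y + 1)` for `∑ 1 / r`. The sum over `m` of `2 ^ Ω(m) / m` is at most
`∏_{p ∈ S} (1 - 2/p)⁻¹ ≤ C exp (2 VV S)` (all `p > 1000`, `∑ 1/p² ≤ 1`; or `MS.enW` with `q = 1`,
`c = 0`, `y p = 2 / p`, see `Q11.prod_w` and the proof of `omQ` in ms/Q11OmQ.lean). -/
theorem winOne : WinOne := by
  classical
  intro p0 hp0
  obtain ⟨C1, hC1, hR⟩ := N4.roughSum p0 (by omega)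
  obtain ⟨C2, hC2, hSm⟩ := R01_smooth
  refine ⟨C1 * C2, ?_, ?_⟩
  · nlinarith
  intro y y' x x' hy' hyy hx S hS B hB
  have hy : 0 ≤ y := hy'.trans hyy
  have hSp : ∀ p ∈ S, p.Prime := fun p hp => ((hS p).1 hp).1
  have hSk : ∀ p ∈ S, 1000 < p := fun p hp => lt_of_le_of_lt hp0 ((hS p).1 hp).2.1
  have hex : ∀ n : ℕ, ∃ z : ℕ × ℕ, n ≠ 0 →
      z.1 ∈ Smo ((S : Set ℕ)ᶜ) ∧ z.2 ∈ Smo (S : Set ℕ) ∧ z.1 * z.2 = n := by
    intro n
    rcases eq_or_ne n 0 with h | h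
    · exact ⟨(0, 0), fun h' => absurd h h'⟩
    · obtain ⟨z, hz⟩ := MP_f9aece_nt_h85.exists_factor (S : Set ℕ) h
      exact ⟨z, fun _ => hz⟩
  choose Fc hFc using hex
  have hB0 : ∀ n ∈ B, n ≠ 0 := fun n hn => (hB n hn).1.1
  -- the rough part
  have hrough : ∀ n ∈ B, (Fc n).1 ∈ Smo (Rst p0 y) := by
    intro n hn
    obtain ⟨h1, h2, h3⟩ := hFc n (hB0 n hn)
    refine ⟨h1.1, fun p hp hd => ?_⟩
    have h4 : p ∉ S := by
      have := h1.2 p hp hd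
      simpa using this
    have h5 : p ∣ n := hd.trans ⟨_, h3.symm⟩
    have h6 := (hB n hn).1.2 p hp h5
    intro h7
    have h8 : ¬ p ≤ ⌊Real.exp y'⌋₊ := fun h => h6 ⟨h7.1, h⟩
    rw [R01_log hp.ne_zero, not_le] at h8
    exact h4 ((hS p).2 ⟨hp, h7.1, h8, (R01_log hp.ne_zero).1 h7.2⟩)
  -- the number of prime factors in `S`
  have hOm : ∀ n ∈ B, OmS S n = OmS S (Fc n).2 := by
    intro n hn
    obtain ⟨h1, h2, h3⟩ := hFc n (hB0 n hn)
    unfold OmS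
    refine Finset.sum_congr rfl fun p hp => ?_
    conv_lhs => rw [← h3]
    rw [Nat.factorization_mul h1.1 h2.1, Finsupp.add_apply]
    have h4 : (Fc n).1.factorization p = 0 := by
      apply Nat.factorization_eq_zero_of_not_dvd
      intro hd
      exact h1.2 p (hSp p hp) hd hp
    rw [h4, zero_add]
  set M : Finset ℕ := B.image fun n => (Fc n).2 with hM
  have hMS : ∀ m ∈ M, m ∈ Smo (S : Set ℕ) := by
    intro m hm
    obtain ⟨n, hn, rfl⟩ := Finset.mem_image.1 hm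
    exact (hFc n (hB0 n hn)).2.1
  have hsplit : ∑ n ∈ B, 2 ^ OmS S n * (n : ℝ)⁻¹
      = ∑ m ∈ M, ∑ n ∈ B.filter (fun n => (Fc n).2 = m), 2 ^ OmS S n * (n : ℝ)⁻¹ := by
    rw [Finset.sum_fiberwise_of_maps_to]
    intro n hn
    exact Finset.mem_image_of_mem _ hn
  have hfib : ∀ m ∈ M, ∑ n ∈ B.filter (fun n => (Fc n).2 = m), 2 ^ OmS S n * (n : ℝ)⁻¹
      ≤ 2 ^ OmS S m * (m : ℝ)⁻¹ * (C1 * ((x' - x + y + 1) / (y + 1))) := by
    intro m hm
    have hm0 : m ≠ 0 := (hMS m hm).1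
    have hmR : (m : ℝ) ≠ 0 := by exact_mod_cast hm0
    have e1 : ∑ n ∈ B.filter (fun n => (Fc n).2 = m), 2 ^ OmS S n * (n : ℝ)⁻¹
        = 2 ^ OmS S m * (m : ℝ)⁻¹ * ∑ n ∈ B.filter (fun n => (Fc n).2 = m), ((Fc n).1 : ℝ)⁻¹ := by
      rw [Finset.mul_sum]
      refine Finset.sum_congr rfl fun n hn => ?_
      rw [Finset.mem_filter] at hn
      obtain ⟨h1, h2, h3⟩ := hFc n (hB0 n hn.1)
      rw [hOm n hn.1, hn.2]
      have h4 : (n : ℝ) = (Fc n).1 * m := by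
        rw [← hn.2]
        exact_mod_cast h3.symm
      rw [h4, mul_inv]
      ring
    have hinj : Set.InjOn (fun n => (Fc n).1) (B.filter (fun n => (Fc n).2 = m) : Finset ℕ) := by
      intro n hn n' hn' h
      rw [Finset.mem_coe, Finset.mem_filter] at hn hn'
      have h3 := (hFc n (hB0 n hn.1)).2.2
      have h3' := (hFc n' (hB0 n' hn'.1)).2.2
      have h4 : (Fc n).1 = (Fc n').1 := h
      rw [← h3, ← h3', h4, hn.2, hn'.2]
    have e2 : ∑ n ∈ B.filter (fun n => (Fc n).2 = m), ((Fc n).1 : ℝ)⁻¹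
        = ∑ r ∈ (B.filter (fun n => (Fc n).2 = m)).image (fun n => (Fc n).1), (r : ℝ)⁻¹ := by
      rw [Finset.sum_image hinj]
    rw [e1, e2]
    refine mul_le_mul_of_nonneg_left ?_ (by positivity)
    have h5 := hR y hy (x - Real.log m) (x' - Real.log m) (by linarith)
      ((B.filter (fun n => (Fc n).2 = m)).image (fun n => (Fc n).1)) (by
        intro r hr
        obtain ⟨n, hn, rfl⟩ := Finset.mem_image.1 hr
        rw [Finset.mem_filter] at hn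
        have h3 := (hFc n (hB0 n hn.1)).2.2
        have h6 := hrough n hn.1
        have hr0 : ((Fc n).1 : ℝ) ≠ 0 := by exact_mod_cast h6.1
        have h7 : Real.log n = Real.log (Fc n).1 + Real.log m := by
          have h4 : (n : ℝ) = (Fc n).1 * m := by
            rw [← hn.2]
            exact_mod_cast h3.symm
          rw [h4, Real.log_mul hr0 hmR]
        obtain ⟨_, h8, h9⟩ := hB n hn.1
        exact ⟨h6, by linarith, by linarith⟩)
    have e3 : x' - Real.log m - (x - Real.log m) + y + 1 = x' - x + y + 1 := by ring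
    rw [e3] at h5
    exact h5
  have hw : 0 ≤ (x' - x + y + 1) / (y + 1) := div_nonneg (by linarith) (by linarith)
  calc ∑ n ∈ B, 2 ^ OmS S n * (n : ℝ)⁻¹
      ≤ ∑ m ∈ M, 2 ^ OmS S m * (m : ℝ)⁻¹ * (C1 * ((x' - x + y + 1) / (y + 1))) := by
        rw [hsplit]
        exact Finset.sum_le_sum hfib
    _ = (∑ m ∈ M, 2 ^ OmS S m * (m : ℝ)⁻¹) * (C1 * ((x' - x + y + 1) / (y + 1))) := by
        rw [Finset.sum_mul]
    _ ≤ (C2 * Real.exp (2 * VV S)) * (C1 * ((x' - x + y + 1) / (y + 1))) :=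
        mul_le_mul_of_nonneg_right (hSm S hSp hSk M hMS) (by positivity)
    _ = C1 * C2 * (Real.exp (2 * VV S) * ((x' - x + y + 1) / (y + 1))) := by ring

end Pool.Agent.Lib.PS
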