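import Pool.Agent.Lib.MP_f9aece_nt_ps.Defs
import Pool.Agent.Lib.MP_f9aece_nt_ms.Coeffs

/-!
P3: energy of a power of a Dirichlet polynomial.
-/

set_option autoImplicit false

namespace Pool.Agent.Lib.PS

open MeasureTheory Set Filter Topology Complex
open Pool.Agent.Lib.MP_f9aece_nt (DP pair BK K1 ev PP VV Smo expo)
open Pool.Agent.Lib.MP_f9aece_nt_h40 (ind)
open Pool.Agent.Lib.MP_f9aece_nt_h85 (Rst)
open Pool.Agent.Lib.J4 (En V2)
open Pool.Agent.Lib.N4 (OmS)
open Pool.Agent.Lib.MS (MVP Par RW TZ zr ZS un)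

namespace R03

open scoped Pointwise
open Pool.Agent.Lib.MS (af)

/-- the powers of `zr` by divisor sums -/
private lemma zr_pow_succ (q : ℕ) {n : ℕ} (hn : n ≠ 0) :
    (zr ^ (q + 1)) n = ∑ d ∈ n.divisors, (zr ^ q) d := by
  rw [pow_succ, ArithmeticFunction.mul_apply]
  rw [← Nat.map_div_right_divisors, Finset.sum_map]
  refine Finset.sum_congr rfl fun d hd => ?_
  have h1 : n / d ≠ 0 := by
    have h2 := Nat.mem_divisors.mp hd
    exact (Nat.div_pos (Nat.le_of_dvd (Nat.pos_of_ne_zero hn) h2.1)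
      (Nat.pos_of_ne_zero (ne_zero_of_dvd_ne_zero hn h2.1))).ne'
  simp only [Function.Embedding.coeFn_mk]
  rw [MS.zr_apply h1, mul_one]

/-- the powers of `zr` are submultiplicative -/
private lemma zr_sub (q a b : ℕ) : (zr ^ q) (a * b) ≤ (zr ^ q) a * (zr ^ q) b := by
  rcases eq_or_ne a 0 with h | h
  · subst h; rw [zero_mul]; simp
  rcases eq_or_ne b 0 with h' | h'
  · subst h'; rw [mul_zero]; simp
  induction q generalizing a b with
  | zero =>
    rw [pow_zero, ArithmeticFunction.one_apply, ArithmeticFunction.one_apply,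
      ArithmeticFunction.one_apply]
    by_cases h1 : a * b = 1
    · have h2 := Nat.eq_one_of_mul_eq_one_right h1
      have h3 := Nat.eq_one_of_mul_eq_one_left h1
      simp [h2, h3]
    · rw [if_neg h1]
      positivity
  | succ q ih =>
    rw [zr_pow_succ q (mul_ne_zero h h'), zr_pow_succ q h, zr_pow_succ q h', Finset.sum_mul_sum,
      ← Finset.sum_product', Nat.divisors_mul, ← Finset.image_mul_product]
    refine (Finset.sum_image_le_of_nonneg fun n _ => MS.zr_pow_nonneg q n).trans ?_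
    refine Finset.sum_le_sum fun p hp => ?_
    have h1 := Finset.mem_product.mp hp
    exact ih p.1 p.2 (Nat.pos_of_mem_divisors h1.1).ne' (Nat.pos_of_mem_divisors h1.2).ne'

/-- coefficients one on `S` -/
private noncomputable def gS (S : Finset ℕ) : ArithmeticFunction ℝ :=
  ⟨fun n => if n ∈ S ∧ n ≠ 0 then 1 else 0, by simp⟩

private lemma gS_apply (S : Finset ℕ) (n : ℕ) : gS S n = if n ∈ S ∧ n ≠ 0 then 1 else 0 := rfl

private lemma gS_nonneg (S : Finset ℕ) (n : ℕ) : 0 ≤ gS S n := by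
  rw [gS_apply]; split_ifs <;> norm_num

private lemma gS_le (S : Finset ℕ) (n : ℕ) : |gS S n| ≤ zr n := by
  rw [gS_apply]
  split_ifs with h
  · rw [MS.zr_apply h.2, abs_one]
  · rw [abs_zero]
    have h1 := MS.zr_pow_nonneg 1 n
    rwa [pow_one] at h1

private lemma gS_pow_nonneg (S : Finset ℕ) (k n : ℕ) : 0 ≤ (gS S ^ k) n := by
  have h : ∀ n, |gS S n| ≤ gS S n := fun n => by rw [abs_of_nonneg (gS_nonneg S n)]
  exact (abs_nonneg _).trans (MS.abs_pow_le h k n)

private lemma gS_pow_le (S : Finset ℕ) (k n : ℕ) : (gS S ^ k) n ≤ (zr ^ k) n :=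
  (le_abs_self _).trans (MS.abs_pow_le (gS_le S) k n)

/-- the main sum -/
private lemma main (S : Finset ℕ) (w : ℕ → ℝ) (hw : ∀ n, 0 ≤ w n) (h1 : w 1 ≤ 1)
    (hsub : ∀ a b, w (a * b) ≤ w a * w b) (k : ℕ) : ∀ T : Finset ℕ,
    ∑ n ∈ T, (gS S ^ k) n * (w n * (n : ℝ)⁻¹) ≤ (∑ n ∈ S, w n * (n : ℝ)⁻¹) ^ k := by
  induction k with
  | zero =>
    intro T
    have h2 : ∀ n ∈ T, (gS S ^ 0) n * (w n * (n : ℝ)⁻¹) = if n = 1 then w 1 else 0 := by
      intro n _
      rw [pow_zero, ArithmeticFunction.one_apply]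
      split_ifs with h
      · subst h; simp
      · rw [zero_mul]
    rw [Finset.sum_congr rfl h2, Finset.sum_ite_eq', pow_zero]
    split_ifs
    · exact h1
    · norm_num
  | succ k ih =>
    intro T
    have hnn : ∀ n : ℕ, 0 ≤ w n * (n : ℝ)⁻¹ := fun n => mul_nonneg (hw n) (by positivity)
    have h2 : ∀ n ∈ T, (gS S ^ (k + 1)) n * (w n * (n : ℝ)⁻¹) ≤
        ∑ p ∈ n.divisorsAntidiagonal, ((gS S ^ k) p.1 * (w p.1 * (p.1 : ℝ)⁻¹)) *
          (gS S p.2 * (w p.2 * (p.2 : ℝ)⁻¹)) := by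
      intro n _
      rw [pow_succ, ArithmeticFunction.mul_apply, Finset.sum_mul]
      refine Finset.sum_le_sum fun p hp => ?_
      have h3 := (Nat.mem_divisorsAntidiagonal.mp hp).1
      rw [← h3, Nat.cast_mul, mul_inv]
      have h4 := hsub p.1 p.2
      have h5 : 0 ≤ (gS S ^ k) p.1 * gS S p.2 * ((p.1 : ℝ)⁻¹ * (p.2 : ℝ)⁻¹) :=
        mul_nonneg (mul_nonneg (gS_pow_nonneg S k _) (gS_nonneg S _)) (by positivity)
      nlinarith [mul_le_mul_of_nonneg_left h4 h5]
    refine (Finset.sum_le_sum h2).trans ?_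
    have hdis : (↑T : Set ℕ).PairwiseDisjoint fun n => n.divisorsAntidiagonal := by
      intro m _ n _ hmn
      refine Finset.disjoint_left.mpr fun p hp hp' => hmn ?_
      rw [← (Nat.mem_divisorsAntidiagonal.mp hp).1, ← (Nat.mem_divisorsAntidiagonal.mp hp').1]
    rw [← Finset.sum_biUnion hdis]
    set T' : Finset ℕ := T.biUnion fun n => n.divisors
    have hF : ∀ n : ℕ, 0 ≤ (gS S ^ k) n * (w n * (n : ℝ)⁻¹) := fun n =>
      mul_nonneg (gS_pow_nonneg S k n) (hnn n)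
    have hG : ∀ n : ℕ, 0 ≤ gS S n * (w n * (n : ℝ)⁻¹) := fun n =>
      mul_nonneg (gS_nonneg S n) (hnn n)
    have hsb : (T.biUnion fun n => n.divisorsAntidiagonal) ⊆ T' ×ˢ T' := by
      intro p hp
      obtain ⟨n, hn, hpn⟩ := Finset.mem_biUnion.mp hp
      have h3 := Nat.mem_divisorsAntidiagonal.mp hpn
      refine Finset.mem_product.mpr ⟨Finset.mem_biUnion.mpr ⟨n, hn, ?_⟩,
        Finset.mem_biUnion.mpr ⟨n, hn, ?_⟩⟩
      · exact Nat.mem_divisors.mpr ⟨⟨p.2, h3.1.symm⟩, h3.2⟩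
      · exact Nat.mem_divisors.mpr ⟨⟨p.1, by rw [mul_comm]; exact h3.1.symm⟩, h3.2⟩
    refine (Finset.sum_le_sum_of_subset_of_nonneg hsb fun p _ _ => mul_nonneg (hF _) (hG _)).trans ?_
    rw [Finset.sum_product]
    dsimp only
    rw [← Finset.sum_mul_sum, pow_succ]
    refine mul_le_mul (ih T') ?_ (Finset.sum_nonneg fun n _ => hG n)
      (pow_nonneg (Finset.sum_nonneg fun n _ => hnn n) k)
    have h4 : ∀ b ∈ T', gS S b * (w b * (b : ℝ)⁻¹) =
        if b ∈ S ∧ b ≠ 0 then w b * (b : ℝ)⁻¹ else 0 := by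
      intro b _
      rw [gS_apply]
      split_ifs <;> simp
    rw [Finset.sum_congr rfl h4, ← Finset.sum_filter]
    exact Finset.sum_le_sum_of_subset_of_nonneg
      (fun b hb => (Finset.mem_filter.mp hb).2.1) fun n _ _ => hnn n

private lemma supp_pow {f : DP} (h0 : f.coeff 0 = 0) (k : ℕ) :
    ∀ n, (f ^ k).coeff n ≠ 0 → n ≠ 0 := by
  induction k with
  | zero =>
    intro n hn h
    apply hn
    rw [pow_zero, MonoidAlgebra.one_def, MonoidAlgebra.coeff_single, Finsupp.single_apply,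
      if_neg (fun h' => one_ne_zero (h'.trans h))]
  | succ k ih =>
    intro n hn
    rw [pow_succ] at hn
    have h1 := MonoidAlgebra.support_coeff_mul_subset (f ^ k) f (Finsupp.mem_support_iff.mpr hn)
    obtain ⟨a, ha, b, hb, rfl⟩ := Finset.mem_mul.mp h1
    refine mul_ne_zero (ih a (Finsupp.mem_support_iff.mp ha)) ?_
    rintro rfl
    exact (Finsupp.mem_support_iff.mp hb) h0

private lemma coeff_pow {f : DP} {a : ℝ} (hf : ∀ n, |f.coeff n| ≤ a) (k n : ℕ) :
    |(af f ^ k) n| ≤ a ^ k * (gS f.coeff.support ^ k) n := by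
  have h0 : ∀ n, |af f n| ≤ a * gS f.coeff.support n := by
    intro n
    rcases eq_or_ne n 0 with h | h
    · subst h; simp
    · rw [MS.af_apply _ h, gS_apply]
      by_cases h1 : f.coeff n = 0
      · rw [h1, abs_zero]
        have h2 : 0 ≤ a := (abs_nonneg _).trans (hf n)
        split_ifs <;> simp [h2]
      · rw [if_pos ⟨Finsupp.mem_support_iff.mpr h1, h⟩, mul_one]
        exact hf n
  induction k generalizing n with
  | zero =>
    rw [pow_zero, pow_zero, pow_zero, ArithmeticFunction.one_apply]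
    split_ifs <;> simp
  | succ k ih =>
    rw [pow_succ, pow_succ, pow_succ, ArithmeticFunction.mul_apply, ArithmeticFunction.mul_apply,
      Finset.mul_sum]
    refine (Finset.abs_sum_le_sum_abs _ _).trans (Finset.sum_le_sum fun p _ => ?_)
    rw [abs_mul]
    calc |(af f ^ k) p.1| * |af f p.2|
        ≤ (a ^ k * (gS f.coeff.support ^ k) p.1) * (a * gS f.coeff.support p.2) :=
          mul_le_mul (ih p.1) (h0 p.2) (abs_nonneg _) ((abs_nonneg _).trans (ih p.1))
      _ = a ^ k * a * ((gS f.coeff.support ^ k) p.1 * gS f.coeff.support p.2) := by ring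

end R03

/-- Let `g` have coefficient one on the support of `f`. `|(f ^ q)_m| ≤ a ^ q (g ^ q)_m`, `(g ^ q)_m ≤
(zr ^ q) m`, so `En (f ^ q) ≤ a ^ (2q) ∑_m (g ^ q)_m (zr ^ q) m / m`. With
`Φ h = ∑_m h_m (zr ^ q) m / m` one has `Φ (h₁ h₂) ≤ Φ h₁ Φ h₂` for nonnegative coefficients, as
`(zr ^ q) (a b) ≤ (zr ^ q) a (zr ^ q) b` (induction on `q` with `Nat.divisors_mul`). `En f = ∑
f_n ^ 2 / n`: see the lemmas on `BK K1` in MP_f9aece_nt/DirPoly, j4/EnNorm, ms/Q12RoughEn. -/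
theorem enPow : EnPow := by
  intro q f a ha h0 hb
  have hpos : ∀ n, (f ^ q).coeff n ≠ 0 → 1 ≤ n := fun n hn =>
    Nat.one_le_iff_ne_zero.mpr (R03.supp_pow h0 q n hn)
  have hw1 : (zr ^ q) 1 ≤ 1 := le_of_eq (MS.zr_pow_mult q).1
  rw [MS.En_af hpos, MS.af_pow]
  refine le_trans ?_ (mul_le_mul_of_nonneg_left (R03.main f.coeff.support (fun n => (zr ^ q) n)
    (MS.zr_pow_nonneg q) hw1 (R03.zr_sub q) q (f ^ q).coeff.support) (by positivity))
  rw [Finset.mul_sum]
  refine Finset.sum_le_sum fun n _ => ?_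
  have h2 : (MS.af f ^ q) n ^ 2 ≤ (a ^ q * (R03.gS f.coeff.support ^ q) n) ^ 2 := by
    rw [← sq_abs]
    exact pow_le_pow_left₀ (abs_nonneg _) (R03.coeff_pow hb q n) 2
  have h3 : (R03.gS f.coeff.support ^ q) n ^ 2 ≤
      (R03.gS f.coeff.support ^ q) n * (zr ^ q) n := by
    rw [sq]
    exact mul_le_mul_of_nonneg_left (R03.gS_pow_le _ q n) (R03.gS_pow_nonneg _ q n)
  calc (MS.af f ^ q) n ^ 2 * (n : ℝ)⁻¹
      ≤ (a ^ q * (R03.gS f.coeff.support ^ q) n) ^ 2 * (n : ℝ)⁻¹ :=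
        mul_le_mul_of_nonneg_right h2 (by positivity)
    _ = a ^ (2 * q) * ((R03.gS f.coeff.support ^ q) n ^ 2 * (n : ℝ)⁻¹) := by
        rw [mul_comm 2 q, pow_mul]; ring
    _ ≤ a ^ (2 * q) * (((R03.gS f.coeff.support ^ q) n * (zr ^ q) n) * (n : ℝ)⁻¹) :=
        mul_le_mul_of_nonneg_left (mul_le_mul_of_nonneg_right h3 (by positivity)) (by positivity)
    _ = a ^ (2 * q) * ((R03.gS f.coeff.support ^ q) n * ((zr ^ q) n * (n : ℝ)⁻¹)) := by ring

end Pool.Agent.Lib.PS
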