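import Pool.Agent.Lib.MP_f9aece_nt_ps.Defs

/-!
P4: energy of a power of a window.
-/

set_option autoImplicit false

namespace Pool.Agent.Lib.PS

open MeasureTheory Set Filter Topology Complex
open Pool.Agent.Lib.MP_f9aece_nt (DP pair BK K1 ev PP VV Smo expo)
open Pool.Agent.Lib.MP_f9aece_nt_h40 (ind)
open Pool.Agent.Lib.MP_f9aece_nt_h85 (Rst)
open Pool.Agent.Lib.J4 (En V2)
open Pool.Agent.Lib.N4 (OmS)
open Pool.Agent.Lib.MS (MVP Par RW TZ zr ZS un)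

private lemma zr_nn (n : ℕ) : 0 ≤ zr n := by
  change (0 : ℝ) ≤ (if n = 0 then 0 else 1)
  split
  · exact le_rfl
  · exact zero_le_one

private lemma zr_pow_nn (q n : ℕ) : 0 ≤ (zr ^ q) n := by
  induction q generalizing n with
  | zero =>
    rw [pow_zero, ArithmeticFunction.one_apply]
    split
    · exact zero_le_one
    · exact le_rfl
  | succ q ih =>
    rw [pow_succ, ArithmeticFunction.mul_apply]
    exact Finset.sum_nonneg fun x _ => mul_nonneg (ih _) (zr_nn _)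

/-- `EnPow` for `f`, and `1 ≤ (1/2) ^ κ 2 ^ OmS S n` on the support, then `WinDiv` with `q - 1` for the
sum over `f.coeff.support`. Constant `C ^ q`. -/
theorem winPow (h2 : WinDiv) (h3 : EnPow) : WinPow := by
  intro q p0 hq hp0
  obtain ⟨C, hC1, hC⟩ := h2 (q - 1) p0 hp0
  refine ⟨C ^ q, one_le_pow₀ hC1, ?_⟩
  intro y y' x x' a hy' hyy hxx hx' ha S hS κ f hf
  have hq1 : q - 1 + 1 = q := by omega
  have hqr : ((q - 1 : ℕ) : ℝ) + 1 = (q : ℝ) := by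
    have : ((q - 1 + 1 : ℕ) : ℝ) = (q : ℝ) := by rw [hq1]
    push_cast at this
    exact this
  have hf0 : f.coeff 0 = 0 := by
    by_contra h0
    exact (((hf 0).2 h0).1).1 rfl
  have hE := h3 q f a ha hf0 fun n => (hf n).1
  have hW := hC y y' x x' hy' hyy hxx hx' S hS f.coeff.support (by
    intro n hn
    have h4 := (hf n).2 (Finsupp.mem_support_iff.1 hn)
    exact ⟨h4.1, h4.2.1, h4.2.2.1⟩)
  rw [hq1, hqr] at hW
  have hsum : ∑ n ∈ f.coeff.support, (zr ^ q) n * (n : ℝ)⁻¹ ≤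
      (1 / 2) ^ κ * (C * (Real.exp (2 * q * VV S)
        * (((x' + y + 1) / (y + 1)) ^ (q - 1) * ((x' - x + y + 1) / (y + 1))))) := by
    refine le_trans ?_ (mul_le_mul_of_nonneg_left hW (by positivity))
    rw [Finset.mul_sum]
    refine Finset.sum_le_sum fun n hn => ?_
    have h4 := (hf n).2 (Finsupp.mem_support_iff.1 hn)
    have h5 : (1 : ℝ) ≤ (1 / 2) ^ κ * 2 ^ OmS S n := by
      have h6 : (2 : ℝ) ^ κ ≤ 2 ^ OmS S n := pow_le_pow_right₀ (by norm_num) h4.2.2.2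
      have h7 : (1 / 2 : ℝ) ^ κ * 2 ^ κ = 1 := by
        rw [← mul_pow]
        norm_num
      calc (1 : ℝ) = (1 / 2) ^ κ * 2 ^ κ := h7.symm
        _ ≤ (1 / 2) ^ κ * 2 ^ OmS S n := mul_le_mul_of_nonneg_left h6 (by positivity)
    have h6 : 0 ≤ (zr ^ q) n * (n : ℝ)⁻¹ := mul_nonneg (zr_pow_nn q n) (by positivity)
    calc (zr ^ q) n * (n : ℝ)⁻¹ = 1 * ((zr ^ q) n * (n : ℝ)⁻¹) := (one_mul _).symm
      _ ≤ ((1 / 2) ^ κ * 2 ^ OmS S n) * ((zr ^ q) n * (n : ℝ)⁻¹) :=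
        mul_le_mul_of_nonneg_right h5 h6
      _ = (1 / 2) ^ κ * (2 ^ OmS S n * ((zr ^ q) n * (n : ℝ)⁻¹)) := by ring
  have hs0 : 0 ≤ ∑ n ∈ f.coeff.support, (zr ^ q) n * (n : ℝ)⁻¹ :=
    Finset.sum_nonneg fun n _ => mul_nonneg (zr_pow_nn q n) (by positivity)
  calc En (f ^ q) ≤ a ^ (2 * q) * (∑ n ∈ f.coeff.support, (zr ^ q) n * (n : ℝ)⁻¹) ^ q := hE
    _ ≤ a ^ (2 * q) * ((1 / 2) ^ κ * (C * (Real.exp (2 * q * VV S)
        * (((x' + y + 1) / (y + 1)) ^ (q - 1) * ((x' - x + y + 1) / (y + 1)))))) ^ q :=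
      mul_le_mul_of_nonneg_left (pow_le_pow_left₀ hs0 hsum q) (by positivity)
    _ = a ^ (2 * q) * (C ^ q * ((1 / 2) ^ κ * (Real.exp (2 * q * VV S)
        * (((x' + y + 1) / (y + 1)) ^ (q - 1) * ((x' - x + y + 1) / (y + 1))))) ^ q) := by
      rw [← mul_pow]
      congr 2
      ring
    _ = C ^ q * (a ^ (2 * q) * ((1 / 2) ^ κ * (Real.exp (2 * q * VV S)
        * (((x' + y + 1) / (y + 1)) ^ (q - 1) * ((x' - x + y + 1) / (y + 1))))) ^ q) := by
      ring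

end Pool.Agent.Lib.PS
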