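import Pool.Agent.Lib.MP_f9aece_nt_ps.Defs
import Pool.Agent.Lib.MP_f9aece_nt_ms.Coeffs
import Pool.Agent.Lib.MP_f9aece_nt_n4.A2

/-!
P5: the window polynomials of the ramp.
-/

set_option autoImplicit false

namespace Pool.Agent.Lib.PS

open MeasureTheory Set Filter Topology Complex
open scoped ArithmeticFunction.Omega
open Pool.Agent.Lib.MP_f9aece_nt (DP pair BK K1 ev PP VV Smo expo)
open Pool.Agent.Lib.MP_f9aece_nt_h40 (ind)
open Pool.Agent.Lib.MP_f9aece_nt_h85 (Rst)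
open Pool.Agent.Lib.J4 (Sg Yg En V2)
open Pool.Agent.Lib.N4 (OmS)
open Pool.Agent.Lib.MS (MVP Par RW TZ zr ZS un)

namespace R05

private lemma c5_coeff_sum (T : Finset ℕ) (f : ℕ → ℝ) (n : ℕ) :
    (∑ a ∈ T, MonoidAlgebra.single a (f a) : DP).coeff n = if n ∈ T then f n else 0 := by
  classical
  rw [MP_f9aece_nt_h97.coeff_eq_pair, MP_f9aece_nt.pair_sum]
  simp only [MP_f9aece_nt.pair_single, mul_ite, mul_one, mul_zero, Finset.sum_ite_eq']

private lemma c5_prod (S T : Finset ℕ) (f : ℕ → ℝ) :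
    ((∑ a ∈ S, MonoidAlgebra.single a (f a)) * ∑ b ∈ T, MonoidAlgebra.single b (1 : ℝ) : DP) =
      ∑ x ∈ S ×ˢ T, MonoidAlgebra.single (x.1 * x.2) (f x.1) := by
  rw [Finset.sum_mul_sum, Finset.sum_product]
  refine Finset.sum_congr rfl fun a _ => Finset.sum_congr rfl fun b _ => ?_
  rw [MonoidAlgebra.single_mul_single, mul_one]

private lemma c5_prod_eq (S T : Finset ℕ) (f : ℕ → ℝ)
    (h : ∀ a ∈ S, ∀ b ∈ T, ∀ a' ∈ S, ∀ b' ∈ T, a * b = a' * b' → a = a' ∧ b = b') {a b : ℕ}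
    (ha : a ∈ S) (hb : b ∈ T) :
    ((∑ a ∈ S, MonoidAlgebra.single a (f a)) *
      ∑ b ∈ T, MonoidAlgebra.single b (1 : ℝ) : DP).coeff (a * b) = f a := by
  classical
  rw [c5_prod, MP_f9aece_nt_h97.coeff_eq_pair, MP_f9aece_nt.pair_sum]
  simp only [MP_f9aece_nt.pair_single]
  rw [Finset.sum_eq_single (a, b)]
  · simp
  · rintro ⟨a', b'⟩ hx hne
    rw [Finset.mem_product] at hx
    rw [if_neg, mul_zero]
    intro h3
    have h4 := h a ha b hb a' hx.1 b' hx.2 h3.symm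
    exact hne (Prod.ext h4.1.symm h4.2.symm)
  · intro h3
    exact absurd (Finset.mem_product.2 ⟨ha, hb⟩) h3

private lemma c5_prod_zero (S T : Finset ℕ) (f : ℕ → ℝ) {n : ℕ}
    (h : ∀ a ∈ S, ∀ b ∈ T, a * b ≠ n) :
    ((∑ a ∈ S, MonoidAlgebra.single a (f a)) *
      ∑ b ∈ T, MonoidAlgebra.single b (1 : ℝ) : DP).coeff n = 0 := by
  classical
  rw [c5_prod, MP_f9aece_nt_h97.coeff_eq_pair, MP_f9aece_nt.pair_sum]
  simp only [MP_f9aece_nt.pair_single]
  apply Finset.sum_eq_zero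
  rintro ⟨a, b⟩ hx
  rw [Finset.mem_product] at hx
  rw [if_neg (h a hx.1 b hx.2), mul_zero]

open Classical in
/-- the index set of `RW` -/
private noncomputable def c5_set (p0 : ℕ) (y L : ℝ) : Finset ℕ :=
  (Finset.Icc 1 ⌊Real.exp L⌋₊).filter (fun n => n ∈ Smo (Rst p0 y))

private lemma c5_mem {p0 : ℕ} {y L : ℝ} {n : ℕ} :
    n ∈ c5_set p0 y L ↔ n ∈ Smo (Rst p0 y) ∧ Real.log n ≤ L := by
  classical
  unfold c5_set
  rw [Finset.mem_filter, Finset.mem_Icc]
  constructor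
  · rintro ⟨⟨h1, h2⟩, h3⟩
    exact ⟨h3, (N4.le_floor_iff' (by omega) _).1 h2⟩
  · rintro ⟨h1, h2⟩
    have h3 : 0 < n := Nat.pos_of_ne_zero h1.1
    exact ⟨⟨h3, (N4.le_floor_iff' h3 _).2 h2⟩, h1⟩

private lemma c5_RW (u : ℝ → ℝ) (p0 : ℕ) (y L : ℝ) :
    RW u p0 y L = ∑ n ∈ c5_set p0 y L, MonoidAlgebra.single n (u (Real.log n / L)) := rfl


private lemma rp_mem {τ : ℝ} (x : ℝ) : 0 ≤ rp τ x ∧ rp τ x ≤ 1 := by
  unfold rp
  refine ⟨le_max_left _ _, max_le zero_le_one (min_le_left _ _)⟩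

private lemma rp_zero {τ x : ℝ} (hτ : 0 < τ) (hx : x ≤ 1 - τ) : rp τ x = 0 := by
  unfold rp
  refine max_eq_left ((min_le_right _ _).trans ?_)
  exact div_nonpos_of_nonpos_of_nonneg (by linarith) hτ.le

private lemma rp_lip {τ : ℝ} (hτ : 0 < τ) (x y : ℝ) : |rp τ x - rp τ y| ≤ |x - y| / τ := by
  unfold rp
  refine (abs_max_sub_max_le_max _ _ _ _).trans (max_le ?_ ?_)
  · rw [sub_self, abs_zero]
    positivity
  · refine (abs_min_sub_min_le_max _ _ _ _).trans (max_le ?_ ?_)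
    · rw [sub_self, abs_zero]
      positivity
    · rw [← sub_div, abs_div, abs_of_pos hτ]
      apply le_of_eq
      congr 2
      ring

private lemma abs_sub_le_one {x y : ℝ} (hx : 0 ≤ x ∧ x ≤ 1) (hy : 0 ≤ y ∧ y ≤ 1) : |x - y| ≤ 1 := by
  rw [abs_le]
  constructor <;> linarith [hx.1, hx.2, hy.1, hy.2]

private lemma OmS_mul_le {S : Finset ℕ} {a b : ℕ} (ha : a ≠ 0) (hb : b ≠ 0)
    (h : ∀ p ∈ S, ¬ p ∣ a) : OmS S (a * b) ≤ Ω b := by
  unfold OmS
  rw [ArithmeticFunction.cardFactors_eq_sum_factorization, Finsupp.sum]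
  have h1 : ∀ p ∈ S, (a * b).factorization p = b.factorization p := by
    intro p hp
    rw [Nat.factorization_mul ha hb, Finsupp.add_apply,
      Nat.factorization_eq_zero_of_not_dvd (h p hp), zero_add]
  rw [Finset.sum_congr rfl h1]
  have h2 : ∀ p ∈ S, p ∉ S ∩ b.factorization.support → b.factorization p = 0 := by
    intro p hp hp2
    by_contra h3
    exact hp2 (Finset.mem_inter.2 ⟨hp, Finsupp.mem_support_iff.2 h3⟩)
  rw [← Finset.sum_subset Finset.inter_subset_left h2]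
  exact Finset.sum_le_sum_of_subset Finset.inter_subset_right

private lemma le_OmS {S : Finset ℕ} {b n : ℕ} (hn : n ≠ 0) (hbn : b ∣ n)
    (hb : b ∈ Smo (S : Set ℕ)) : Ω b ≤ OmS S n := by
  rw [ArithmeticFunction.cardFactors_eq_sum_factorization]
  unfold OmS
  rw [Finsupp.sum]
  have hsub : b.factorization.support ⊆ S := by
    intro p hp
    rw [Nat.support_factorization] at hp
    exact Finset.mem_coe.1 (hb.2 p (Nat.prime_of_mem_primeFactors hp)
      (Nat.dvd_of_mem_primeFactors hp))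
  refine (Finset.sum_le_sum_of_subset hsub).trans ?_
  refine Finset.sum_le_sum fun p _ => ?_
  exact (Nat.factorization_le_iff_dvd hb.1 hn).2 hbn p

end R05

open R05 in
/-- Adapt `MS.qCoeff` (ms/Q15QCoeff.lean), which computes the coefficient of `A.QW u L i` at `n = m r`
(`m ∈ Smo (A.S i)`, `r ∈ Smo (Rst p0 (A.y i))`): it is
`[log n ≤ L] u (log n / L) - [Ω(m) ≤ κ_i] [log r ≤ L] u (log r / L)`. Here `u = rp τ` is `1/τ`
Lipschitz with values in `[0, 1]`, zero up to `1 - τ`, one from `1` on, `0 ≤ log n - log r ≤ κ_i y_i` if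
`Ω(m) ≤ κ_i`. `Fa`, `Fb`, `Fc` are the restrictions of the coefficients to `log n ≤ L`, `OmS ≤ κ`; to
`L < log n`; to `log n ≤ L`, `κ < OmS` (`Finsupp.filter`). -/
theorem qSplit : QSplit := by
  classical
  intro A hA τ L hτ hτ1 hL i hi
  obtain ⟨q, v, p0, J, Y⟩ := A
  have hY : 0 < Y := hA.hY
  set κ := Par.κ ⟨q, v, p0, J, Y⟩ i with hκd
  have hSd : Par.S ⟨q, v, p0, J, Y⟩ i = Sg v p0 Y i := rfl
  have hyd : ∀ g, Par.y ⟨q, v, p0, J, Y⟩ g = Yg v Y g := fun _ => rfl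
  have hy0 := N4.Yg_pos' (v := v) hY i
  rw [hSd]
  simp only [hyd]
  have hdisj : ∀ p, p.Prime → p ∈ Rst p0 (Yg v Y i) → p ∉ (Sg v p0 Y i : Set ℕ) := by
    intro p _ hp hp2
    exact N4.Sg_disj_Rst hY (Finset.mem_coe.1 hp2) hp
  set T := c5_set p0 (Yg v Y i) L with hT
  set D := MP_f9aece_nt_h40.indS κ (Sg v p0 Y i) with hD
  have hD' : ∀ b, b ∈ D ↔ b ∈ Smo (Sg v p0 Y i : Set ℕ) ∧ Ω b ≤ κ := fun b =>
    MP_f9aece_nt_h40.mem_indS N4.Sg_prime
  have huniq : ∀ a ∈ T, ∀ b ∈ D, ∀ a' ∈ T, ∀ b' ∈ D, a * b = a' * b' → a = a' ∧ b = b' := by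
    intro a ha b hb a' ha' b' hb' hab
    rw [hT, c5_mem] at ha ha'
    rw [hD'] at hb hb'
    exact N4.factor_unique hdisj ha.1 hb.1 ha'.1 hb'.1 hab
  have hlogb : ∀ b ∈ D, Real.log b ≤ κ * Yg v Y i := by
    intro b hb
    rw [hD'] at hb
    refine MP_f9aece_nt.log_le_of_Omega (I := (Sg v p0 Y i : Set ℕ)) ?_ hy0.le hb.1 hb.2
    intro p hp
    exact ((N4.mem_Sg hY).1 (Finset.mem_coe.1 hp)).2.2.2
  -- the product polynomial
  set u := rp τ with hu
  set G : DP := RW u p0 (Yg v Y i) L * ind κ (Sg v p0 Y i) with hG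
  have hG' : G = (∑ a ∈ T, MonoidAlgebra.single a (u (Real.log a / L))) *
      ∑ b ∈ D, MonoidAlgebra.single b (1 : ℝ) := rfl
  set P : DP := Par.QW ⟨q, v, p0, J, Y⟩ u L i with hP
  have hQ : ∀ n, P.coeff n
      = (if n ∈ c5_set p0 (Yg v Y (i + 1)) L then u (Real.log n / L) else 0) - G.coeff n := by
    intro n
    have h1 : (RW u p0 (Yg v Y (i + 1)) L).coeff n =
        if n ∈ c5_set p0 (Yg v Y (i + 1)) L then u (Real.log n / L) else 0 := by
      rw [c5_RW]
      exact c5_coeff_sum _ (fun m => u (Real.log m / L)) n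
    rw [← h1, hP]
    unfold Par.QW
    rw [MonoidAlgebra.coeff_sub, Finsupp.sub_apply]
    rfl
  have hG0 : ∀ n, G.coeff n ≠ 0 → ∃ a ∈ T, ∃ b ∈ D, a * b = n := by
    intro n h
    by_contra h2
    push Not at h2
    apply h
    rw [hG']
    exact c5_prod_zero T D _ h2
  have hG1 : ∀ n, 0 ≤ G.coeff n ∧ G.coeff n ≤ 1 := by
    intro n
    by_cases h : G.coeff n = 0
    · rw [h]
      exact ⟨le_refl _, zero_le_one⟩
    · obtain ⟨a, ha, b, hb, rfl⟩ := hG0 n h
      rw [hG', c5_prod_eq T D _ huniq ha hb]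
      exact rp_mem _
  have hsupp : ∀ a ∈ T, ∀ b ∈ D, a * b ∈ Smo (Rst p0 (Yg v Y (i + 1))) ∧
      Real.log ((a * b : ℕ) : ℝ) ≤ L + κ * Yg v Y i := by
    intro a ha b hb
    have hlb := hlogb b hb
    rw [hT, c5_mem] at ha
    rw [hD'] at hb
    refine ⟨?_, ?_⟩
    · apply MP_f9aece_nt.mul_mem_Smo
      · exact MP_f9aece_nt.Smo_mono (N4.Rst_mono (N4.Yg_succ_le' hY i)) ha.1
      · refine MP_f9aece_nt.Smo_mono ?_ hb.1
        intro p hp
        exact N4.Sg_sub_Rst hY (Finset.mem_coe.1 hp)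
    · have ha0 : (a : ℝ) ≠ 0 := by exact_mod_cast ha.1.1
      have hb0 : (b : ℝ) ≠ 0 := by exact_mod_cast hb.1.1
      push_cast
      rw [Real.log_mul ha0 hb0]
      linarith [ha.2]
  have hH1 : ∀ n, 0 ≤ (if n ∈ c5_set p0 (Yg v Y (i + 1)) L then u (Real.log n / L) else 0) ∧
      (if n ∈ c5_set p0 (Yg v Y (i + 1)) L then u (Real.log n / L) else 0) ≤ 1 := by
    intro n
    split_ifs
    · exact rp_mem _
    · exact ⟨le_refl _, zero_le_one⟩
  have hP1 : ∀ n, |P.coeff n| ≤ 1 := by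
    intro n
    rw [hQ]
    exact abs_sub_le_one (hH1 n) (hG1 n)
  have hP2 : ∀ n : ℕ, P.coeff n ≠ 0 → n ∈ Smo (Rst p0 (Yg v Y (i + 1))) ∧
      Real.log n ≤ L + κ * Yg v Y i := by
    intro n hne
    by_cases h : G.coeff n = 0
    · rw [hQ, h, sub_zero] at hne
      have h2 : n ∈ c5_set p0 (Yg v Y (i + 1)) L := by
        by_contra h3
        rw [if_neg h3] at hne
        exact hne rfl
      rw [c5_mem] at h2
      have : 0 ≤ (κ : ℝ) * Yg v Y i := by positivity
      exact ⟨h2.1, by linarith [h2.2]⟩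
    · obtain ⟨a, ha, b, hb, rfl⟩ := hG0 n h
      exact hsupp a ha b hb
  have hramp : ∀ x : ℝ, u (x / L) ≠ 0 → (1 - τ) * L < x := by
    intro x hx
    by_contra h
    apply hx
    refine rp_zero hτ ?_
    rw [div_le_iff₀ hL]
    exact not_lt.1 h
  -- few prime factors
  have hA1 : ∀ n : ℕ, Real.log n ≤ L → OmS (Sg v p0 Y i) n ≤ κ →
      |P.coeff n| ≤ κ * Yg v Y i / (τ * L) ∧ (P.coeff n ≠ 0 → (1 - τ) * L < Real.log n) := by
    intro n hnL hOm
    by_cases hn : n ∈ Smo (Rst p0 (Yg v Y (i + 1)))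
    · have hn0 : n ≠ 0 := hn.1
      obtain ⟨x, hx1, hx2, hx3⟩ := MP_f9aece_nt_h85.exists_factor (Sg v p0 Y i : Set ℕ) hn0
      have hd1 : x.1 ∣ n := Dvd.intro _ hx3
      have hd2 : x.2 ∣ n := Dvd.intro_left _ hx3
      have hx1R : x.1 ∈ Smo (Rst p0 (Yg v Y i)) := by
        refine ⟨hx1.1, ?_⟩
        intro p hp hpd
        refine N4.Rst_or hY hp (hn.2 p hp (hpd.trans hd1)) ?_
        intro hpS
        exact hx1.2 p hp hpd (Finset.mem_coe.2 hpS)
      have hx2D : x.2 ∈ D := by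
        rw [hD']
        exact ⟨hx2, (le_OmS hn0 hd2 hx2).trans hOm⟩
      have hx10 : (x.1 : ℝ) ≠ 0 := by exact_mod_cast hx1.1
      have hx20 : (x.2 : ℝ) ≠ 0 := by exact_mod_cast hx2.1
      have hlog : Real.log n = Real.log x.1 + Real.log x.2 := by
        rw [← hx3]
        push_cast
        exact Real.log_mul hx10 hx20
      have hl2 : 0 ≤ Real.log x.2 := Real.log_natCast_nonneg _
      have hx1T : x.1 ∈ T := by
        rw [hT, c5_mem]
        exact ⟨hx1R, by linarith⟩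
      have hGn : G.coeff n = u (Real.log x.1 / L) := by
        rw [← hx3, hG', c5_prod_eq T D _ huniq hx1T hx2D]
      have hnT : n ∈ c5_set p0 (Yg v Y (i + 1)) L := by
        rw [c5_mem]
        exact ⟨hn, hnL⟩
      rw [hQ, if_pos hnT, hGn]
      constructor
      · refine (rp_lip hτ _ _).trans ?_
        rw [← sub_div, hlog, add_sub_cancel_left, abs_div, abs_of_pos hL, abs_of_nonneg hl2,
          div_div, mul_comm L τ]
        exact div_le_div_of_nonneg_right (hlogb _ hx2D) (by positivity)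
      · intro hne
        by_contra h
        apply hne
        have h1 : u (Real.log n / L) = 0 := by
          by_contra h2
          exact h (hramp _ h2)
        have h2 : u (Real.log x.1 / L) = 0 := by
          by_contra h2
          have := hramp _ h2
          exact h (by linarith)
        rw [h1, h2, sub_zero]
    · have h1 : P.coeff n = 0 := by
        by_contra h
        exact hn (hP2 n h).1
      rw [h1, abs_zero]
      exact ⟨by positivity, fun h => absurd rfl h⟩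
  -- many prime factors
  have hC1 : ∀ n : ℕ, κ < OmS (Sg v p0 Y i) n → P.coeff n ≠ 0 → (1 - τ) * L < Real.log n := by
    intro n hOm hne
    have hGn : G.coeff n = 0 := by
      by_contra h
      obtain ⟨a, ha, b, hb, rfl⟩ := hG0 n h
      rw [hT, c5_mem] at ha
      rw [hD'] at hb
      have h2 := OmS_mul_le (S := Sg v p0 Y i) ha.1.1 hb.1.1 (by
        intro p hp hpa
        have hpp := N4.Sg_prime p hp
        exact hdisj p hpp (ha.1.2 p hpp hpa) (Finset.mem_coe.2 hp))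
      omega
    rw [hQ, hGn, sub_zero] at hne
    split_ifs at hne with h
    · exact hramp _ hne
    · exact absurd rfl hne
  refine ⟨MonoidAlgebra.ofCoeff (P.coeff.filter
      (fun n : ℕ => Real.log n ≤ L ∧ OmS (Sg v p0 Y i) n ≤ κ)),
    MonoidAlgebra.ofCoeff (P.coeff.filter (fun n : ℕ => L < Real.log n)),
    MonoidAlgebra.ofCoeff (P.coeff.filter
      (fun n : ℕ => Real.log n ≤ L ∧ κ < OmS (Sg v p0 Y i) n)), ?_, ?_⟩
  · apply MonoidAlgebra.coeff_injective
    ext n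
    rw [MonoidAlgebra.coeff_add, MonoidAlgebra.coeff_add, Finsupp.add_apply, Finsupp.add_apply,
      MonoidAlgebra.coeff_ofCoeff, MonoidAlgebra.coeff_ofCoeff, MonoidAlgebra.coeff_ofCoeff,
      Finsupp.filter_apply, Finsupp.filter_apply, Finsupp.filter_apply]
    by_cases h1 : L < Real.log n
    · rw [if_neg (by intro h; linarith [h.1]), if_pos h1, if_neg (by intro h; linarith [h.1])]
      ring
    · have h1' := not_lt.1 h1
      by_cases h2 : κ < OmS (Sg v p0 Y i) n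
      · rw [if_neg (by intro h; omega), if_neg h1, if_pos ⟨h1', h2⟩]
        ring
      · rw [if_pos ⟨h1', not_lt.1 h2⟩, if_neg h1, if_neg (by intro h; exact h2 h.2)]
        ring
  · intro n
    rw [MonoidAlgebra.coeff_ofCoeff, MonoidAlgebra.coeff_ofCoeff, MonoidAlgebra.coeff_ofCoeff,
      Finsupp.filter_apply, Finsupp.filter_apply, Finsupp.filter_apply]
    refine ⟨?_, ?_, ?_⟩
    · split_ifs with h
      · refine ⟨(hA1 n h.1 h.2).1, fun hne => ⟨(hP2 n hne).1, (hA1 n h.1 h.2).2 hne, h.1⟩⟩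
      · rw [abs_zero]
        exact ⟨by positivity, fun h => absurd rfl h⟩
    · split_ifs with h
      · exact ⟨hP1 n, fun hne => ⟨(hP2 n hne).1, h, (hP2 n hne).2⟩⟩
      · rw [abs_zero]
        exact ⟨zero_le_one, fun h => absurd rfl h⟩
    · split_ifs with h
      · exact ⟨hP1 n, fun hne => ⟨(hP2 n hne).1, hC1 n h.2 hne, h.1, h.2⟩⟩
      · rw [abs_zero]
        exact ⟨zero_le_one, fun h => absurd rfl h⟩

end Pool.Agent.Lib.PS
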