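import Pool.Agent.Lib.MP_f9aece_nt_ps.Defs

/-!
P6: the numerical inequalities.
-/

set_option autoImplicit false

namespace Pool.Agent.Lib.PS

open MeasureTheory Set Filter Topology Complex
open Pool.Agent.Lib.MP_f9aece_nt (DP pair BK K1 ev PP VV Smo expo)
open Pool.Agent.Lib.MP_f9aece_nt_h40 (ind)
open Pool.Agent.Lib.MP_f9aece_nt_h85 (Rst)
open Pool.Agent.Lib.J4 (En V2)
open Pool.Agent.Lib.N4 (OmS)
open Pool.Agent.Lib.MS (MVP Par RW TZ zr ZS un)

private lemma r06_quad {a b t : ℝ} (ha : 0 < a) : b * t - a * t ^ 2 ≤ b ^ 2 / (4 * a) := by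
  rw [le_div_iff₀ (by positivity)]
  nlinarith [sq_nonneg (b - 2 * a * t)]

private lemma r06_ac (q : ℕ) (hq : 1 ≤ q) {k y τ L P E : ℝ} (hk : 0 < k) (hkq : k ≤ q)
    (hy : 1 ≤ y) (hτ0 : 0 < τ) (hyL : y ≤ τ * L) (hτL : τ * L ≤ L) (hP : 0 < P) (hE : 0 < E) :
    (P * (E * (((L + y + 1) / (y + 1)) ^ (q - 1) * ((τ * L + y + 1) / (y + 1))))) ^ k
      * (y + 1) ^ (k ^ 2)
    ≤ Real.exp (k * (Real.log P + Real.log E + q * Real.log 3)
      + k * (q - k) * (Real.log (τ * L) - Real.log y)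
      + k * (k - q + 1) * Real.log τ + k ^ 2 * Real.log L) := by
  have hL : 0 < L := by linarith
  have hw : 0 < y + 1 := by linarith
  have hq1 : ((q - 1 : ℕ) : ℝ) = q - 1 := by rw [Nat.cast_sub hq]; simp
  have h1 : (L + y + 1) / (y + 1) ≤ 3 * L / (y + 1) := by gcongr; linarith
  have h2 : (τ * L + y + 1) / (y + 1) ≤ 3 * (τ * L) / (y + 1) := by gcongr; linarith
  have h10 : 0 ≤ (L + y + 1) / (y + 1) := by positivity
  have h20 : 0 ≤ (τ * L + y + 1) / (y + 1) := by positivity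
  have h3 : P * (E * (((L + y + 1) / (y + 1)) ^ (q - 1) * ((τ * L + y + 1) / (y + 1))))
      ≤ P * (E * ((3 * L / (y + 1)) ^ (q - 1) * (3 * (τ * L) / (y + 1)))) := by gcongr
  have h4 : P * (E * ((3 * L / (y + 1)) ^ (q - 1) * (3 * (τ * L) / (y + 1))))
      = Real.exp (Real.log P + (Real.log E + (((q : ℝ) - 1) * (Real.log 3 + Real.log L
        - Real.log (y + 1)) + (Real.log 3 + (Real.log τ + Real.log L) - Real.log (y + 1))))) := by
    rw [Real.exp_add, Real.exp_add, Real.exp_add, Real.exp_log hP, Real.exp_log hE, ← hq1,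
      Real.exp_nat_mul, Real.exp_sub, Real.exp_sub, Real.exp_add, Real.exp_add, Real.exp_add,
      Real.exp_log hL, Real.exp_log hw, Real.exp_log hτ0, Real.exp_log (by norm_num : (0 : ℝ) < 3)]
  have h5 : (P * (E * (((L + y + 1) / (y + 1)) ^ (q - 1) * ((τ * L + y + 1) / (y + 1))))) ^ k
      ≤ Real.exp ((Real.log P + (Real.log E + (((q : ℝ) - 1) * (Real.log 3 + Real.log L
        - Real.log (y + 1)) + (Real.log 3 + (Real.log τ + Real.log L) - Real.log (y + 1))))) * k) := by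
    rw [Real.exp_mul, ← h4]
    exact Real.rpow_le_rpow (by positivity) h3 hk.le
  rw [Real.rpow_def_of_pos hw]
  refine (mul_le_mul_of_nonneg_right h5 (Real.exp_pos _).le).trans ?_
  rw [← Real.exp_add, Real.exp_le_exp, Real.log_mul hτ0.ne' hL.ne']
  have h6 : Real.log y ≤ Real.log (y + 1) := Real.log_le_log (by linarith) (by linarith)
  have h7 : 0 ≤ k * (q - k) * (Real.log (y + 1) - Real.log y) :=
    mul_nonneg (mul_nonneg hk.le (by linarith)) (by linarith)
  linarith [h7]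

private lemma r06_b (q : ℕ) (hq : 1 ≤ q) {k y τ L κ E : ℝ} (hk : 0 < k) (hqk : (q : ℝ) - 1 < k)
    (hkq : k ≤ q) (hy : 1 ≤ y) (hτ0 : 0 < τ) (hyL : y ≤ τ * L) (hτL : τ * L ≤ L) (hκ : 1 ≤ κ)
    (hE : 0 < E) :
    (E * (((L + κ * y + y + 1) / (y + 1)) ^ (q - 1) * ((κ * y + y + 1) / (y + 1)))) ^ k
      * (y + 1) ^ (k ^ 2)
    ≤ Real.exp (k * (Real.log E + q * Real.log κ + q * Real.log 4)
      - k * (k - q + 1) * (Real.log (τ * L) - Real.log y)
      + k * (k - q + 1) * Real.log τ + k ^ 2 * Real.log L) := by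
  have hL : 0 < L := by linarith
  have hw : 0 < y + 1 := by linarith
  have hκ0 : 0 < κ := by linarith
  have hq1 : ((q - 1 : ℕ) : ℝ) = q - 1 := by rw [Nat.cast_sub hq]; simp
  have h1 : (L + κ * y + y + 1) / (y + 1) ≤ 4 * κ * L / (y + 1) := by
    have h11 : κ * y ≤ κ * L := by gcongr; linarith
    have h12 : L ≤ κ * L := by nlinarith
    gcongr
    linarith
  have h2 : (κ * y + y + 1) / (y + 1) ≤ 2 * κ := by
    rw [div_le_iff₀ hw]
    nlinarith
  have h10 : 0 ≤ (L + κ * y + y + 1) / (y + 1) := by positivity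
  have h20 : 0 ≤ (κ * y + y + 1) / (y + 1) := by positivity
  have h3 : E * (((L + κ * y + y + 1) / (y + 1)) ^ (q - 1) * ((κ * y + y + 1) / (y + 1)))
      ≤ E * ((4 * κ * L / (y + 1)) ^ (q - 1) * (2 * κ)) := by gcongr
  have h4 : E * ((4 * κ * L / (y + 1)) ^ (q - 1) * (2 * κ))
      = Real.exp (Real.log E + (((q : ℝ) - 1) * (Real.log 4 + Real.log κ + Real.log L
        - Real.log (y + 1)) + (Real.log 2 + Real.log κ))) := by
    rw [Real.exp_add, Real.exp_add, Real.exp_log hE, ← hq1,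
      Real.exp_nat_mul, Real.exp_sub, Real.exp_add, Real.exp_add, Real.exp_add,
      Real.exp_log hL, Real.exp_log hw, Real.exp_log hκ0,
      Real.exp_log (by norm_num : (0 : ℝ) < 4), Real.exp_log (by norm_num : (0 : ℝ) < 2)]
  have h5 : (E * (((L + κ * y + y + 1) / (y + 1)) ^ (q - 1) * ((κ * y + y + 1) / (y + 1)))) ^ k
      ≤ Real.exp ((Real.log E + (((q : ℝ) - 1) * (Real.log 4 + Real.log κ + Real.log L
        - Real.log (y + 1)) + (Real.log 2 + Real.log κ))) * k) := by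
    rw [Real.exp_mul, ← h4]
    exact Real.rpow_le_rpow (by positivity) h3 hk.le
  rw [Real.rpow_def_of_pos hw]
  refine (mul_le_mul_of_nonneg_right h5 (Real.exp_pos _).le).trans ?_
  rw [← Real.exp_add, Real.exp_le_exp, Real.log_mul hτ0.ne' hL.ne']
  have h6 : Real.log (y + 1) ≤ Real.log 2 + Real.log y := by
    rw [← Real.log_mul (by norm_num) (by linarith)]
    exact Real.log_le_log hw (by linarith)
  have h7 : 0 ≤ k * (k - q + 1) * (Real.log 2 + Real.log y - Real.log (y + 1)) :=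
    mul_nonneg (mul_nonneg hk.le (by linarith)) (by linarith)
  have h8 : Real.log 4 = 2 * Real.log 2 := by
    rw [show (4 : ℝ) = 2 ^ 2 by norm_num, Real.log_pow]; norm_num
  have h9 : 0 ≤ k * (q - k) * Real.log 2 :=
    mul_nonneg (mul_nonneg hk.le (by linarith)) (Real.log_nonneg (by norm_num))
  rw [h8]
  linarith [h7, h9]

private lemma r06_fin {k e τ L c : ℝ} {i : ℕ} (hτ0 : 0 < τ) (hL : 0 < L) {u C : ℝ}
    (hC : Real.exp c ≤ C) (hu : u ≤ c - i * Real.log 4) :
    Real.exp (u + k * e * Real.log τ + k ^ 2 * Real.log L)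
      ≤ C * ((1 / 4) ^ i * (τ ^ (k * e) * L ^ (k ^ 2))) := by
  have h1 : (1 / 4 : ℝ) ^ i = Real.exp (-(i * Real.log 4)) := by
    rw [Real.exp_neg, Real.exp_nat_mul, Real.exp_log (by norm_num), one_div, inv_pow]
  have h2 : τ ^ (k * e) = Real.exp (k * e * Real.log τ) := by
    rw [Real.rpow_def_of_pos hτ0]; congr 1; ring
  have h3 : L ^ (k ^ 2) = Real.exp (k ^ 2 * Real.log L) := by
    rw [Real.rpow_def_of_pos hL]; congr 1; ring
  calc Real.exp (u + k * e * Real.log τ + k ^ 2 * Real.log L)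
      ≤ Real.exp (c + (-(i * Real.log 4) + (k * e * Real.log τ + k ^ 2 * Real.log L))) := by
        rw [Real.exp_le_exp]; linarith
    _ = Real.exp c * ((1 / 4) ^ i * (τ ^ (k * e) * L ^ (k ^ 2))) := by
        rw [Real.exp_add, Real.exp_add, Real.exp_add, h1, h2, h3]
    _ ≤ C * ((1 / 4) ^ i * (τ ^ (k * e) * L ^ (k ^ 2))) := by gcongr

/-- Put `y = A.y i = τ L ρ`, `ρ = exp (-(v i (i+1) / 2))` (`J4.Yg`), `κ = A.κ i = 50000 q² v (i+1)²`,
`E = exp (4 q v (i+1))`. As `i < J` (`Jok` in `A.Ok`), `y > log 1000 > 6`, so `y + 1 ≤ 2 y`, `L + y + 1 ≤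
3 L`, `τ L + y + 1 ≤ 3 τ L`, `L + κ y + y + 1 ≤ 4 κ L`, `κ y + y + 1 ≤ 2 κ (y + 1)`.
(a) ≤ `C (κ² E)^k ρ^(k (k-q+2)) τ^(k (k-q+1)) L^(k²)`, (b) ≤ `C (κ^q E)^k (τ ρ)^(k (k-q+1)) L^(k²)`,
(c) ≤ `C (2^(-κ) E)^k ρ^(k (k-q)) τ^(k (k-q+1)) L^(k²)`; in each case the factor depending on `i` is at
most `C (1/4)^i` because `ρ` decays like `exp (-v i²/2)` (in (c) `2^(-κ)` beats `ρ^(-k)`); the constant
may depend on `q, k, v`. -/
theorem num : Num := by
  intro q k hq hk hqk hkq v hv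
  have hq1 : (1 : ℝ) ≤ q := by exact_mod_cast hq
  have hx4 : (4 : ℝ) ≤ v := by exact_mod_cast hv
  set x : ℝ := (v : ℝ) with hx
  set e : ℝ := k - q + 1 with he
  have he0 : 0 < e := by rw [he]; linarith
  have he1 : e ≤ 1 := by rw [he]; linarith
  set K0 : ℝ := 50000 * (q : ℝ) ^ 2 * x with hK0
  have hK0p : 1 ≤ K0 := by rw [hK0]; nlinarith [one_le_pow₀ hq1 (n := 2)]
  have hl3 : 0 ≤ Real.log 3 := Real.log_nonneg (by norm_num)
  have hl4 : 0 ≤ Real.log 4 := Real.log_nonneg (by norm_num)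
  have hlK : 0 ≤ Real.log K0 := Real.log_nonneg hK0p
  -- the constants
  set c1 : ℝ := k * (2 * Real.log K0 + 4 * q * x + q * Real.log 3)
    + (4 * k + 4 * k * q * x + Real.log 4) ^ 2 / (4 * (k * x / 2)) with hc1
  set c2 : ℝ := k * (4 * q * x + q * Real.log K0 + q * Real.log 4)
    + (4 * k * q * x + 2 * k * q + Real.log 4) ^ 2 / (4 * (k * e * x / 2)) with hc2
  set c3 : ℝ := k * q * Real.log 3 + Real.log 4 ^ 2 / (4 * (k * x)) with hc3
  have hc1' : 0 ≤ c1 := by rw [hc1]; positivity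
  have hc2' : 0 ≤ c2 := by rw [hc2]; positivity
  have hc3' : 0 ≤ c3 := by rw [hc3]; positivity
  refine ⟨Real.exp (c1 + c2 + c3), Real.one_le_exp (by linarith), ?_⟩
  intro A hAq hAv hA τ L hτ0 hτ1 hY i hi
  set I : ℝ := (i : ℝ) with hI
  have hI0 : 0 ≤ I := by rw [hI]; positivity
  have hκ : (A.κ i : ℝ) = K0 * (I + 1) ^ 2 := by
    simp only [Par.κ, Par.r, hAq, hAv]
    push_cast
    simp only [hK0, hx, hI]; ring
  have hyi : A.y i = τ * L * Real.exp (-(x * I * (I + 1) / 2)) := by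
    simp only [Par.y, J4.Yg, hY, hAv, hx, hI]
  have hy6 : 1 ≤ A.y i := by
    have h1 := hA.hJ.2 i hi
    have h2 : (1 : ℝ) ≤ Real.log A.p0 := by
      have h3 : (1000 : ℝ) ≤ A.p0 := by exact_mod_cast hA.hp
      rw [Real.le_log_iff_exp_le (by linarith)]
      have := Real.exp_one_lt_d9
      linarith
    have h3 : A.y i = J4.Yg A.v A.Y i := rfl
    linarith
  have hTL : 0 < τ * L := by
    have h1 := hA.hY
    rwa [hY] at h1
  have hL : 0 < L := (mul_pos_iff_of_pos_left hτ0).1 hTL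
  have hτL : τ * L ≤ L := mul_le_of_le_one_left hL.le hτ1
  have hyL : A.y i ≤ τ * L := by
    rw [hyi]
    have h1 : Real.exp (-(x * I * (I + 1) / 2)) ≤ 1 := by
      rw [Real.exp_le_one_iff]
      have : 0 ≤ x * I * (I + 1) / 2 := by positivity
      linarith
    exact mul_le_of_le_one_right hTL.le h1
  have hδ : Real.log (τ * L) - Real.log (A.y i) = x * I * (I + 1) / 2 := by
    rw [hyi, Real.log_mul hTL.ne' (Real.exp_pos _).ne', Real.log_exp]
    ring
  have hI1 : Real.log (I + 1) ≤ I := by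
    have := Real.log_le_sub_one_of_pos (by linarith : 0 < I + 1)
    linarith
  have hI10 : 0 ≤ Real.log (I + 1) := Real.log_nonneg (by linarith)
  have hκ0 : (0 : ℝ) < A.κ i := by rw [hκ]; positivity
  have hκ1 : (1 : ℝ) ≤ A.κ i := by
    rw [hκ]
    have : 1 ≤ (I + 1) ^ 2 := one_le_pow₀ (by linarith)
    exact one_le_mul_of_one_le_of_one_le hK0p this
  have hlκ : Real.log (A.κ i) ≤ Real.log K0 + 2 * I := by
    rw [hκ, Real.log_mul (by positivity) (by positivity), Real.log_pow]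
    push_cast
    linarith
  set y : ℝ := A.y i with hydef
  have hE : Real.log (Real.exp (4 * q * x * (I + 1))) = 4 * q * x * (I + 1) := Real.log_exp _
  have hkx : 0 < k * x := by positivity
  refine ⟨?_, ?_, ?_⟩
  · have hP : 0 < ((A.κ i : ℝ) * y / (τ * L)) ^ 2 := by positivity
    refine (r06_ac q hq hk hkq hy6 hτ0 hyL hτL hP (Real.exp_pos (4 * q * x * (I + 1)))).trans ?_
    refine r06_fin (c := c1) hτ0 hL (Real.exp_le_exp.2 (by linarith)) ?_
    rw [hE, hδ]
    have h1 : Real.log (((A.κ i : ℝ) * y / (τ * L)) ^ 2)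
        = 2 * (Real.log (A.κ i) - x * I * (I + 1) / 2) := by
      rw [Real.log_pow, Real.log_div (by positivity) hTL.ne', Real.log_mul hκ0.ne' (by positivity),
        ← hδ]
      push_cast
      ring
    rw [h1]
    have h2 := r06_quad (a := k * x / 2) (b := 4 * k + 4 * k * q * x + Real.log 4) (t := I)
      (by positivity)
    have h3 : k * (2 * Real.log (A.κ i)) ≤ k * (2 * (Real.log K0 + 2 * I)) := by gcongr
    have h4 : 0 ≤ k * e * (x * I * (I + 1) / 2) := by positivity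
    have h5 : 0 ≤ k * x * I := by positivity
    have h6 : k * (q - k) * (x * I * (I + 1) / 2)
        = k * (x * I * (I + 1) / 2) - k * e * (x * I * (I + 1) / 2) := by rw [he]; ring
    rw [h6]
    linarith [h2, h3, h4, h5]
  · refine (r06_b q hq hk hqk hkq hy6 hτ0 hyL hτL hκ1 (Real.exp_pos (4 * q * x * (I + 1)))).trans ?_
    refine r06_fin (c := c2) hτ0 hL (Real.exp_le_exp.2 (by linarith)) ?_
    rw [hE, hδ, ← he]
    have h2 := r06_quad (a := k * e * x / 2) (b := 4 * k * q * x + 2 * k * q + Real.log 4) (t := I)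
      (by positivity)
    have h3 : k * (q * Real.log (A.κ i)) ≤ k * (q * (Real.log K0 + 2 * I)) := by gcongr
    have h5 : 0 ≤ k * e * x * I := by positivity
    linarith [h2, h3, h5]
  · have hP : (0 : ℝ) < (1 / 2) ^ A.κ i := by positivity
    refine (r06_ac q hq hk hkq hy6 hτ0 hyL hτL hP (Real.exp_pos (4 * q * x * (I + 1)))).trans ?_
    refine r06_fin (c := c3) hτ0 hL (Real.exp_le_exp.2 (by linarith)) ?_
    rw [hE, hδ]
    have h1 : Real.log ((1 / 2 : ℝ) ^ A.κ i) = -(K0 * (I + 1) ^ 2 * Real.log 2) := by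
      rw [Real.log_pow, hκ, one_div, Real.log_inv]
      ring
    rw [h1]
    have h2 := r06_quad (a := k * x) (b := Real.log 4) (t := I) hkx
    have hl2 : (0.69 : ℝ) < Real.log 2 := by linarith [Real.log_two_gt_d9]
    have hq2 : (q : ℝ) ≤ q ^ 2 := le_self_pow₀ hq1 (by norm_num)
    have hkxq : k * x ≤ k * x * q := le_mul_of_one_le_right hkx.le hq1
    have hkxq2 : k * x * q ≤ k * x * q ^ 2 := by gcongr
    have hII : I + 1 ≤ (I + 1) ^ 2 := le_self_pow₀ (by linarith) (by norm_num)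
    have h3 : 30000 * (k * x * q ^ 2) * (I + 1) ^ 2 ≤ k * (K0 * (I + 1) ^ 2 * Real.log 2) := by
      have h4 : k * (K0 * (I + 1) ^ 2 * Real.log 2)
          = 50000 * (k * x * q ^ 2 * (I + 1) ^ 2) * Real.log 2 := by rw [hK0]; ring
      rw [h4]
      have h5 : 0 ≤ k * x * q ^ 2 * (I + 1) ^ 2 := by positivity
      have h6 : k * x * q ^ 2 * (I + 1) ^ 2 * 30000
          ≤ k * x * q ^ 2 * (I + 1) ^ 2 * (50000 * Real.log 2) :=
        mul_le_mul_of_nonneg_left (by linarith) h5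
      linarith
    have h4 : 4 * (k * x * q) * (I + 1) ≤ 4 * (k * x * q ^ 2) * (I + 1) ^ 2 := by gcongr
    have h5 : k * (q - k) * (x * I * (I + 1) / 2) ≤ k * x * q ^ 2 * (I + 1) ^ 2 := by
      have h6 : k * (q - k) * (x * I * (I + 1) / 2) ≤ k * 1 * (x * (I + 1) * (I + 1) / 2) := by
        gcongr
        · rw [he] at he0; linarith
        · linarith
      have h7 : k * 1 * (x * (I + 1) * (I + 1) / 2) ≤ k * x * (I + 1) ^ 2 := by
        have h9 : 0 ≤ k * x * (I + 1) ^ 2 := by positivity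
        have h10 : k * 1 * (x * (I + 1) * (I + 1) / 2) = k * x * (I + 1) ^ 2 / 2 := by ring
        linarith
      have h8 : k * x * (I + 1) ^ 2 ≤ k * x * q ^ 2 * (I + 1) ^ 2 :=
        mul_le_mul_of_nonneg_right (by linarith) (by positivity)
      linarith
    have h6 : k * x * I ^ 2 ≤ k * x * q ^ 2 * (I + 1) ^ 2 := by
      have h7 : I ^ 2 ≤ (I + 1) ^ 2 := pow_le_pow_left₀ hI0 (by linarith) 2
      have h8 : k * x ≤ k * x * q ^ 2 := by linarith
      gcongr
    have h7 : 0 ≤ k * x * q ^ 2 * (I + 1) ^ 2 := by positivity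
    linarith [h2, h3, h4, h5, h6, h7]

end Pool.Agent.Lib.PS
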