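import Pool.Agent.Lib.MP_f9aece_nt_ps.Defs
import Pool.Agent.Lib.MP_f9aece_nt_ms.Q8Level
import Pool.Agent.Lib.MP_f9aece_nt_ms.Q9Mert
import Pool.Agent.Lib.MP_f9aece_nt_j4.GroupsH
import Pool.Agent.Lib.MP_f9aece_nt_n4.A2
import Pool.Agent.Lib.MP_f9aece_nt_j4.EnNorm

/-!
P7: one window.
-/

set_option autoImplicit false

namespace Pool.Agent.Lib.PS

open MeasureTheory Set Filter Topology Complex
open Pool.Agent.Lib.MP_f9aece_nt (DP pair BK K1 ev PP VV Smo expo)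
open Pool.Agent.Lib.MP_f9aece_nt_h40 (ind)
open Pool.Agent.Lib.MP_f9aece_nt_h85 (Rst)
open Pool.Agent.Lib.J4 (En V2)
open Pool.Agent.Lib.N4 (OmS)
open Pool.Agent.Lib.MS (MVP Par RW TZ zr ZS un)

private lemma R07_add (p : ℝ) (hp : 0 < p) {a b : ℝ} (ha : 0 ≤ a) (hb : 0 ≤ b) :
    (a + b) ^ p ≤ (2 : ℝ) ^ p * (a ^ p + b ^ p) := by
  have h2 : (0 : ℝ) ≤ 2 ^ p := Real.rpow_nonneg (by norm_num) _
  have h3 : 0 ≤ a ^ p := Real.rpow_nonneg ha _
  have h4 : 0 ≤ b ^ p := Real.rpow_nonneg hb _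
  rcases le_total a b with h | h
  · calc (a + b) ^ p ≤ (2 * b) ^ p := Real.rpow_le_rpow (by linarith) (by linarith) hp.le
      _ = 2 ^ p * b ^ p := Real.mul_rpow (by norm_num) hb
      _ ≤ 2 ^ p * (a ^ p + b ^ p) := mul_le_mul_of_nonneg_left (by linarith) h2
  · calc (a + b) ^ p ≤ (2 * a) ^ p := Real.rpow_le_rpow (by linarith) (by linarith) hp.le
      _ = 2 ^ p * a ^ p := Real.mul_rpow (by norm_num) ha
      _ ≤ 2 ^ p * (a ^ p + b ^ p) := mul_le_mul_of_nonneg_left (by linarith) h2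

private lemma R07_norm (P : DP) (t : ℝ) : ‖ev t P‖ ≤ ∑ a ∈ P.coeff.support, |P.coeff a| := by
  rw [MP_f9aece_nt.ev_apply]
  refine (norm_sum_le _ _).trans (Finset.sum_le_sum fun a _ => ?_)
  rw [norm_mul, Complex.norm_real, Real.norm_eq_abs]
  refine mul_le_of_le_one_right (abs_nonneg _) ?_
  rcases Nat.eq_zero_or_pos a with h | h
  · subst h
    rw [Nat.cast_zero, Complex.zero_cpow, norm_zero]
    · norm_num
    · intro h0
      have := congrArg Complex.re h0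
      simp at this
  · rw [Complex.norm_natCast_cpow_of_pos h]
    have h1 : (1 : ℝ) ≤ a := by exact_mod_cast h
    refine Real.rpow_le_one_of_one_le_of_nonpos h1 ?_
    simp

private lemma R07_int {ν : Measure ℝ} [IsProbabilityMeasure ν] (P : DP) {p : ℝ} (hp : 0 < p) :
    Integrable (fun t => ‖ev t P‖ ^ p) ν := by
  have hc : Continuous fun t : ℝ => ‖ev t P‖ ^ p :=
    (MP_f9aece_nt.continuous_ev P).norm.rpow_const fun _ => Or.inr hp.le
  refine Integrable.of_bound hc.aestronglyMeasurable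
    ((∑ a ∈ P.coeff.support, |P.coeff a|) ^ p) (Eventually.of_forall fun t => ?_)
  rw [Real.norm_eq_abs, abs_of_nonneg (Real.rpow_nonneg (norm_nonneg _) _)]
  exact Real.rpow_le_rpow (norm_nonneg _) (R07_norm P t) hp.le

/-- the integral of the power of a sum of three polynomials -/
private lemma R07_sum {ν : Measure ℝ} [IsProbabilityMeasure ν] {p : ℝ} (hp : 0 < p)
    (P Q R : DP) :
    ∫ t, ‖ev t (P + Q + R)‖ ^ p ∂ν ≤ ((2 : ℝ) ^ p * 2 ^ p) *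
      (∫ t, ‖ev t P‖ ^ p ∂ν + ∫ t, ‖ev t Q‖ ^ p ∂ν + ∫ t, ‖ev t R‖ ^ p ∂ν) := by
  have i1 := R07_int (ν := ν) P hp
  have i2 := R07_int (ν := ν) Q hp
  have i3 := R07_int (ν := ν) R hp
  have h2 : (1 : ℝ) ≤ 2 ^ p := Real.one_le_rpow (by norm_num) hp.le
  have h1 : ∫ t, ‖ev t (P + Q + R)‖ ^ p ∂ν ≤
      ∫ t, ((2 : ℝ) ^ p * 2 ^ p) * ((‖ev t P‖ ^ p + ‖ev t Q‖ ^ p) + ‖ev t R‖ ^ p) ∂ν := by
    refine integral_mono (R07_int _ hp) (((i1.add i2).add i3).const_mul _) fun t => ?_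
    dsimp only
    rw [map_add, map_add]
    have a1 : 0 ≤ ‖ev t P‖ ^ p := Real.rpow_nonneg (norm_nonneg _) _
    have a2 : 0 ≤ ‖ev t Q‖ ^ p := Real.rpow_nonneg (norm_nonneg _) _
    have a3 : 0 ≤ ‖ev t R‖ ^ p := Real.rpow_nonneg (norm_nonneg _) _
    calc ‖ev t P + ev t Q + ev t R‖ ^ p
        ≤ ((‖ev t P‖ + ‖ev t Q‖) + ‖ev t R‖) ^ p :=
          Real.rpow_le_rpow (norm_nonneg _) (norm_add₃_le) hp.le
      _ ≤ 2 ^ p * ((‖ev t P‖ + ‖ev t Q‖) ^ p + ‖ev t R‖ ^ p) :=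
          R07_add p hp (by positivity) (norm_nonneg _)
      _ ≤ 2 ^ p * (2 ^ p * (‖ev t P‖ ^ p + ‖ev t Q‖ ^ p) + 2 ^ p * ‖ev t R‖ ^ p) := by
          refine mul_le_mul_of_nonneg_left (add_le_add
            (R07_add p hp (norm_nonneg _) (norm_nonneg _)) ?_) (by linarith)
          exact le_mul_of_one_le_left a3 h2
      _ = ((2 : ℝ) ^ p * 2 ^ p) * ((‖ev t P‖ ^ p + ‖ev t Q‖ ^ p) + ‖ev t R‖ ^ p) := by ring
  refine h1.trans (le_of_eq ?_)
  rw [integral_const_mul]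
  congr 1
  have i4 : Integrable (fun t => ‖ev t P‖ ^ p + ‖ev t Q‖ ^ p) ν := i1.add i2
  rw [integral_add i4 i3, integral_add i1 i2]

/-- `v0` from `hVV` (`VV (Sg v p0 Y g) ≤ 2 v (g+1)`), at least 4. Split by `QSplit`, `‖z1 + z2 + z3‖^(2k) ≤
9^k ∑ ‖zj‖^(2k)` up to a constant, then `Level` at `i + 1` for each part, with `N = exp (L + κ_i y_i)`:
`∫ ≤ C En (F ^ q) ^ (k/q) exp (k² V_(i+1))`, `V_(i+1) ≤ log (y_(i+1) + 1) + C` (`hM`), `y_(i+1) ≤ y_i`.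
`WinPow` with `y' = y_(i+1)`, `y = y_i`, `S = A.S i`: for `Fa` `a = κ y/(τ L)`, window `((1-τ) L, L]`,
`κ = 0`; for `Fb` `a = 1`, window `(L, L + κ y]`, `κ = 0`; for `Fc` `a = 1`, window `((1-τ) L, L]`, `κ =
A.κ i`. `(a^(2q) D^q)^(k/q) = (a² D)^k`, then `Num`. -/
theorem piece (hL : MS.Level) (hM : MS.Mert) (hVV : J4.VVSg) (h4 : WinPow) (h5 : QSplit) (h6 : Num) : Piece := by
  intro q k hq hk hqk hkq
  obtain ⟨C1, hC1, hL⟩ := hL q hq
  obtain ⟨C2, hC2, hW⟩ := h4 q 1000 hq le_rfl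
  obtain ⟨C3, hC3, hM⟩ := hM
  obtain ⟨v1, hVV⟩ := hVV
  refine ⟨max v1 4, fun v hv => ?_⟩
  have hv1 : v1 ≤ v := (le_max_left _ _).trans hv
  have hv4 : 4 ≤ v := (le_max_right _ _).trans hv
  obtain ⟨C6, hC6, hN⟩ := h6 q k hq hk hqk hkq v hv4
  have hq0 : (0 : ℝ) < q := by exact_mod_cast hq
  have hkq0 : 0 < k / q := div_pos hk hq0
  have h2k : 0 < 2 * k := by linarith
  have hC2k : 1 ≤ C2 ^ (k / q) := Real.one_le_rpow hC2 hkq0.le
  have hE3 : 1 ≤ Real.exp (k ^ 2 * C3) := Real.one_le_exp (by positivity)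
  have hD1 : (1 : ℝ) ≤ 2 ^ (2 * k) := Real.one_le_rpow (by norm_num) h2k.le
  set K0 : ℝ := C1 * C2 ^ (k / q) * Real.exp (k ^ 2 * C3) with hK0
  have hK01 : 1 ≤ K0 := one_le_mul_of_one_le_of_one_le
    (one_le_mul_of_one_le_of_one_le hC1 hC2k) hE3
  refine ⟨((2 : ℝ) ^ (2 * k) * 2 ^ (2 * k)) * (3 * (K0 * C6)), ?_, ?_⟩
  · refine one_le_mul_of_one_le_of_one_le (one_le_mul_of_one_le_of_one_le hD1 hD1)
      (one_le_mul_of_one_le_of_one_le (by norm_num)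
        (one_le_mul_of_one_le_of_one_le hK01 hC6))
  intro A hAq hAv hAp hA τ L hτ hτ1 hY X η ν hν hη i hi hX
  have hprob : IsProbabilityMeasure ν := hν.prob
  have hY0 : 0 < A.Y := hA.hY
  have hL0 : 0 < L := by
    rw [hY] at hY0
    by_contra hneg
    push Not at hneg
    exact absurd hY0 (not_lt.2 (mul_nonpos_of_nonneg_of_nonpos hτ.le hneg))
  have hτL : 0 < τ * L := mul_pos hτ hL0
  have hy' : 0 < A.y (i + 1) := N4.Yg_pos' hY0 (i + 1)
  have hyy : A.y (i + 1) ≤ A.y i := N4.Yg_succ_le' hY0 i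
  have hy : 0 < A.y i := N4.Yg_pos' hY0 i
  have hκ0 : (0 : ℝ) ≤ A.κ i := Nat.cast_nonneg _
  have hκy : 0 ≤ (A.κ i : ℝ) * A.y i := mul_nonneg hκ0 hy.le
  have hgrp : Grp 1000 (A.y (i + 1)) (A.y i) (A.S i) := by
    intro p
    rw [← hAp]
    exact N4.mem_Sg hY0
  have hVVi : VV (A.S i) ≤ 2 * ((v : ℝ) * (i + 1)) := by
    have h1 := hVV v hv1 A.p0 A.Y i hY0
    have h2 : A.S i = J4.Sg v A.p0 A.Y i := by
      unfold Par.S
      rw [hAv]
    rw [h2]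
    refine h1.trans (le_of_eq ?_)
    unfold J4.rg
    push_cast
    ring
  have hexp : Real.exp (2 * q * VV (A.S i)) ≤ Real.exp (4 * q * v * (i + 1)) := by
    apply Real.exp_le_exp.2
    have s1 : (0 : ℝ) ≤ 2 * (q : ℝ) := by positivity
    have s2 := mul_le_mul_of_nonneg_left hVVi s1
    linarith
  have hexV : Real.exp (k ^ 2 * A.V (i + 1))
      ≤ Real.exp (k ^ 2 * C3) * (A.y i + 1) ^ (k ^ 2) := by
    have h6 := hM A hA (i + 1)
    have hy1 : 0 < A.y i + 1 := by linarith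
    have h8 : Real.log (A.y (i + 1) + 1) ≤ Real.log (A.y i + 1) :=
      Real.log_le_log (by linarith) (by linarith)
    rw [Real.rpow_def_of_pos hy1, ← Real.exp_add]
    apply Real.exp_le_exp.2
    have h7 : 0 ≤ k ^ 2 := sq_nonneg k
    have h9 : A.V (i + 1) ≤ Real.log (A.y i + 1) + C3 := by linarith
    have h10 := mul_le_mul_of_nonneg_left h9 h7
    linarith
  -- one part
  have part : ∀ (F : DP) (a x x' : ℝ) (κ : ℕ) (R : ℝ), 0 ≤ a → x ≤ x' → 0 ≤ x' →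
      x' ≤ L + A.κ i * A.y i → (∀ n, |F.coeff n| ≤ a ∧ (F.coeff n ≠ 0 →
        n ∈ Smo (Rst 1000 (A.y (i + 1))) ∧ x < Real.log n ∧ Real.log n ≤ x' ∧
          κ ≤ OmS (A.S i) n)) →
      (a ^ 2 * ((1 / 2) ^ κ * (Real.exp (4 * q * v * (i + 1))
        * (((x' + A.y i + 1) / (A.y i + 1)) ^ (q - 1)
          * ((x' - x + A.y i + 1) / (A.y i + 1)))))) ^ k * (A.y i + 1) ^ (k ^ 2) ≤ R →
      ∫ t, ‖ev t (F * A.EI (i + 1))‖ ^ (2 * k) ∂ν ≤ K0 * R := by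
    intro F a x x' κ R ha hxx hx' hxL hF hR
    have h1 := hL A hAq hA k hk hqk.le hkq (i + 1) hi X (Real.exp (L + A.κ i * A.y i)) η ν hν hη
      (Real.exp_pos _).le (by
        rw [← Real.exp_nat_mul, ← Real.exp_add]
        exact hX) F (fun n hn0 => by
        obtain ⟨h3, h4, h5, -⟩ := (hF n).2 hn0
        refine ⟨by rw [hAp]; exact h3, ?_⟩
        have hn1 : (0 : ℝ) < n := by exact_mod_cast Nat.pos_of_ne_zero h3.1
        rw [← Real.log_le_iff_le_exp hn1]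
        exact h5.trans hxL)
    have h2 := hW (A.y i) (A.y (i + 1)) x x' a hy'.le hyy hxx hx' ha (A.S i) hgrp κ F hF
    set P : ℝ := ((x' + A.y i + 1) / (A.y i + 1)) ^ (q - 1)
      * ((x' - x + A.y i + 1) / (A.y i + 1)) with hP
    have hP0 : 0 ≤ P := by
      have s1 : 0 ≤ x' - x := by linarith
      positivity
    set D : ℝ := (1 / 2) ^ κ * (Real.exp (4 * q * v * (i + 1)) * P) with hD
    have hD0 : 0 ≤ D := by positivity
    have h3 : En (F ^ q) ≤ C2 * (a ^ 2 * D) ^ q := by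
      refine h2.trans (mul_le_mul_of_nonneg_left ?_ (by linarith))
      have s2 : (a ^ 2 * D) ^ q = a ^ (2 * q) * D ^ q := by rw [mul_pow, ← pow_mul]
      rw [s2]
      have s0 : 0 ≤ (1 / 2 : ℝ) ^ κ * (Real.exp (2 * q * VV (A.S i)) * P) := by positivity
      have s1 : (1 / 2 : ℝ) ^ κ * (Real.exp (2 * q * VV (A.S i)) * P) ≤ D :=
        mul_le_mul_of_nonneg_left (mul_le_mul_of_nonneg_right hexp hP0) (by positivity)
      exact mul_le_mul_of_nonneg_left (pow_le_pow_left₀ s0 s1 q) (by positivity)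
    have h4 : En (F ^ q) ^ (k / q) ≤ C2 ^ (k / q) * (a ^ 2 * D) ^ k := by
      have s1 : 0 ≤ a ^ 2 * D := by positivity
      have s2 : ((a ^ 2 * D) ^ q) ^ (k / q) = (a ^ 2 * D) ^ k := by
        have s3 : (q : ℝ) * (k / q) = k := by field_simp
        rw [← Real.rpow_natCast, ← Real.rpow_mul s1, s3]
      rw [← s2, ← Real.mul_rpow (by linarith) (pow_nonneg s1 q)]
      exact Real.rpow_le_rpow (J4.H24.En_nonneg24 _) h3 hkq0.le
    have hyk : 0 ≤ (A.y i + 1) ^ (k ^ 2) := Real.rpow_nonneg (by linarith) _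
    have hDk : 0 ≤ (a ^ 2 * D) ^ k := Real.rpow_nonneg (by positivity) _
    calc ∫ t, ‖ev t (F * A.EI (i + 1))‖ ^ (2 * k) ∂ν
        ≤ C1 * En (F ^ q) ^ (k / q) * Real.exp (k ^ 2 * A.V (i + 1)) := h1
      _ ≤ C1 * (C2 ^ (k / q) * (a ^ 2 * D) ^ k)
          * (Real.exp (k ^ 2 * C3) * (A.y i + 1) ^ (k ^ 2)) := by
          refine mul_le_mul (mul_le_mul_of_nonneg_left h4 (by linarith)) hexV
            (Real.exp_pos _).le (by positivity)
      _ = K0 * ((a ^ 2 * D) ^ k * (A.y i + 1) ^ (k ^ 2)) := by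
          rw [hK0]
          ring
      _ ≤ K0 * R := mul_le_mul_of_nonneg_left hR (by linarith)
  -- the three parts
  obtain ⟨Fa, Fb, Fc, hsum, hF⟩ := h5 A hA τ L hτ hτ1 hL0 i hi
  obtain ⟨n1, n2, n3⟩ := hN A hAq hAv hA τ L hτ hτ1 hY i hi
  set T : ℝ := (1 / 4) ^ i * (τ ^ (k * (k - q + 1)) * L ^ (k ^ 2)) with hT
  have hxx : (1 - τ) * L ≤ L := by nlinarith
  have pa := part Fa (A.κ i * A.y i / (τ * L)) ((1 - τ) * L) L 0 (C6 * T)
    (div_nonneg hκy hτL.le) hxx hL0.le (by linarith) (fun n => by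
      obtain ⟨⟨c1, c2⟩, -, -⟩ := hF n
      refine ⟨c1, fun h0 => ?_⟩
      obtain ⟨c3, c4, c5⟩ := c2 h0
      rw [hAp] at c3
      exact ⟨c3, c4, c5, Nat.zero_le _⟩) (by
      refine le_trans (le_of_eq ?_) n1
      congr 2
      rw [pow_zero, one_mul]
      ring_nf)
  have pb := part Fb 1 L (L + A.κ i * A.y i) 0 (C6 * T) zero_le_one (by linarith) (by linarith)
    le_rfl (fun n => by
      obtain ⟨-, ⟨c1, c2⟩, -⟩ := hF n
      refine ⟨c1, fun h0 => ?_⟩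
      obtain ⟨c3, c4, c5⟩ := c2 h0
      rw [hAp] at c3
      exact ⟨c3, c4, c5, Nat.zero_le _⟩) (by
      refine le_trans (le_of_eq ?_) n2
      congr 2
      rw [pow_zero, one_mul, one_pow, one_mul]
      ring_nf)
  have pc := part Fc 1 ((1 - τ) * L) L (A.κ i) (C6 * T) zero_le_one hxx hL0.le (by linarith)
    (fun n => by
      obtain ⟨-, -, ⟨c1, c2⟩⟩ := hF n
      refine ⟨c1, fun h0 => ?_⟩
      obtain ⟨c3, c4, c5, c6⟩ := c2 h0
      rw [hAp] at c3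
      exact ⟨c3, c4, c5, c6.le⟩) (by
      refine le_trans (le_of_eq ?_) n3
      congr 2
      rw [one_pow, one_mul]
      ring_nf)
  have hsplit : A.QW (rp τ) L i * A.EI (i + 1) =
      Fa * A.EI (i + 1) + Fb * A.EI (i + 1) + Fc * A.EI (i + 1) := by
    rw [hsum]
    ring
  rw [hsplit]
  refine (R07_sum h2k _ _ _).trans ?_
  have hDD : (0 : ℝ) ≤ 2 ^ (2 * k) * 2 ^ (2 * k) := by positivity
  calc ((2 : ℝ) ^ (2 * k) * 2 ^ (2 * k)) * (∫ t, ‖ev t (Fa * A.EI (i + 1))‖ ^ (2 * k) ∂ν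
        + ∫ t, ‖ev t (Fb * A.EI (i + 1))‖ ^ (2 * k) ∂ν
        + ∫ t, ‖ev t (Fc * A.EI (i + 1))‖ ^ (2 * k) ∂ν)
      ≤ ((2 : ℝ) ^ (2 * k) * 2 ^ (2 * k)) * (K0 * (C6 * T) + K0 * (C6 * T) + K0 * (C6 * T)) :=
        mul_le_mul_of_nonneg_left (add_le_add (add_le_add pa pb) pc) hDD
    _ = ((2 : ℝ) ^ (2 * k) * 2 ^ (2 * k)) * (3 * (K0 * C6)) * T := by ring

end Pool.Agent.Lib.PS
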