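import Pool.Agent.Lib.MP_f9aece_nt_ps.Defs
import Pool.Agent.Lib.MP_f9aece_nt_ms.Q8Level
import Pool.Agent.Lib.MP_f9aece_nt_ms.Q9Mert

/-!
P8: the head.
-/

set_option autoImplicit false

namespace Pool.Agent.Lib.PS

open MeasureTheory Set Filter Topology Complex
open Pool.Agent.Lib.MP_f9aece_nt (DP pair BK K1 ev PP VV Smo expo)
open Pool.Agent.Lib.MP_f9aece_nt_h40 (ind)
open Pool.Agent.Lib.MP_f9aece_nt_h85 (Rst)
open Pool.Agent.Lib.J4 (En V2)
open Pool.Agent.Lib.N4 (OmS)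
open Pool.Agent.Lib.MS (MVP Par RW TZ zr ZS un)

private lemma R08_rp (τ x : ℝ) : |rp τ x| ≤ 1 := by
  unfold rp
  rw [abs_of_nonneg (le_max_left _ _)]
  exact max_le (by norm_num) (min_le_left _ _)

private lemma R08_rp_pos {τ x : ℝ} (hτ : 0 < τ) (h : rp τ x ≠ 0) : 1 - τ < x := by
  by_contra hx
  push Not at hx
  apply h
  unfold rp
  apply max_eq_left
  refine (min_le_right _ _).trans ?_
  apply div_nonpos_of_nonpos_of_nonneg _ hτ.le
  linarith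

private lemma R08_coeff {u : ℝ → ℝ} (hu : ∀ x, |u x| ≤ 1) {p0 : ℕ} {y L : ℝ} (hL : 0 < L) (n : ℕ) :
    |(RW u p0 y L).coeff n| ≤ 1 ∧ ((RW u p0 y L).coeff n ≠ 0 →
      n ∈ Smo (Rst p0 y) ∧ 1 ≤ n ∧ (n : ℝ) ≤ Real.exp L ∧ u (Real.log n / L) ≠ 0) := by
  classical
  have h1 : (RW u p0 y L).coeff n =
      if n ∈ (Finset.Icc 1 ⌊Real.exp L⌋₊).filter (fun n => n ∈ Smo (Rst p0 y)) then
        u (Real.log n / L) else 0 := by
    unfold RW
    rw [MP_f9aece_nt_h97.coeff_eq_pair, MP_f9aece_nt.pair_sum]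
    simp only [MP_f9aece_nt.pair_single, mul_ite, mul_one, mul_zero]
    rw [Finset.sum_ite_eq']
  rw [h1]
  split_ifs with h
  · rw [Finset.mem_filter, Finset.mem_Icc] at h
    refine ⟨hu _, fun h2 => ⟨h.2, h.1.1, ?_, h2⟩⟩
    exact (Nat.le_floor_iff (Real.exp_pos L).le).1 h.1.2
  · exact ⟨by simp, fun h2 => absurd rfl h2⟩

/-- `Level` at `i = 0` with `N = exp L` (`A.y 0 = A.Y`), `Mert`, and `WinPow` with `y' = y = Y`, `S = ∅`,
`κ = 0`, `a = 1`, window `((1-τ) L, L]`: the coefficient of `RW (rp τ) p0 Y L` is `rp τ (log n / L)`,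
nonzero only if `log n > (1 - τ) L`. `(L + Y + 1)/(Y + 1) ≤ 3/τ`, `(τ L + Y + 1)/(Y + 1) ≤ 2`, `Y + 1 ≤ 2 τ
L`. -/
theorem head (hL : MS.Level) (hM : MS.Mert) (h4 : WinPow) : Head := by
  intro q k hq hk hqk hkq
  obtain ⟨C₁, hC₁, h1⟩ := hL q hq
  obtain ⟨C₂, hC₂, h2⟩ := hM
  obtain ⟨C₃, hC₃, h3⟩ := h4 q 1000 hq le_rfl
  have hq0 : (0 : ℝ) < q := by exact_mod_cast hq
  have hq1 : (1 : ℝ) ≤ q := by exact_mod_cast hq
  refine ⟨C₁ * (C₃ ^ (k / q) * (3 ^ ((q - 1 : ℕ) * k) * 2 ^ k)) * (2 ^ (k ^ 2) * Real.exp (k ^ 2 * C₂)), ?_, ?_⟩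
  · have e1 : (1 : ℝ) ≤ C₃ ^ (k / q) := Real.one_le_rpow hC₃ (by positivity)
    have e2 : (1 : ℝ) ≤ 3 ^ ((q - 1 : ℕ) * k) := Real.one_le_rpow (by norm_num) (by positivity)
    have e3 : (1 : ℝ) ≤ 2 ^ k := Real.one_le_rpow (by norm_num) hk.le
    have e4 : (1 : ℝ) ≤ 2 ^ (k ^ 2) := Real.one_le_rpow (by norm_num) (by positivity)
    have e5 : (1 : ℝ) ≤ Real.exp (k ^ 2 * C₂) := Real.one_le_exp (by positivity)
    exact one_le_mul_of_one_le_of_one_le (one_le_mul_of_one_le_of_one_le hC₁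
      (one_le_mul_of_one_le_of_one_le e1 (one_le_mul_of_one_le_of_one_le e2 e3)))
      (one_le_mul_of_one_le_of_one_le e4 e5)
  intro A hAq hAp hA τ L hτ hτ1 hτL hY X η ν hν hη hX
  have hL0 : 0 < L := by
    by_contra h
    push Not at h
    nlinarith
  have hY0 : 0 < A.Y := hA.hY
  have hy0 : A.y 0 = A.Y := by
    unfold MS.Par.y J4.Yg
    simp
  obtain ⟨F, hF⟩ : ∃ F, F = RW (rp τ) A.p0 A.Y L := ⟨_, rfl⟩
  rw [← hF]
  have hco := fun n => R08_coeff (u := rp τ) (R08_rp τ) (p0 := A.p0) (y := A.Y) hL0 n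
  rw [← hF] at hco
  have hlev := h1 A hAq hA k hk hqk.le hkq 0 (Nat.zero_le _) X (Real.exp L) η ν hν hη
    (Real.exp_pos L).le (by
      rw [← Real.exp_nat_mul, ← Real.exp_add]
      exact hX) F (fun n hn => by
      obtain ⟨-, h⟩ := hco n
      obtain ⟨a1, a2, a3, a4⟩ := h hn
      rw [hy0]
      exact ⟨a1, a3⟩)
  -- the energy
  have hEn := h3 A.Y A.Y ((1 - τ) * L) L 1 hY0.le le_rfl (by nlinarith) hL0.le zero_le_one ∅
    (by
      intro p
      constructor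
      · intro h
        exact absurd h (Finset.notMem_empty p)
      · rintro ⟨_, _, h5, h6⟩
        linarith) 0 F (fun n => by
      obtain ⟨b, h⟩ := hco n
      refine ⟨b, fun hn => ?_⟩
      obtain ⟨a1, a2, a3, a4⟩ := h hn
      rw [hAp] at a1
      have hn0 : (0 : ℝ) < n := by exact_mod_cast a2
      have a5 := R08_rp_pos hτ a4
      rw [lt_div_iff₀ hL0] at a5
      refine ⟨a1, a5, ?_, Nat.zero_le _⟩
      rw [← Real.log_exp L]
      exact Real.log_le_log hn0 a3)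
  have hVV : VV (∅ : Finset ℕ) = 0 := by unfold VV; simp
  rw [hVV, mul_zero, Real.exp_zero, one_pow, pow_zero, one_mul, one_mul, one_mul] at hEn
  have hb1 : (L + A.Y + 1) / (A.Y + 1) ≤ 3 / τ := by
    rw [div_le_div_iff₀ (by linarith) hτ, hY]
    nlinarith
  have hb2 : (L - (1 - τ) * L + A.Y + 1) / (A.Y + 1) ≤ 2 := by
    rw [div_le_iff₀ (by linarith), hY]
    nlinarith
  have hb20 : 0 ≤ (L - (1 - τ) * L + A.Y + 1) / (A.Y + 1) := by
    apply div_nonneg _ (by linarith)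
    nlinarith
  have hb10 : 0 ≤ (L + A.Y + 1) / (A.Y + 1) := by
    apply div_nonneg <;> linarith
  have hEn2 : En (F ^ q) ≤ C₃ * ((3 / τ) ^ (q - 1) * 2) ^ q := by
    refine hEn.trans ?_
    gcongr
  have hEn0 : 0 ≤ En (F ^ q) := J4.En_nonneg' _
  have hkq0 : 0 ≤ k / q := by positivity
  have hEn3 : En (F ^ q) ^ (k / q) ≤ C₃ ^ (k / q) * (3 ^ ((q - 1 : ℕ) * k) * 2 ^ k) * τ ^ (-((q - 1 : ℕ) * k)) := by
    refine (Real.rpow_le_rpow hEn0 hEn2 hkq0).trans (le_of_eq ?_)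
    have hb : (0 : ℝ) ≤ (3 / τ) ^ (q - 1) * 2 := by positivity
    rw [Real.mul_rpow (by linarith) (by positivity), ← Real.rpow_natCast ((3 / τ) ^ (q - 1) * 2) q, ← Real.rpow_mul hb,
      mul_div_cancel₀ k hq0.ne', Real.mul_rpow (by positivity) (by norm_num),
      ← Real.rpow_natCast (3 / τ) (q - 1), ← Real.rpow_mul (by positivity),
      Real.div_rpow (by norm_num) hτ.le, Real.rpow_neg hτ.le]
    ring
  have hV : Real.exp (k ^ 2 * A.V 0) ≤ 2 ^ (k ^ 2) * Real.exp (k ^ 2 * C₂) * (τ * L) ^ (k ^ 2) := by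
    have h5 := h2 A hA 0
    rw [hy0, hY] at h5
    have hτL0 : 0 < τ * L := by linarith
    calc Real.exp (k ^ 2 * A.V 0) ≤ Real.exp (k ^ 2 * (Real.log (τ * L + 1) + C₂)) := by
          apply Real.exp_le_exp.2
          gcongr
      _ = (τ * L + 1) ^ (k ^ 2) * Real.exp (k ^ 2 * C₂) := by
          rw [mul_add, Real.exp_add, Real.rpow_def_of_pos (by linarith)]
          ring_nf
      _ ≤ (2 * (τ * L)) ^ (k ^ 2) * Real.exp (k ^ 2 * C₂) := by
          gcongr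
          linarith
      _ = _ := by
          rw [Real.mul_rpow (by norm_num) hτL0.le]
          ring
  refine hlev.trans ?_
  have hτk : τ ^ (k * (k - q + 1)) = τ ^ (-((q - 1 : ℕ) * k)) * τ ^ (k ^ 2) := by
    rw [← Real.rpow_add hτ]
    congr 1
    rw [Nat.cast_sub hq]
    push_cast
    ring
  calc C₁ * En (F ^ q) ^ (k / q) * Real.exp (k ^ 2 * A.V 0)
      ≤ C₁ * (C₃ ^ (k / q) * (3 ^ ((q - 1 : ℕ) * k) * 2 ^ k) * τ ^ (-((q - 1 : ℕ) * k))) *
        (2 ^ (k ^ 2) * Real.exp (k ^ 2 * C₂) * (τ * L) ^ (k ^ 2)) := by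
        have h0 : 0 ≤ En (F ^ q) ^ (k / q) := Real.rpow_nonneg hEn0 _
        gcongr
    _ = _ := by
        rw [Real.mul_rpow hτ.le hL0.le, hτk]
        ring

end Pool.Agent.Lib.PS
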