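import Pool.Agent.Lib.MP_f9aece_nt_ps.Defs
import Pool.Agent.Lib.MP_f9aece_nt_mp.N1PowSum
import Pool.Agent.Lib.MP_f9aece_nt_j4.GroupsH

/-!
P9: moments of the window at the edge.
-/

set_option autoImplicit false

namespace Pool.Agent.Lib.PS

open MeasureTheory Set Filter Topology Complex
open Pool.Agent.Lib.MP_f9aece_nt (DP pair BK K1 ev PP VV Smo expo)
open Pool.Agent.Lib.MP_f9aece_nt_h40 (ind)
open Pool.Agent.Lib.MP_f9aece_nt_h85 (Rst)
open Pool.Agent.Lib.J4 (En V2 Yg)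
open Pool.Agent.Lib.N4 (OmS)
open Pool.Agent.Lib.MS (MVP Par RW TZ zr ZS un)

private lemma R09_add (p : ℝ) (hp : 0 < p) {a b : ℝ} (ha : 0 ≤ a) (hb : 0 ≤ b) :
    (a + b) ^ p ≤ (2 : ℝ) ^ p * (a ^ p + b ^ p) := by
  have h2 : (0 : ℝ) ≤ 2 ^ p := Real.rpow_nonneg (by norm_num) _
  have h3 : 0 ≤ a ^ p := Real.rpow_nonneg ha _
  have h4 : 0 ≤ b ^ p := Real.rpow_nonneg hb _
  rcases le_total a b with h | h
  · calc (a + b) ^ p ≤ (2 * b) ^ p := Real.rpow_le_rpow (by linarith) (by linarith) hp.le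
      _ = 2 ^ p * b ^ p := Real.mul_rpow (by norm_num) hb
      _ ≤ 2 ^ p * (a ^ p + b ^ p) := mul_le_mul_of_nonneg_left (by linarith) h2
  · calc (a + b) ^ p ≤ (2 * a) ^ p := Real.rpow_le_rpow (by linarith) (by linarith) hp.le
      _ = 2 ^ p * a ^ p := Real.mul_rpow (by norm_num) ha
      _ ≤ 2 ^ p * (a ^ p + b ^ p) := mul_le_mul_of_nonneg_left (by linarith) h2

private lemma R09_norm (P : DP) (t : ℝ) : ‖ev t P‖ ≤ ∑ a ∈ P.coeff.support, |P.coeff a| := by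
  rw [MP_f9aece_nt.ev_apply]
  refine (norm_sum_le _ _).trans (Finset.sum_le_sum fun a _ => ?_)
  rw [norm_mul, Complex.norm_real, Real.norm_eq_abs]
  refine mul_le_of_le_one_right (abs_nonneg _) ?_
  rcases Nat.eq_zero_or_pos a with h | h
  · subst h
    rw [Nat.cast_zero, Complex.zero_cpow, norm_zero]
    · norm_num
    · intro h0
      have := congrArg Complex.re h0
      simp at this
  · rw [Complex.norm_natCast_cpow_of_pos h]
    have h1 : (1 : ℝ) ≤ a := by exact_mod_cast h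
    refine Real.rpow_le_one_of_one_le_of_nonpos h1 ?_
    simp

private lemma R09_int {ν : Measure ℝ} [IsProbabilityMeasure ν] (P : DP) {p : ℝ} (hp : 0 < p) :
    Integrable (fun t => ‖ev t P‖ ^ p) ν := by
  have hc : Continuous fun t : ℝ => ‖ev t P‖ ^ p :=
    (MP_f9aece_nt.continuous_ev P).norm.rpow_const fun _ => Or.inr hp.le
  refine Integrable.of_bound hc.aestronglyMeasurable
    ((∑ a ∈ P.coeff.support, |P.coeff a|) ^ p) (Eventually.of_forall fun t => ?_)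
  rw [Real.norm_eq_abs, abs_of_nonneg (Real.rpow_nonneg (norm_nonneg _) _)]
  exact Real.rpow_le_rpow (norm_nonneg _) (R09_norm P t) hp.le

/-- the integral of the power of a sum of polynomials -/
private lemma R09_sum {ν : Measure ℝ} [IsProbabilityMeasure ν] {p C : ℝ} (hp : 0 < p)
    (hC : ∀ (n : ℕ) (z : ℕ → ℂ), ‖∑ j ∈ Finset.range n, z j‖ ^ p
      ≤ C * ∑ j ∈ Finset.range n, (2 : ℝ) ^ (1 * (j : ℝ)) * ‖z j‖ ^ p) (n : ℕ) (P : ℕ → DP) :
    ∫ t, ‖ev t (∑ i ∈ Finset.range n, P i)‖ ^ p ∂ν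
      ≤ C * ∑ i ∈ Finset.range n, (2 : ℝ) ^ i * ∫ t, ‖ev t (P i)‖ ^ p ∂ν := by
  have hi : Integrable (fun t => C * ∑ i ∈ Finset.range n, (2 : ℝ) ^ i * ‖ev t (P i)‖ ^ p) ν :=
    (integrable_finsetSum _ fun i _ => (R09_int (P i) hp).const_mul _).const_mul _
  have h1 : ∫ t, ‖ev t (∑ i ∈ Finset.range n, P i)‖ ^ p ∂ν
      ≤ ∫ t, C * ∑ i ∈ Finset.range n, (2 : ℝ) ^ i * ‖ev t (P i)‖ ^ p ∂ν := by
    refine integral_mono (R09_int _ hp) hi fun t => ?_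
    dsimp only
    rw [map_sum]
    refine (hC n fun i => ev t (P i)).trans (le_of_eq ?_)
    congr 1
    refine Finset.sum_congr rfl fun j _ => ?_
    rw [one_mul, Real.rpow_natCast]
  refine h1.trans (le_of_eq ?_)
  rw [integral_const_mul, integral_finsetSum _ fun i _ => (R09_int (P i) hp).const_mul _]
  congr 1
  refine Finset.sum_congr rfl fun i _ => ?_
  rw [integral_const_mul]

private lemma R09_decay {v : ℝ} (hv : 4 ≤ v) (i : ℕ) :
    ((i : ℝ) + 1) ^ 2 * Real.exp (-(v * i * (i + 1) / 2)) ≤ 1 := by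
  have hi0 : (0 : ℝ) ≤ i := Nat.cast_nonneg i
  rw [Real.exp_neg, ← div_eq_mul_inv, div_le_one (Real.exp_pos _)]
  have h3 : (i : ℝ) + 1 ≤ Real.exp i := Real.add_one_le_exp _
  calc ((i : ℝ) + 1) ^ 2 ≤ Real.exp i ^ 2 := pow_le_pow_left₀ (by linarith) h3 2
    _ = Real.exp (2 * i) := by
        rw [← Real.exp_nat_mul]
        norm_num
    _ ≤ Real.exp (v * i * (i + 1) / 2) := by
        apply Real.exp_le_exp.2
        nlinarith [mul_nonneg hi0 hi0, mul_nonneg hi0 (sub_nonneg.2 hv),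
          mul_nonneg (mul_nonneg hi0 hi0) (sub_nonneg.2 hv)]

/-- lengths of the remaining groups -/
private lemma R09_ell {A : Par} (hA : A.Ok) {L : ℝ} (hYL : A.Y ≤ L) (i : ℕ) :
    A.ell i ≤ 400000 * (A.q : ℝ) ^ 3 * A.v * L := by
  have hL0 : 0 < L := hA.hY.trans_le hYL
  have hv4 : (4 : ℝ) ≤ A.v := by exact_mod_cast hA.hv
  unfold Par.ell
  split_ifs
  · have h1 : ((i : ℝ) + 1) ^ 2 * A.y i ≤ L := by
      unfold Par.y Yg
      have h4 := R09_decay hv4 i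
      calc ((i : ℝ) + 1) ^ 2 * (A.Y * Real.exp (-((A.v : ℝ) * i * (i + 1) / 2)))
          = A.Y * (((i : ℝ) + 1) ^ 2 * Real.exp (-((A.v : ℝ) * i * (i + 1) / 2))) := by ring
        _ ≤ A.Y * 1 := mul_le_mul_of_nonneg_left h4 hA.hY.le
        _ ≤ L := by linarith
    calc 400000 * (A.q : ℝ) ^ 3 * A.v * ((i : ℝ) + 1) ^ 2 * A.y i
        = 400000 * (A.q : ℝ) ^ 3 * A.v * (((i : ℝ) + 1) ^ 2 * A.y i) := by ring
      _ ≤ 400000 * (A.q : ℝ) ^ 3 * A.v * L := mul_le_mul_of_nonneg_left h1 (by positivity)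
  · positivity

/-- the lengths of the indicators -/
private lemma R09_kap {A : Par} (hA : A.Ok) {L : ℝ} (hYL : A.Y ≤ L) (i : ℕ) :
    (A.κ i : ℝ) * A.y i ≤ 50000 * (A.q : ℝ) ^ 2 * A.v * L := by
  have hv4 : (4 : ℝ) ≤ A.v := by exact_mod_cast hA.hv
  have e1 : (A.κ i : ℝ) * A.y i = 50000 * (A.q : ℝ) ^ 2 * A.v * (A.Y
      * (((i : ℝ) + 1) ^ 2 * Real.exp (-((A.v : ℝ) * i * (i + 1) / 2)))) := by
    unfold Par.κ Par.y Par.r Yg
    push_cast
    ring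
  rw [e1]
  refine mul_le_mul_of_nonneg_left ?_ (by positivity)
  exact (mul_le_of_le_one_right hA.hY.le (R09_decay hv4 i)).trans hYL

private lemma R09_geom (J : ℕ) :
    ∑ i ∈ Finset.range J, (2 : ℝ) ^ i * (1 / 4 : ℝ) ^ i ≤ 2 := by
  calc ∑ i ∈ Finset.range J, (2 : ℝ) ^ i * (1 / 4 : ℝ) ^ i
      = ∑ i ∈ Finset.range J, (1 / 2 : ℝ) ^ i := by
        refine Finset.sum_congr rfl fun i _ => ?_
        rw [← mul_pow]
        norm_num
    _ ≤ ∑' i : ℕ, (1 / 2 : ℝ) ^ i :=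
      Summable.sum_le_tsum _ (fun i _ => by positivity) summable_geometric_two
    _ = 2 := tsum_geometric_two

/-- `v = max v0 4`, `p0 = 1000`, `A = ⟨q, v, 1000, J, τ L⟩`, `J` from `hJ` (`J4.ExistsJ`). `C0` such that
`τ L ≥ 1` and all lengths in `Piece`, `Head` are at most `exp (C0 L)` (`κ_i y_i` and `ell i` are at most
`C Y`, uniformly in `i`). `Telescope` for `u = rp τ`, `‖a + b‖^(2k) ≤ 4^k (..)`, `PowSum` with `η = 1`
for the sum over `i < J`: `∑ 2^i (1/4)^i ≤ 2`. -/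
theorem tail (hT : MS.Telescope) (hP : MP2.PowSum) (hJ : J4.ExistsJ) (h7 : Piece) (h8 : Head) : Tail := by
  intro q k hq hk hqk hkq
  have h2k : 0 < 2 * k := by linarith
  obtain ⟨Cp, hCp, hP⟩ := hP (2 * k) 1 h2k one_pos
  obtain ⟨v0, h7⟩ := h7 q k hq hk hqk hkq
  obtain ⟨C7, hC7, h7⟩ := h7 (max v0 4) (le_max_left _ _)
  obtain ⟨C8, hC8, h8⟩ := h8 q k hq hk hqk hkq
  set v : ℕ := max v0 4 with hv
  have hv4 : 4 ≤ v := le_max_right _ _
  have hq0 : (0 : ℝ) < q := by exact_mod_cast hq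
  have hD1 : (1 : ℝ) ≤ 2 ^ (2 * k) := Real.one_le_rpow (by norm_num) h2k.le
  have hCC : 0 ≤ 2 * Cp * C7 := by positivity
  refine ⟨2 ^ (2 * k) * (C8 + 2 * Cp * C7), ?_, fun τ hτ hτ1 => ?_⟩
  · calc (1 : ℝ) = 1 * 1 := (one_mul 1).symm
      _ ≤ 2 ^ (2 * k) * (C8 + 2 * Cp * C7) := by
        refine mul_le_mul hD1 ?_ zero_le_one (by positivity)
        linarith
  set C0 : ℝ := q + q * (50000 * (q : ℝ) ^ 2 * v) + 400000 * (q : ℝ) ^ 3 * v + 1 / τ + 1 with hC0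
  have hτ' : 0 < 1 / τ := by positivity
  have hA0 : 0 ≤ (q : ℝ) * (50000 * (q : ℝ) ^ 2 * v) := by positivity
  have hB0 : 0 ≤ 400000 * (q : ℝ) ^ 3 * v := by positivity
  refine ⟨C0, by linarith, fun L hL X η ν hν hη hX => ?_⟩
  have hprob : IsProbabilityMeasure ν := hν.prob
  have hL0 : 0 < L := by linarith
  have hτL : 1 ≤ τ * L := by
    have h1 : 1 / τ ≤ L := by linarith
    rw [div_le_iff₀ hτ] at h1
    linarith
  have hτLL : τ * L ≤ L := mul_le_of_le_one_left hL0.le hτ1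
  obtain ⟨J, hJ⟩ := hJ v 1000 (by omega) (by norm_num) (τ * L) (by linarith)
  let A : Par := ⟨q, v, 1000, J, τ * L⟩
  have hA : A.Ok := ⟨hq, hv4, le_rfl, by
    show 0 < τ * L
    linarith, hJ⟩
  have hell : ∀ i, A.ell i ≤ 400000 * (q : ℝ) ^ 3 * v * L := fun i => R09_ell hA hτLL i
  have hkap : ∀ i, (A.κ i : ℝ) * A.y i ≤ 50000 * (q : ℝ) ^ 2 * v * L :=
    fun i => R09_kap hA hτLL i
  set W : ℝ := τ ^ (k * (k - q + 1)) * L ^ (k ^ 2) with hW
  have hW0 : 0 ≤ W := mul_nonneg (Real.rpow_nonneg hτ.le _) (Real.rpow_nonneg hL0.le _)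
  -- the head
  have hhead : ∫ t, ‖ev t (RW (rp τ) A.p0 A.Y L * A.EI 0)‖ ^ (2 * k) ∂ν ≤ C8 * W := by
    refine h8 A rfl rfl hA τ L hτ hτ1 hτL rfl X η ν hν hη ?_
    refine le_trans (Real.exp_le_exp.2 ?_) hX
    have h1 := hell 0
    have h2 : C0 * L = q * L + q * (50000 * (q : ℝ) ^ 2 * v) * L
        + 400000 * (q : ℝ) ^ 3 * v * L + (1 / τ + 1) * L := by
      rw [hC0]
      ring
    have h3 : 0 ≤ q * (50000 * (q : ℝ) ^ 2 * v) * L := by positivity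
    have h4 : 0 ≤ (1 / τ + 1) * L := by positivity
    rw [h2]
    linarith
  -- the windows
  have hpiece : ∀ i ∈ Finset.range A.J,
      ∫ t, ‖ev t (A.QW (rp τ) L i * A.EI (i + 1))‖ ^ (2 * k) ∂ν ≤ C7 * ((1 / 4) ^ i * W) := by
    intro i hi
    rw [Finset.mem_range] at hi
    refine h7 A rfl rfl rfl hA τ L hτ hτ1 rfl X η ν hν hη i hi ?_
    refine le_trans (Real.exp_le_exp.2 ?_) hX
    have h1 := hell (i + 1)
    have h5 := mul_le_mul_of_nonneg_left (hkap i) hq0.le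
    have h2 : C0 * L = q * L + q * (50000 * (q : ℝ) ^ 2 * v * L)
        + 400000 * (q : ℝ) ^ 3 * v * L + (1 / τ + 1) * L := by
      rw [hC0]
      ring
    have h4 : 0 ≤ (1 / τ + 1) * L := by positivity
    rw [h2, mul_add]
    linarith
  have hsum : ∫ t, ‖ev t (∑ i ∈ Finset.range A.J, A.QW (rp τ) L i * A.EI (i + 1))‖ ^ (2 * k) ∂ν
      ≤ 2 * Cp * C7 * W := by
    refine (R09_sum h2k hP A.J fun i => A.QW (rp τ) L i * A.EI (i + 1)).trans ?_
    calc Cp * ∑ i ∈ Finset.range A.J, (2 : ℝ) ^ i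
            * ∫ t, ‖ev t (A.QW (rp τ) L i * A.EI (i + 1))‖ ^ (2 * k) ∂ν
        ≤ Cp * ∑ i ∈ Finset.range A.J, (2 : ℝ) ^ i * (C7 * ((1 / 4) ^ i * W)) := by
          refine mul_le_mul_of_nonneg_left (Finset.sum_le_sum fun i hi => ?_) (by linarith)
          exact mul_le_mul_of_nonneg_left (hpiece i hi) (by positivity)
      _ = Cp * C7 * W * ∑ i ∈ Finset.range A.J, (2 : ℝ) ^ i * (1 / 4 : ℝ) ^ i := by
          rw [Finset.mul_sum, Finset.mul_sum]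
          refine Finset.sum_congr rfl fun i _ => ?_
          ring
      _ ≤ Cp * C7 * W * 2 := mul_le_mul_of_nonneg_left (R09_geom A.J) (by positivity)
      _ = 2 * Cp * C7 * W := by ring
  have hi1 := R09_int (ν := ν) (RW (rp τ) A.p0 A.Y L * A.EI 0) h2k
  have hi2 := R09_int (ν := ν) (∑ i ∈ Finset.range A.J, A.QW (rp τ) L i * A.EI (i + 1)) h2k
  calc ∫ t, ‖ev t (TZ (rp τ) L)‖ ^ (2 * k) ∂ν
      ≤ ∫ t, 2 ^ (2 * k) * (‖ev t (RW (rp τ) A.p0 A.Y L * A.EI 0)‖ ^ (2 * k)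
        + ‖ev t (∑ i ∈ Finset.range A.J, A.QW (rp τ) L i * A.EI (i + 1))‖ ^ (2 * k)) ∂ν := by
        refine integral_mono (R09_int _ h2k) ((hi1.add hi2).const_mul _) fun t => ?_
        dsimp only
        rw [hT A hA (rp τ) L hL0.le, map_add]
        refine le_trans ?_ (R09_add (2 * k) h2k (norm_nonneg _) (norm_nonneg _))
        exact Real.rpow_le_rpow (norm_nonneg _) (norm_add_le _ _) h2k.le
    _ = 2 ^ (2 * k) * (∫ t, ‖ev t (RW (rp τ) A.p0 A.Y L * A.EI 0)‖ ^ (2 * k) ∂ν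
        + ∫ t, ‖ev t (∑ i ∈ Finset.range A.J, A.QW (rp τ) L i * A.EI (i + 1))‖ ^ (2 * k) ∂ν) := by
        rw [integral_const_mul, integral_add hi1 hi2]
    _ ≤ 2 ^ (2 * k) * (C8 * W + 2 * Cp * C7 * W) :=
        mul_le_mul_of_nonneg_left (add_le_add hhead hsum) (by positivity)
    _ = 2 ^ (2 * k) * (C8 + 2 * Cp * C7) * W := by ring

end Pool.Agent.Lib.PS
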