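import Pool.Agent.Lib.MP_f9aece_nt_ps.Defs
import Pool.Agent.Lib.MP_f9aece_nt_mt.StmtsT
import Pool.Agent.Lib.MP_f9aece_nt.MeanValue

/-!
P10: the limit for the partial sums.
-/

set_option autoImplicit false

namespace Pool.Agent.Lib.PS

open MeasureTheory Set Filter Topology Complex
open Pool.Agent.Lib.MP_f9aece_nt (DP pair BK K1 ev PP VV Smo expo)
open Pool.Agent.Lib.MP_f9aece_nt_h40 (ind)
open Pool.Agent.Lib.MP_f9aece_nt_h85 (Rst)
open Pool.Agent.Lib.J4 (En V2)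
open Pool.Agent.Lib.N4 (OmS)
open Pool.Agent.Lib.MS (MVP Par RW TZ zr ZS un)

namespace R10

/-! ### continuity and boundedness -/

/-- continuous and bounded -/
private def CB (F : ℝ → ℂ) : Prop := Continuous F ∧ ∃ C : ℝ, 0 ≤ C ∧ ∀ t, ‖F t‖ ≤ C

private lemma norm_cpow_le (a : ℕ) (t : ℝ) : ‖(a : ℂ) ^ (-(1 / 2 + I * t : ℂ))‖ ≤ 1 := by
  rcases Nat.eq_zero_or_pos a with rfl | ha
  · have h : (-(1 / 2 + I * t : ℂ)) ≠ 0 := by
      intro h
      have := congrArg Complex.re h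
      norm_num at this
    rw [Nat.cast_zero, Complex.zero_cpow h, norm_zero]
    exact zero_le_one
  · rw [Complex.norm_natCast_cpow_of_pos ha]
    have h1 : (-(1 / 2 + I * t : ℂ)).re = -(1 / 2 : ℝ) := by simp
    rw [h1]
    exact Real.rpow_le_one_of_one_le_of_nonpos (by exact_mod_cast ha) (by norm_num)

private lemma CB.sub {F G : ℝ → ℂ} (hF : CB F) (hG : CB G) : CB (fun t => F t - G t) := by
  obtain ⟨C, hC, h1⟩ := hF.2
  obtain ⟨D, hD, h2⟩ := hG.2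
  exact ⟨hF.1.sub hG.1, C + D, add_nonneg hC hD, fun t =>
    (norm_sub_le _ _).trans (add_le_add (h1 t) (h2 t))⟩

private lemma cb_ZS (w : ℝ → ℂ) (L : ℝ) : CB (fun t => ZS w L t) := by
  constructor
  · unfold MS.ZS
    refine continuous_finsetSum _ fun n hn => ?_
    have hn1 : (n : ℂ) ≠ 0 := by
      have := (Finset.mem_Icc.mp hn).1
      exact_mod_cast (by omega : n ≠ 0)
    refine continuous_const.mul ?_
    refine Continuous.const_cpow ?_ (Or.inl hn1)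
    fun_prop
  · refine ⟨∑ n ∈ Finset.Icc 1 ⌊Real.exp L⌋₊, ‖w (Real.log n / L)‖,
      Finset.sum_nonneg fun _ _ => norm_nonneg _, fun t => ?_⟩
    unfold MS.ZS
    refine (norm_sum_le _ _).trans (Finset.sum_le_sum fun a _ => ?_)
    rw [norm_mul]
    exact mul_le_of_le_one_right (norm_nonneg _) (norm_cpow_le a t)

private lemma CB.integrable {F : ℝ → ℂ} (hF : CB F) {ν : Measure ℝ} [IsProbabilityMeasure ν]
    {s : ℝ} (hs : 0 ≤ s) : Integrable (fun t => ‖F t‖ ^ s) ν := by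
  obtain ⟨C, hC, h1⟩ := hF.2
  refine Integrable.of_bound (C := C ^ s) ?_ (Eventually.of_forall fun t => ?_)
  · exact (Continuous.rpow_const hF.1.norm fun _ => Or.inr hs).aestronglyMeasurable
  · rw [Real.norm_eq_abs, abs_of_nonneg (by positivity)]
    exact Real.rpow_le_rpow (norm_nonneg _) (h1 t) hs

/-- comparison of the moments -/
private lemma compare {F G : ℝ → ℂ} (hF : CB F) (hG : CB G) {ν : Measure ℝ}
    (hν : IsProbabilityMeasure ν) {s η C : ℝ} (hs : 0 ≤ s)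
    (h : ∀ x y : ℂ, |‖x‖ ^ s - ‖y‖ ^ s| ≤ η * ‖x‖ ^ s + C * ‖x - y‖ ^ s) :
    |∫ t, ‖F t‖ ^ s ∂ν - ∫ t, ‖G t‖ ^ s ∂ν|
      ≤ η * ∫ t, ‖F t‖ ^ s ∂ν + C * ∫ t, ‖F t - G t‖ ^ s ∂ν := by
  have i1 := hF.integrable (ν := ν) hs
  have i2 := hG.integrable (ν := ν) hs
  have i3 := (hF.sub hG).integrable (ν := ν) hs
  rw [← integral_sub i1 i2, ← integral_const_mul, ← integral_const_mul,
    ← integral_add (i1.const_mul _) (i3.const_mul _)]
  refine (abs_integral_le_integral_abs).trans ?_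
  exact integral_mono (i1.sub i2).abs ((i1.const_mul _).add (i3.const_mul _)) fun t => h _ _

/-! ### good tuples -/

/-- the admissible tuples -/
private def Good (N : ℝ) (L X η : ℝ) (ν : Measure ℝ) : Prop :=
  N ≤ L ∧ MVP ν X η ∧ Real.exp (N * L) ≤ X ∧ 0 ≤ η ∧ η * N ≤ 1

private lemma Good.mono {N N' L X η : ℝ} {ν : Measure ℝ} (hN : 1 ≤ N) (hNN : N ≤ N')
    (h : Good N' L X η ν) : Good N L X η ν := by
  obtain ⟨h1, h2, h3, h4, h5⟩ := h
  have hL : 0 ≤ L := by linarith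
  refine ⟨hNN.trans h1, h2, (Real.exp_le_exp.mpr ?_).trans h3, h4, ?_⟩
  · exact mul_le_mul_of_nonneg_right hNN hL
  · exact (mul_le_mul_of_nonneg_left hNN h4).trans h5

private lemma good_ex (h0 : MS.UnifMVP) {N : ℝ} (hN : 1 ≤ N) :
    ∃ (L X η : ℝ) (ν : Measure ℝ), Good N L X η ν := by
  have hX : 1 ≤ Real.exp (N * N) := Real.one_le_exp (by positivity)
  have hT : 0 < 2 * Real.exp (N * N) ^ 2 * N := by positivity
  refine ⟨N, Real.exp (N * N), 2 * Real.exp (N * N) ^ 2 / (2 * Real.exp (N * N) ^ 2 * N),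
    un 0 (2 * Real.exp (N * N) ^ 2 * N), le_rfl, h0 0 _ _ hT hX, le_rfl, by positivity, ?_⟩
  have : (0 : ℝ) < Real.exp (N * N) := Real.exp_pos _
  have hN0 : (0 : ℝ) < N := by linarith
  field_simp
  exact le_rfl

/-! ### the ramp -/

private lemma rp_nonneg (τ x : ℝ) : 0 ≤ rp τ x := le_max_left _ _

private lemma rp_le_one (τ x : ℝ) : rp τ x ≤ 1 := max_le zero_le_one (min_le_left _ _)

private lemma rp_zero {τ : ℝ} (h0 : 0 < τ) (h1 : τ ≤ 1) : rp τ 0 = 0 := by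
  unfold rp
  refine max_eq_left ((min_le_right _ _).trans ?_)
  exact div_nonpos_of_nonpos_of_nonneg (by linarith) h0.le

private lemma rp_one {τ x : ℝ} (h0 : 0 < τ) (hx : 1 ≤ x) : rp τ x = 1 := by
  unfold rp
  have h1 : 1 ≤ (x - (1 - τ)) / τ := by
    rw [le_div_iff₀ h0]
    linarith
  rw [min_eq_left h1]
  exact max_eq_right zero_le_one

private lemma rp_lip {τ : ℝ} (h0 : 0 < τ) (x y : ℝ) : |rp τ x - rp τ y| ≤ 1 / τ * |x - y| := by
  unfold rp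
  have h1 : |max 0 (min 1 ((x - (1 - τ)) / τ)) - max 0 (min 1 ((y - (1 - τ)) / τ))|
      ≤ |min 1 ((x - (1 - τ)) / τ) - min 1 ((y - (1 - τ)) / τ)| := by
    have h := abs_max_sub_max_le_max 0 (min 1 ((x - (1 - τ)) / τ)) 0 (min 1 ((y - (1 - τ)) / τ))
    rwa [sub_self, abs_zero, max_eq_right (abs_nonneg (min 1 ((x - (1 - τ)) / τ)
      - min 1 ((y - (1 - τ)) / τ)))] at h
  have h2 : |min 1 ((x - (1 - τ)) / τ) - min 1 ((y - (1 - τ)) / τ)|
      ≤ |(x - (1 - τ)) / τ - (y - (1 - τ)) / τ| := by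
    have h := abs_min_sub_min_le_max 1 ((x - (1 - τ)) / τ) 1 ((y - (1 - τ)) / τ)
    rwa [sub_self, abs_zero, max_eq_right (abs_nonneg ((x - (1 - τ)) / τ
      - (y - (1 - τ)) / τ))] at h
  refine h1.trans (h2.trans (le_of_eq ?_))
  rw [← sub_div, abs_div, abs_of_pos h0]
  rw [show x - (1 - τ) - (y - (1 - τ)) = x - y by ring]
  ring

/-- the Lipschitz cut-off -/
private noncomputable def wc (τ : ℝ) (x : ℝ) : ℂ := ((1 - rp τ x : ℝ) : ℂ)

private lemma wc_cut {τ : ℝ} (h0 : 0 < τ) : MT.CutC 1 (1 / τ) (wc τ) where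
  bd x := by
    unfold wc
    rw [Complex.norm_real, Real.norm_eq_abs, abs_of_nonneg (by linarith [rp_le_one τ x])]
    linarith [rp_nonneg τ x]
  lip x y := by
    unfold wc
    rw [← Complex.ofReal_sub, Complex.norm_real, Real.norm_eq_abs,
      show 1 - rp τ x - (1 - rp τ y) = -(rp τ x - rp τ y) by ring, abs_neg]
    exact rp_lip h0 x y
  zero x hx := by
    unfold wc
    rw [rp_one h0 hx]
    simp

private lemma wc_zero {τ : ℝ} (h0 : 0 < τ) (h1 : τ ≤ 1) : wc τ 0 = 1 := by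
  unfold wc
  rw [rp_zero h0 h1]
  simp

private lemma ev_TZ (u : ℝ → ℝ) (L t : ℝ) : ev t (TZ u L) =
    ∑ n ∈ Finset.Icc 1 ⌊Real.exp L⌋₊, (u (Real.log n / L) : ℂ) * (n : ℂ) ^ (-(1 / 2 + I * t : ℂ)) := by
  unfold MS.TZ
  rw [map_sum]
  exact Finset.sum_congr rfl fun n _ => MP_f9aece_nt.ev_single t n (u (Real.log n / L))

/-- the decomposition of the partial sum -/
private lemma split (τ L t : ℝ) :
    ZS (fun _ => 1) L t - ZS (wc τ) L t = ev t (TZ (rp τ) L) := by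
  rw [ev_TZ]
  unfold MS.ZS
  rw [← Finset.sum_sub_distrib]
  refine Finset.sum_congr rfl fun n _ => ?_
  unfold wc
  push_cast
  ring

end R10

open R10

/-- `q = ⌈k⌉`. `ZS (fun _ => 1) L t = ZS (fun x => ((1 - rp τ x : ℝ) : ℂ)) L t + ev t (TZ (rp τ) L)`. The
first has a limit `c_τ` by `LimEx` (`CutC 1 (1/τ)`, value one at zero), the second is small by `Tail`
(exponent `k (k - q + 1) > 0`, `τ → 0`), compare by `PowIneq`. -/
theorem sharpLim (hL : MT.LimEx) (hI : MT.PowIneq) (hC : MT.CauL) (hU : MS.UnifMVP) (h9 : Tail) :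
    SharpLim := by
  intro k hk
  obtain ⟨q, hqdef⟩ : ∃ q : ℕ, q = ⌈k⌉₊ := ⟨_, rfl⟩
  have hq1 : 1 ≤ q := by rw [hqdef]; exact Nat.one_le_ceil_iff.mpr hk
  have hqk : k ≤ q := by rw [hqdef]; exact Nat.le_ceil k
  have hqk' : (q : ℝ) - 1 < k := by
    have := Nat.ceil_lt_add_one hk.le
    rw [← hqdef] at this
    linarith
  have hs : 0 ≤ 2 * k := by linarith
  have hs' : 0 < 2 * k := by linarith
  have hδ : 0 < k * (k - q + 1) := mul_pos hk (by linarith)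
  obtain ⟨C, hC1, hT⟩ := h9 q k hq1 hk hqk' hqk
  -- comparison for one `τ`
  have key : ∀ (η1 C1 : ℝ), (∀ x y : ℂ, |‖x‖ ^ (2 * k) - ‖y‖ ^ (2 * k)|
        ≤ η1 * ‖x‖ ^ (2 * k) + C1 * ‖x - y‖ ^ (2 * k)) → 0 ≤ C1 → ∀ τ : ℝ, 0 < τ → τ ≤ 1 →
      ∀ ε : ℝ, 0 < ε → ∃ (c N : ℝ), 0 ≤ c ∧ 1 ≤ N ∧ ∀ (L X η : ℝ) (ν : Measure ℝ), Good N L X η ν →
        ∃ z y : ℝ, z = (∫ t, ‖ZS (fun _ => 1) L t‖ ^ (2 * k) ∂ν) / L ^ (k ^ 2) ∧ 0 ≤ z ∧
          |z - y| ≤ η1 * z + C1 * (C * τ ^ (k * (k - q + 1))) ∧ |y - c| ≤ ε := by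
    intro η1 C1 hη hC1' τ hτ hτ1 ε hε
    obtain ⟨c, hc0, -, hc⟩ := hL k 1 (1 / τ) (wc τ) hk (wc_cut hτ) (wc_zero hτ hτ1)
    obtain ⟨N1, hN1, h1⟩ := hc ε hε
    obtain ⟨C0, hC0, h2⟩ := hT τ hτ hτ1
    refine ⟨c, max N1 C0, hc0, hN1.trans (le_max_left _ _), fun L X η ν hg => ?_⟩
    obtain ⟨a1, a2, a3, a4, a5⟩ := hg.mono hN1 (le_max_left _ _)
    obtain ⟨b1, b2, b3, b4, b5⟩ := hg.mono hC0 (le_max_right _ _)
    have hL0 : 0 < L := by linarith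
    have hη1 : η ≤ 1 := by nlinarith
    have hprob : IsProbabilityMeasure ν := a2.prob
    have hLk : 0 < L ^ (k ^ 2) := Real.rpow_pos_of_pos hL0 _
    have c1 := compare (cb_ZS (fun _ => 1) L) (cb_ZS (wc τ) L) hprob hs hη
    have c2 := h2 L b1 X η ν b2 hη1 b3
    have c3 := h1 L X η ν a1 a2 a3 a4 a5
    simp only [split] at c1
    refine ⟨(∫ t, ‖ZS (fun _ => 1) L t‖ ^ (2 * k) ∂ν) / L ^ (k ^ 2),
      (∫ t, ‖ZS (wc τ) L t‖ ^ (2 * k) ∂ν) / L ^ (k ^ 2), rfl, ?_, ?_, ?_⟩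
    · have : 0 ≤ ∫ t, ‖ZS (fun _ => 1) L t‖ ^ (2 * k) ∂ν := integral_nonneg fun t => by positivity
      positivity
    · rw [← sub_div, abs_div, abs_of_pos hLk, div_le_iff₀ hLk]
      refine c1.trans ?_
      have e : (η1 * ((∫ t, ‖ZS (fun _ => 1) L t‖ ^ (2 * k) ∂ν) / L ^ (k ^ 2))
          + C1 * (C * τ ^ (k * (k - q + 1)))) * L ^ (k ^ 2)
          = η1 * (∫ t, ‖ZS (fun _ => 1) L t‖ ^ (2 * k) ∂ν)
            + C1 * (C * (τ ^ (k * (k - q + 1)) * L ^ (k ^ 2))) := by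
        field_simp
      rw [e]
      gcongr
    · have e1 : (∫ t, ‖ZS (wc τ) L t‖ ^ (2 * k) ∂ν) / L ^ (k ^ 2) - c
          = ((∫ t, ‖ZS (wc τ) L t‖ ^ (2 * k) ∂ν) - c * L ^ (k ^ 2)) / L ^ (k ^ 2) := by
        field_simp
      rw [e1, abs_div, abs_of_pos hLk, div_le_iff₀ hLk]
      exact c3
  -- step 1: boundedness
  obtain ⟨Fs, Ns, hFs0, hNs, hFs⟩ : ∃ Fs Ns : ℝ, 0 ≤ Fs ∧ 1 ≤ Ns ∧ ∀ (L X η : ℝ) (ν : Measure ℝ),
      Good Ns L X η ν → (∫ t, ‖ZS (fun _ => 1) L t‖ ^ (2 * k) ∂ν) / L ^ (k ^ 2) ≤ Fs := by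
    obtain ⟨C1, hC1', hCp⟩ := hI (2 * k) (1 / 2) hs' (by norm_num)
    obtain ⟨c, N, hc0, hN, h⟩ := key (1 / 2) C1 hCp hC1' 1 one_pos le_rfl 1 one_pos
    refine ⟨2 * (c + 1) + 2 * (C1 * C), N, by positivity, hN, fun L X η ν hg => ?_⟩
    obtain ⟨z, y, hz, hz0, i1, i2⟩ := h L X η ν hg
    rw [← hz]
    rw [Real.one_rpow, mul_one] at i1
    have i5 := (abs_le.mp i1).2
    have i6 := (abs_le.mp i2).2
    linarith
  -- step 2: almost convergence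
  have step2 : ∀ ε : ℝ, 0 < ε → ∃ (c N : ℝ), 1 ≤ N ∧ ∀ (L X η : ℝ) (ν : Measure ℝ),
      Good N L X η ν → |(∫ t, ‖ZS (fun _ => 1) L t‖ ^ (2 * k) ∂ν) / L ^ (k ^ 2) - c| ≤ ε := by
    intro ε hε
    have hη : 0 < ε / (4 * (Fs + 1)) := by positivity
    obtain ⟨C1, hC1', hCp⟩ := hI (2 * k) (ε / (4 * (Fs + 1))) hs' hη
    obtain ⟨τ, hτ, hτ1, hτs⟩ : ∃ τ : ℝ, 0 < τ ∧ τ ≤ 1 ∧ C1 * (C * τ ^ (k * (k - q + 1))) ≤ ε / 4 := by
      have hD : 0 < C1 * C + 1 := by positivity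
      have hb : 0 < ε / (4 * (C1 * C + 1)) := by positivity
      refine ⟨min 1 ((ε / (4 * (C1 * C + 1))) ^ (1 / (k * (k - q + 1)))), ?_, min_le_left _ _, ?_⟩
      · exact lt_min one_pos (Real.rpow_pos_of_pos hb _)
      · have h1 : (min 1 ((ε / (4 * (C1 * C + 1))) ^ (1 / (k * (k - q + 1))))) ^ (k * (k - q + 1))
            ≤ ε / (4 * (C1 * C + 1)) := by
          calc (min 1 ((ε / (4 * (C1 * C + 1))) ^ (1 / (k * (k - q + 1))))) ^ (k * (k - q + 1))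
              ≤ ((ε / (4 * (C1 * C + 1))) ^ (1 / (k * (k - q + 1)))) ^ (k * (k - q + 1)) :=
                Real.rpow_le_rpow (le_min zero_le_one (Real.rpow_nonneg hb.le _))
                  (min_le_right _ _) hδ.le
            _ = ε / (4 * (C1 * C + 1)) := by
                rw [← Real.rpow_mul hb.le, one_div_mul_cancel hδ.ne', Real.rpow_one]
        calc C1 * (C * _) ≤ C1 * (C * (ε / (4 * (C1 * C + 1)))) := by gcongr
          _ = ε / 4 * (C1 * C / (C1 * C + 1)) := by field_simp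
          _ ≤ ε / 4 * 1 := by
              refine mul_le_mul_of_nonneg_left ?_ (by positivity)
              rw [div_le_one hD]
              linarith
          _ = ε / 4 := mul_one _
    obtain ⟨c, N, hc0, hN, h⟩ := key _ C1 hCp hC1' τ hτ hτ1 (ε / 4) (by positivity)
    refine ⟨c, max Ns N, hNs.trans (le_max_left _ _), fun L X η ν hg => ?_⟩
    have hgs := hFs L X η ν (hg.mono hNs (le_max_left _ _))
    obtain ⟨z, y, hz, hz0, i1, i2⟩ := h L X η ν (hg.mono hN (le_max_right _ _))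
    rw [← hz] at hgs ⊢
    have i6 : ε / (4 * (Fs + 1)) * z ≤ ε / 4 := by
      calc ε / (4 * (Fs + 1)) * z ≤ ε / (4 * (Fs + 1)) * (Fs + 1) :=
            mul_le_mul_of_nonneg_left (by linarith) hη.le
        _ = ε / 4 := by field_simp
    have i11 : |z - c| ≤ |z - y| + |y - c| := abs_sub_le z y c
    linarith
  -- the limit
  obtain ⟨c, hc⟩ := hC (ℝ × ℝ × ℝ × Measure ℝ)
    (fun n => {τ | Good ((n : ℝ) + 1) τ.1 τ.2.1 τ.2.2.1 τ.2.2.2})
    (fun τ => (∫ t, ‖ZS (fun _ => 1) τ.1 t‖ ^ (2 * k) ∂τ.2.2.2) / τ.1 ^ (k ^ 2))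
    (by
      intro n m hnm τ hτ
      have hnm' : (n : ℝ) ≤ m := by exact_mod_cast hnm
      exact Good.mono (by have : (0 : ℝ) ≤ n := Nat.cast_nonneg n; linarith) (by linarith) hτ)
    (by
      intro n
      have hn : (1 : ℝ) ≤ (n : ℝ) + 1 := by
        have : (0 : ℝ) ≤ n := Nat.cast_nonneg n
        linarith
      obtain ⟨L, X, η, ν, h⟩ := good_ex hU hn
      exact ⟨⟨L, X, η, ν⟩, h⟩)
    (by
      intro ε hε
      obtain ⟨c, N, hN, h⟩ := step2 ε hε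
      refine ⟨c, ⌈N⌉₊, fun τ hτ => ?_⟩
      refine h _ _ _ _ (Good.mono hN ?_ hτ)
      have := Nat.le_ceil N
      linarith)
  refine ⟨c, ?_, ?_⟩
  · refine le_of_forall_pos_le_add fun ε hε => ?_
    obtain ⟨n, hn⟩ := hc ε hε
    have hn1 : (1 : ℝ) ≤ (n : ℝ) + 1 := by
      have : (0 : ℝ) ≤ n := Nat.cast_nonneg n
      linarith
    obtain ⟨L, X, η, ν, h⟩ := good_ex hU hn1
    have h3 := hn ⟨L, X, η, ν⟩ h
    simp only at h3
    have hL0 : 0 < L := by have := h.1; linarith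
    have h4 : 0 ≤ (∫ t, ‖ZS (fun _ => 1) L t‖ ^ (2 * k) ∂ν) / L ^ (k ^ 2) := by
      have : 0 ≤ ∫ t, ‖ZS (fun _ => 1) L t‖ ^ (2 * k) ∂ν := integral_nonneg fun t => by positivity
      positivity
    have h5 := (abs_le.mp h3).2
    linarith
  · intro ε hε
    obtain ⟨n, hn⟩ := hc ε hε
    have hnn : (0 : ℝ) ≤ n := Nat.cast_nonneg n
    refine ⟨(n : ℝ) + 1, by linarith, fun L X η ν h3 h4 h5 h6 h7 => ?_⟩
    have h8 := hn ⟨L, X, η, ν⟩ ⟨h3, h4, h5, h6, h7⟩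
    simp only at h8
    have hL0 : 0 < L := by linarith
    have hLk : 0 < L ^ (k ^ 2) := Real.rpow_pos_of_pos hL0 _
    have e1 : (∫ t, ‖ZS (fun _ => 1) L t‖ ^ (2 * k) ∂ν) - c * L ^ (k ^ 2)
        = ((∫ t, ‖ZS (fun _ => 1) L t‖ ^ (2 * k) ∂ν) / L ^ (k ^ 2) - c) * L ^ (k ^ 2) := by
      field_simp
    rw [e1, abs_mul, abs_of_pos hLk]
    exact mul_le_mul_of_nonneg_right h8 hLk.le

end Pool.Agent.Lib.PS
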