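import Pool.Agent.Lib.MP_f9aece_nt_ps.Defs
import Pool.Agent.Lib.MP_f9aece_nt_mt.StmtsT

/-!
P11: the partial sums over intervals.
-/

set_option autoImplicit false

namespace Pool.Agent.Lib.PS

open MeasureTheory Set Filter Topology Complex
open Pool.Agent.Lib.MP_f9aece_nt (DP pair BK K1 ev PP VV Smo expo)
open Pool.Agent.Lib.MP_f9aece_nt_h40 (ind)
open Pool.Agent.Lib.MP_f9aece_nt_h85 (Rst)
open Pool.Agent.Lib.J4 (En V2)
open Pool.Agent.Lib.N4 (OmS)
open Pool.Agent.Lib.MS (MVP Par RW TZ zr ZS un)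

private theorem R11_int (x : ℝ) {T : ℝ} (hT : 0 < T) (f : ℝ → ℝ) :
    ∫ t, f t ∂(un x T) = T⁻¹ * ∫ t in x..(x + T), f t := by
  unfold MS.un
  rw [integral_smul_measure, ENNReal.toReal_inv, ENNReal.toReal_ofReal hT.le,
    intervalIntegral.integral_of_le (by linarith), integral_Icc_eq_integral_Ioc, smul_eq_mul]

/-- As `MT.thmOne` (mt/T36ThmOne.lean): `MVP (un x T) X (2 X² / T)` with `X = T^(1/4)`. -/
theorem sharpInt (hU : MS.UnifMVP) (h : SharpLim) : SharpInt := by
  intro k hk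
  obtain ⟨c, hc0, h⟩ := h k hk
  refine ⟨c, hc0, fun ε hε => ?_⟩
  obtain ⟨N, hN1, hN⟩ := h ε hε
  refine ⟨4 * N, by linarith, fun L T hL hT hLT x => ?_⟩
  have hT0 : 0 < T := by linarith
  have hTe : T = Real.exp (Real.log T) := (Real.exp_log hT0).symm
  have hX : T ^ (1 / 4 : ℝ) = Real.exp (Real.log T / 4) := by
    rw [Real.rpow_def_of_pos hT0]
    congr 1
    ring
  have hX1 : 1 ≤ T ^ (1 / 4 : ℝ) := Real.one_le_rpow hT (by norm_num)
  have hlog : 16 * N ^ 2 ≤ Real.log T := by nlinarith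
  have hη : 2 * (T ^ (1 / 4 : ℝ)) ^ 2 / T = 2 * Real.exp (-(Real.log T / 2)) := by
    have e1 : (T ^ (1 / 4 : ℝ)) ^ 2 = Real.exp (Real.log T / 2) := by
      rw [hX, ← Real.exp_nat_mul]
      congr 1
      push_cast
      ring
    have e2 : T = Real.exp (Real.log T / 2) * Real.exp (Real.log T / 2) := by
      rw [← Real.exp_add]
      rw [add_halves]
      exact hTe
    rw [e1, Real.exp_neg]
    have e3 : Real.exp (Real.log T / 2) ≠ 0 := (Real.exp_pos _).ne'
    have e4 : 2 * Real.exp (Real.log T / 2) / T =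
        2 * Real.exp (Real.log T / 2) / (Real.exp (Real.log T / 2) *
          Real.exp (Real.log T / 2)) := by rw [← e2]
    rw [e4]
    field_simp
  have key := hN L (T ^ (1 / 4 : ℝ)) (2 * (T ^ (1 / 4 : ℝ)) ^ 2 / T) (un x T) (by linarith)
    (hU x T _ hT0 hX1) ?_ ?_ ?_
  · rwa [R11_int x hT0] at key
  · rw [hX, Real.exp_le_exp]
    nlinarith
  · positivity
  · rw [hη]
    have e5 : 2 * N ≤ Real.exp (Real.log T / 2) := by
      have := Real.add_one_le_exp (Real.log T / 2)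
      nlinarith
    rw [Real.exp_neg, mul_comm, ← mul_assoc, mul_comm N 2, ← div_eq_mul_inv,
      div_le_one (Real.exp_pos _)]
    exact e5

end Pool.Agent.Lib.PS
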