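import Pool.Agent.Lib.MP_f9aece_nt_ps.Defs
import Pool.Agent.Lib.MP_f9aece_nt_mp.StmtsP

/-!
P12: positivity of the constant.
-/

set_option autoImplicit false

namespace Pool.Agent.Lib.PS

open MeasureTheory Set Filter Topology Complex
open Pool.Agent.Lib.MP_f9aece_nt (DP pair BK K1 ev PP VV Smo expo)
open Pool.Agent.Lib.MP_f9aece_nt_h40 (ind)
open Pool.Agent.Lib.MP_f9aece_nt_h85 (Rst)
open Pool.Agent.Lib.J4 (En V2)
open Pool.Agent.Lib.N4 (OmS)
open Pool.Agent.Lib.MS (MVP Par RW TZ zr ZS un)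

/-- the Dirichlet polynomial at `s` -/
private noncomputable def r12S (L : ℝ) (s : ℂ) : ℂ :=
  ∑ n ∈ Finset.Icc 1 ⌊Real.exp L⌋₊, (n : ℂ) ^ (-s)

private lemma r12S_diff (L : ℝ) : Differentiable ℂ (r12S L) := by
  unfold r12S
  refine Differentiable.fun_sum fun n hn => ?_
  have hn1 : 1 ≤ n := (Finset.mem_Icc.1 hn).1
  intro s
  refine DifferentiableAt.const_cpow (differentiableAt_id.neg) (Or.inl ?_)
  exact_mod_cast (by omega : n ≠ 0)

private lemma r12S_norm (L : ℝ) (s : ℂ) :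
    ‖r12S L s‖ ≤ ∑ n ∈ Finset.Icc 1 ⌊Real.exp L⌋₊, (n : ℝ) ^ (-s.re) := by
  unfold r12S
  refine (norm_sum_le _ _).trans (Finset.sum_le_sum fun n hn => ?_)
  have hn1 : 1 ≤ n := (Finset.mem_Icc.1 hn).1
  rw [Complex.norm_natCast_cpow_of_pos (by omega)]
  simp

private lemma r12S_le (L : ℝ) (s : ℂ) (hs : 0 ≤ s.re) : ‖r12S L s‖ ≤ Real.exp L := by
  refine (r12S_norm L s).trans ?_
  have h1 : ∑ n ∈ Finset.Icc 1 ⌊Real.exp L⌋₊, (n : ℝ) ^ (-s.re) ≤
      ∑ n ∈ Finset.Icc 1 ⌊Real.exp L⌋₊, (1 : ℝ) := by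
    refine Finset.sum_le_sum fun n hn => ?_
    have hn1 : 1 ≤ n := (Finset.mem_Icc.1 hn).1
    exact Real.rpow_le_one_of_one_le_of_nonpos (by exact_mod_cast hn1) (by linarith)
  refine h1.trans ?_
  simp only [Finset.sum_const, Nat.card_Icc, Nat.add_sub_cancel, nsmul_eq_mul, mul_one]
  exact Nat.floor_le (Real.exp_pos L).le

private lemma r12S_three (L : ℝ) (s : ℂ) (hs : s.re = 3 / 2) :
    ‖r12S L s‖ ≤ ∑' n : ℕ, (n : ℝ) ^ (-(3 / 2) : ℝ) := by
  refine (r12S_norm L s).trans ?_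
  rw [hs]
  refine (Real.summable_nat_rpow.2 (by norm_num)).sum_le_tsum _ fun n _ => ?_
  exact Real.rpow_nonneg (Nat.cast_nonneg n) _

private lemma r12S_ZS (L t : ℝ) : ZS (fun _ => 1) L t = r12S L (((1 / 2 : ℝ) : ℂ) + I * t) := by
  unfold ZS r12S
  refine Finset.sum_congr rfl fun n _ => ?_
  push_cast
  ring_nf

/-- the cut-off -/
private noncomputable def r12g (u : ℝ) : ℝ :=
  (Real.exp (-u) - Real.exp (-1)) / (1 - Real.exp (-1))

private noncomputable def r12w (x : ℝ) : ℂ := ((r12g (max 0 (min x 1)) : ℝ) : ℂ)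

private lemma r12e : 0 < 1 - Real.exp (-1) := by
  have h : Real.exp (-1) < Real.exp 0 := Real.exp_lt_exp.2 (by norm_num)
  rw [Real.exp_zero] at h
  linarith

private lemma r12exp_lip (u v : ℝ) (hu : 0 ≤ u) (hv : 0 ≤ v) :
    |Real.exp (-u) - Real.exp (-v)| ≤ |u - v| := by
  have key : ∀ a b : ℝ, 0 ≤ a → a ≤ b → Real.exp (-a) - Real.exp (-b) ≤ b - a := by
    intro a b ha hab
    have h1 : Real.exp (-b) = Real.exp (-a) * Real.exp (-(b - a)) := by
      rw [← Real.exp_add]; ring_nf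
    have h2 : 1 - (b - a) ≤ Real.exp (-(b - a)) := by
      have := Real.add_one_le_exp (-(b - a)); linarith
    have h3 : Real.exp (-a) ≤ 1 := Real.exp_le_one_iff.2 (by linarith)
    have h4 : 0 < Real.exp (-a) := Real.exp_pos _
    have h5 : Real.exp (-a) * (1 - Real.exp (-(b - a))) ≤ 1 * (b - a) := by
      have h6 : 0 ≤ 1 - Real.exp (-(b - a)) := by
        have := Real.exp_le_one_iff.2 (show -(b - a) ≤ 0 by linarith)
        linarith
      have h7 : 1 - Real.exp (-(b - a)) ≤ b - a := by linarith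
      exact mul_le_mul h3 h7 h6 (by norm_num)
    rw [h1]; nlinarith
  rcases le_total u v with huv | huv
  · have h1 := key u v hu huv
    have h2 : Real.exp (-v) ≤ Real.exp (-u) := Real.exp_le_exp.2 (by linarith)
    rw [abs_of_nonneg (by linarith), abs_of_nonpos (by linarith)]
    linarith
  · have h1 := key v u hv huv
    have h2 : Real.exp (-u) ≤ Real.exp (-v) := Real.exp_le_exp.2 (by linarith)
    rw [abs_of_nonpos (by linarith), abs_of_nonneg (by linarith)]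
    linarith

private lemma r12w_lip (x y : ℝ) :
    ‖r12w x - r12w y‖ ≤ (1 - Real.exp (-1))⁻¹ * |x - y| := by
  have he := r12e
  unfold r12w r12g
  rw [← Complex.ofReal_sub, Complex.norm_real, Real.norm_eq_abs, ← sub_div, abs_div,
    abs_of_pos he, div_eq_inv_mul]
  refine mul_le_mul_of_nonneg_left ?_ (inv_nonneg.2 he.le)
  have h1 : Real.exp (-max 0 (min x 1)) - Real.exp (-1) - (Real.exp (-max 0 (min y 1)) -
      Real.exp (-1)) = Real.exp (-max 0 (min x 1)) - Real.exp (-max 0 (min y 1)) := by ring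
  rw [h1]
  refine (r12exp_lip _ _ (le_max_left _ _) (le_max_left _ _)).trans ?_
  have h2 : |max 0 (min x 1) - max 0 (min y 1)| ≤ |min x 1 - min y 1| := by
    have := abs_max_sub_max_le_max (0 : ℝ) (min x 1) 0 (min y 1)
    simpa using this
  have h3 : |min x 1 - min y 1| ≤ |x - y| := by
    have := abs_min_sub_min_le_max x 1 y 1
    simpa using this
  exact h2.trans h3

private lemma r12w_zero : r12w 0 = 1 := by
  have he := r12e
  unfold r12w r12g
  have h1 : max 0 (min (0 : ℝ) 1) = 0 := by norm_num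
  rw [h1, neg_zero, Real.exp_zero, div_self he.ne']
  simp

private lemma r12w_one (x : ℝ) (hx : 1 ≤ x) : r12w x = 0 := by
  unfold r12w r12g
  have h1 : max 0 (min x 1) = 1 := by
    rw [min_eq_right hx]; norm_num
  rw [h1, sub_self, zero_div]
  simp

private lemma r12w_mid (x : ℝ) (h0 : 0 ≤ x) (h1 : x ≤ 1) :
    r12w x = (((1 - Real.exp (-1))⁻¹ * (Real.exp (-x) - Real.exp (-1)) : ℝ) : ℂ) := by
  unfold r12w r12g
  rw [min_eq_left h1, max_eq_right h0, div_eq_inv_mul]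

private lemma r12ZSw (L t : ℝ) (hL : 0 < L) :
    ZS r12w L t = (((1 - Real.exp (-1))⁻¹ : ℝ) : ℂ) *
      (r12S L (((1 / 2 + 1 / L : ℝ) : ℂ) + I * t) -
        ((Real.exp (-1) : ℝ) : ℂ) * r12S L (((1 / 2 : ℝ) : ℂ) + I * t)) := by
  unfold ZS r12S
  rw [Finset.mul_sum, ← Finset.sum_sub_distrib, Finset.mul_sum]
  refine Finset.sum_congr rfl fun n hn => ?_
  have hn1 : 1 ≤ n := (Finset.mem_Icc.1 hn).1
  have hn2 : n ≤ ⌊Real.exp L⌋₊ := (Finset.mem_Icc.1 hn).2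
  have hnR : (1 : ℝ) ≤ n := by exact_mod_cast hn1
  have hn0 : (0 : ℝ) < n := by linarith
  have hlog0 : 0 ≤ Real.log n := Real.log_nonneg hnR
  have hlogL : Real.log n ≤ L := by
    rw [Real.log_le_iff_le_exp hn0]
    exact (Nat.le_floor_iff (Real.exp_pos L).le).1 hn2
  rw [r12w_mid _ (div_nonneg hlog0 hL.le) ((div_le_one hL).2 hlogL)]
  have hnC : (n : ℂ) ≠ 0 := by exact_mod_cast (by omega : n ≠ 0)
  have h1 : (n : ℂ) ^ (-(((1 / 2 + 1 / L : ℝ) : ℂ) + I * t)) =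
      ((Real.exp (-(Real.log n / L)) : ℝ) : ℂ) * (n : ℂ) ^ (-(1 / 2 + I * t : ℂ)) := by
    have h2 : (-(((1 / 2 + 1 / L : ℝ) : ℂ) + I * t)) = ((-(1 / L) : ℝ) : ℂ) + (-(1 / 2 + I * t : ℂ)) := by
      push_cast; ring
    rw [h2, Complex.cpow_add _ _ hnC]
    congr 1
    have h3 : (n : ℂ) = ((n : ℝ) : ℂ) := by push_cast; rfl
    rw [h3, ← Complex.ofReal_cpow hn0.le]
    congr 1
    rw [Real.rpow_def_of_pos hn0]
    congr 1
    ring
  have h4 : (n : ℂ) ^ (-(((1 / 2 : ℝ) : ℂ) + I * t)) = (n : ℂ) ^ (-(1 / 2 + I * t : ℂ)) := by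
    congr 1
    push_cast; ring
  rw [h1, h4]
  push_cast
  ring


private lemma r12S_cont (L σ p : ℝ) (hp : 0 < p) :
    Continuous (fun t : ℝ => ‖r12S L ((σ : ℂ) + I * t)‖ ^ p) := by
  refine Continuous.rpow_const ?_ (fun _ => Or.inr hp.le)
  refine ((r12S_diff L).continuous.comp ?_).norm
  fun_prop

private lemma r12conv (hX : MP2.ConvexInt) (p : ℝ) (hp : 0 < p) : ∃ C1 : ℝ, 1 ≤ C1 ∧
    ∀ L T : ℝ, 1 ≤ L → C1 ≤ T →
    ∫ t in (0 : ℝ)..T, ‖r12S L (((1 / 2 + 1 / L : ℝ) : ℂ) + I * t)‖ ^ p ≤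
      C1 * ((∫ t in (-T)..(2 * T), ‖r12S L (((1 / 2 : ℝ) : ℂ) + I * t)‖ ^ p) +
        1 / L * (3 * T * (∑' n : ℕ, (n : ℝ) ^ (-(3 / 2) : ℝ)) ^ p) + Real.exp (p * L)) := by
  obtain ⟨C1, hC1, H⟩ := hX p hp 1 0
  refine ⟨C1, hC1, ?_⟩
  intro L T hL hT
  have hT0 : 0 < T := by linarith
  have hL0 : 0 < L := by linarith
  set M : ℝ := Real.exp L with hM
  have hM0 : 0 < M := Real.exp_pos L
  have h1 := H (fun z => r12S L z / (M : ℂ)) ?_ ?_ T 0 (1 / L) hT (by simp; positivity)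
    (by positivity) (by rw [div_le_one hL0]; exact hL)
  · simp only [zero_add, zero_sub] at h1
    have hn : ∀ z : ℂ, ‖r12S L z / (M : ℂ)‖ ^ p = (M ^ p)⁻¹ * ‖r12S L z‖ ^ p := by
      intro z
      rw [norm_div, Complex.norm_real, Real.norm_eq_abs, abs_of_pos hM0,
        Real.div_rpow (norm_nonneg _) hM0.le, div_eq_inv_mul]
    simp only [hn, intervalIntegral.integral_const_mul] at h1
    have hMp : 0 < M ^ p := Real.rpow_pos_of_pos hM0 p
    have hMe : M ^ p = Real.exp (p * L) := by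
      rw [hM, ← Real.exp_mul, mul_comm]
    have h2 : ∫ t in (-T)..(2 * T), ‖r12S L (((3 / 2 : ℝ) : ℂ) + I * t)‖ ^ p ≤
        3 * T * (∑' n : ℕ, (n : ℝ) ^ (-(3 / 2) : ℝ)) ^ p := by
      have h3 : ∫ t in (-T)..(2 * T), ‖r12S L (((3 / 2 : ℝ) : ℂ) + I * t)‖ ^ p ≤
          ∫ t in (-T)..(2 * T), (∑' n : ℕ, (n : ℝ) ^ (-(3 / 2) : ℝ)) ^ p := by
        refine intervalIntegral.integral_mono_on (by linarith)
          ((r12S_cont L (3 / 2) p hp).intervalIntegrable _ _)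
          (continuous_const.intervalIntegrable _ _) ?_
        intro t _
        refine Real.rpow_le_rpow (norm_nonneg _) (r12S_three L _ ?_) hp.le
        simp
      refine h3.trans (le_of_eq ?_)
      rw [intervalIntegral.integral_const, smul_eq_mul]
      ring
    have h4 : (M ^ p)⁻¹ * (∫ t in (0 : ℝ)..T, ‖r12S L (((1 / 2 + 1 / L : ℝ) : ℂ) + I * t)‖ ^ p) ≤
        C1 * ((M ^ p)⁻¹ * (∫ t in (-T)..(2 * T), ‖r12S L (((1 / 2 : ℝ) : ℂ) + I * t)‖ ^ p) +
          1 / L * ((M ^ p)⁻¹ * (3 * T * (∑' n : ℕ, (n : ℝ) ^ (-(3 / 2) : ℝ)) ^ p)) + 1) := by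
      refine h1.trans ?_
      refine mul_le_mul_of_nonneg_left ?_ (by linarith)
      have h5 : 1 / L * ((M ^ p)⁻¹ * ∫ t in (-T)..(2 * T),
          ‖r12S L (((3 / 2 : ℝ) : ℂ) + I * t)‖ ^ p) ≤
          1 / L * ((M ^ p)⁻¹ * (3 * T * (∑' n : ℕ, (n : ℝ) ^ (-(3 / 2) : ℝ)) ^ p)) :=
        mul_le_mul_of_nonneg_left (mul_le_mul_of_nonneg_left h2 (inv_nonneg.2 hMp.le))
          (by positivity)
      linarith
    have h6 := mul_le_mul_of_nonneg_left h4 hMp.le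
    rw [← mul_assoc, mul_inv_cancel₀ hMp.ne', one_mul] at h6
    refine h6.trans (le_of_eq ?_)
    rw [← hMe]
    field_simp
  · exact ((r12S_diff L).div_const _).differentiableOn
  · intro z hz1 hz2
    rw [norm_div, Complex.norm_real, Real.norm_eq_abs, abs_of_pos hM0, pow_zero, mul_one]
    rw [div_le_one hM0]
    exact r12S_le L z (by linarith)

private lemma r12pt (L t p : ℝ) (hL : 0 < L) (hp : 0 < p) :
    ‖ZS r12w L t‖ ^ p ≤ (2 / (1 - Real.exp (-1))) ^ p *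
      (‖r12S L (((1 / 2 + 1 / L : ℝ) : ℂ) + I * t)‖ ^ p +
        ‖r12S L (((1 / 2 : ℝ) : ℂ) + I * t)‖ ^ p) := by
  have he := r12e
  rw [r12ZSw L t hL]
  set a := r12S L (((1 / 2 + 1 / L : ℝ) : ℂ) + I * t) with ha
  set b := r12S L (((1 / 2 : ℝ) : ℂ) + I * t) with hb
  have h1 : ‖(((1 - Real.exp (-1))⁻¹ : ℝ) : ℂ) * (a - ((Real.exp (-1) : ℝ) : ℂ) * b)‖ ≤
      2 / (1 - Real.exp (-1)) * max ‖a‖ ‖b‖ := by
    rw [norm_mul, Complex.norm_real, Real.norm_eq_abs, abs_of_pos (inv_pos.2 he)]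
    have h2 : ‖a - ((Real.exp (-1) : ℝ) : ℂ) * b‖ ≤ 2 * max ‖a‖ ‖b‖ := by
      refine (norm_sub_le _ _).trans ?_
      rw [norm_mul, Complex.norm_real, Real.norm_eq_abs, abs_of_pos (Real.exp_pos _)]
      have h3 : Real.exp (-1) * ‖b‖ ≤ 1 * ‖b‖ :=
        mul_le_mul_of_nonneg_right (by linarith) (norm_nonneg _)
      have h4 := le_max_left ‖a‖ ‖b‖
      have h5 := le_max_right ‖a‖ ‖b‖
      linarith
    calc (1 - Real.exp (-1))⁻¹ * ‖a - ((Real.exp (-1) : ℝ) : ℂ) * b‖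
        ≤ (1 - Real.exp (-1))⁻¹ * (2 * max ‖a‖ ‖b‖) :=
          mul_le_mul_of_nonneg_left h2 (inv_nonneg.2 he.le)
      _ = 2 / (1 - Real.exp (-1)) * max ‖a‖ ‖b‖ := by ring
  have h0 : 0 ≤ 2 / (1 - Real.exp (-1)) := by positivity
  refine (Real.rpow_le_rpow (norm_nonneg _) h1 hp.le).trans ?_
  rw [Real.mul_rpow h0 (le_max_of_le_left (norm_nonneg _))]
  refine mul_le_mul_of_nonneg_left ?_ (Real.rpow_nonneg h0 _)
  have ha0 : 0 ≤ ‖a‖ ^ p := Real.rpow_nonneg (norm_nonneg _) _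
  have hb0 : 0 ≤ ‖b‖ ^ p := Real.rpow_nonneg (norm_nonneg _) _
  rcases le_total ‖a‖ ‖b‖ with hab | hab
  · rw [max_eq_right hab]; linarith
  · rw [max_eq_left hab]; linarith

private lemma r12ZS_cont (L p : ℝ) (hL : 0 < L) (hp : 0 < p) :
    Continuous (fun t : ℝ => ‖ZS r12w L t‖ ^ p) := by
  refine Continuous.rpow_const ?_ (fun _ => Or.inr hp.le)
  have h : (fun t : ℝ => ZS r12w L t) = fun t : ℝ => (((1 - Real.exp (-1))⁻¹ : ℝ) : ℂ) *
      (r12S L (((1 / 2 + 1 / L : ℝ) : ℂ) + I * t) -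
        ((Real.exp (-1) : ℝ) : ℂ) * r12S L (((1 / 2 : ℝ) : ℂ) + I * t)) := by
    funext t
    exact r12ZSw L t hL
  have h2 : Continuous (fun t : ℝ => ZS r12w L t) := by
    rw [h]
    have h3 : ∀ σ : ℝ, Continuous (fun t : ℝ => r12S L ((σ : ℂ) + I * t)) := by
      intro σ
      refine (r12S_diff L).continuous.comp ?_
      fun_prop
    exact continuous_const.mul ((h3 _).sub (continuous_const.mul (h3 _)))
  exact h2.norm

/-- `p = 2k`. Let `S(s) = ∑_{n ≤ e^L} n^(-s)`, `M = e^L`, so `‖S(s) / M‖ ≤ 1` for `Re s ≥ 1/2`. `ConvexInt`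
with `Cg = 1`, `N = 0`, `f = S/M`, `x0 = 0`, `x = 1/L`: the mean of `‖S(1/2 + 1/L + it)‖^p` over `[0, T]` is at most
`C` times (three times the mean of `‖S(1/2 + it)‖^p` over `[-T, 2T]`, plus `3 · 3^p / L`, plus `M^p / T`);
`‖S(3/2 + it)‖ ≤ 3`. With `w x = (e^(-x) - e^(-1)) / (1 - e^(-1))` for `x ≤ 1`, zero after (Lipschitz, real,
`w 0 = 1`): `(1 - e^(-1)) ZS w L t = S(1/2 + 1/L + it) - e^(-1) S(1/2 + it)`, and `MomentsT1` for `w`
has a positive constant. If `c = 0` in `SharpInt` this is a contradiction for small `ε` and large `L`,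
`T = exp (C L)`. -/
theorem sharpPos (h1 : MS.MomentsT1) (hX : MP2.ConvexInt) (h : SharpInt) : SharpPos := by
  intro k hk
  obtain ⟨c, hc0, hc⟩ := h k hk
  refine ⟨c, lt_of_le_of_ne hc0 ?_, hc⟩
  intro hc00
  have hp : 0 < 2 * k := by linarith
  have he := r12e
  obtain ⟨C1, hC1, hconv⟩ := r12conv hX (2 * k) hp
  obtain ⟨c1, hc1, hM⟩ := h1 r12w (1 - Real.exp (-1))⁻¹ r12w_lip r12w_zero r12w_one k hk
  obtain ⟨C2, hC2, hM2⟩ := hM (c1 / 2) (by positivity)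
  set A : ℝ := (2 / (1 - Real.exp (-1))) ^ (2 * k) with hA
  have hA0 : 0 < A := Real.rpow_pos_of_pos (by positivity) _
  set K : ℝ := (∑' n : ℕ, (n : ℝ) ^ (-(3 / 2) : ℝ)) ^ (2 * k) with hK
  have hK0 : 0 ≤ K :=
    Real.rpow_nonneg (tsum_nonneg fun n => Real.rpow_nonneg (Nat.cast_nonneg n) _) _
  set e : ℝ := c1 / (4 * (A * (5 * C1 + 1))) with hee
  have he0 : 0 < e := by positivity
  obtain ⟨C3, hC3, hS⟩ := hc e he0
  set L : ℝ := max (max C2 C3) (max (max 1 C1) (max (3 * K / e) (1 / e))) with hLd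
  have hL2 : C2 ≤ L := (le_max_left _ _).trans (le_max_left _ _)
  have hL3 : C3 ≤ L := (le_max_right _ _).trans (le_max_left _ _)
  have hL1 : 1 ≤ L := (le_max_left _ _).trans ((le_max_left _ _).trans (le_max_right _ _))
  have hLC : C1 ≤ L := (le_max_right _ _).trans ((le_max_left _ _).trans (le_max_right _ _))
  have hLK : 3 * K / e ≤ L :=
    (le_max_left _ _).trans ((le_max_right _ _).trans (le_max_right _ _))
  have hLe : 1 / e ≤ L := (le_max_right _ _).trans ((le_max_right _ _).trans (le_max_right _ _))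
  have hL0 : 0 < L := by linarith
  set D : ℝ := max (max C2 C3) (2 * k + 1) with hD
  have hD2 : C2 ≤ D := (le_max_left _ _).trans (le_max_left _ _)
  have hD3 : C3 ≤ D := (le_max_right _ _).trans (le_max_left _ _)
  have hDk : 2 * k + 1 ≤ D := le_max_right _ _
  set T : ℝ := Real.exp (D * L) with hTd
  have hT0 : 0 < T := Real.exp_pos _
  have hlogT : Real.log T = D * L := Real.log_exp _
  have hTL : L + 1 ≤ T := by
    have h2 := Real.add_one_le_exp (D * L)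
    have h3 : 1 * L ≤ D * L := mul_le_mul_of_nonneg_right (by linarith) hL0.le
    linarith
  have hT1 : 1 ≤ T := by linarith
  -- the three integrals
  have hLk : 1 ≤ L ^ (k ^ 2) := Real.one_le_rpow hL1 (by positivity)
  have i1 := hM2 L T hL2 hT1 (by rw [hlogT]; exact mul_le_mul_of_nonneg_right hD2 hL0.le) 0
  have i2 := hS L T hL3 hT1 (by rw [hlogT]; exact mul_le_mul_of_nonneg_right hD3 hL0.le) 0
  have i3 := hS L (3 * T) hL3 (by linarith) (by
    have h2 : Real.log T ≤ Real.log (3 * T) := Real.log_le_log hT0 (by linarith)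
    rw [hlogT] at h2
    exact (mul_le_mul_of_nonneg_right hD3 hL0.le).trans h2) (-T)
  rw [← hc00, zero_mul, sub_zero] at i2 i3
  rw [show -T + 3 * T = 2 * T by ring] at i3
  rw [zero_add] at i1 i2
  simp only [r12S_ZS] at i2 i3
  have j1 : c1 / 2 * L ^ (k ^ 2) ≤ T⁻¹ * ∫ t in (0 : ℝ)..T, ‖ZS r12w L t‖ ^ (2 * k) := by
    have := (abs_le.1 i1).1
    linarith
  have j2 : T⁻¹ * ∫ t in (0 : ℝ)..T, ‖r12S L (((1 / 2 : ℝ) : ℂ) + I * t)‖ ^ (2 * k) ≤
      e * L ^ (k ^ 2) := (le_abs_self _).trans i2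
  have j3 : T⁻¹ * ∫ t in (-T)..(2 * T), ‖r12S L (((1 / 2 : ℝ) : ℂ) + I * t)‖ ^ (2 * k) ≤
      3 * e * L ^ (k ^ 2) := by
    have h2 := (le_abs_self _).trans i3
    rw [mul_inv] at h2
    nlinarith
  have j4 := hconv L T hL1 (by linarith)
  have j5 : ∫ t in (0 : ℝ)..T, ‖ZS r12w L t‖ ^ (2 * k) ≤
      A * ((∫ t in (0 : ℝ)..T, ‖r12S L (((1 / 2 + 1 / L : ℝ) : ℂ) + I * t)‖ ^ (2 * k)) +
        ∫ t in (0 : ℝ)..T, ‖r12S L (((1 / 2 : ℝ) : ℂ) + I * t)‖ ^ (2 * k)) := by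
    rw [← intervalIntegral.integral_add
      ((r12S_cont L (1 / 2 + 1 / L) (2 * k) hp).intervalIntegrable _ _)
      ((r12S_cont L (1 / 2) (2 * k) hp).intervalIntegrable _ _),
      ← intervalIntegral.integral_const_mul]
    refine intervalIntegral.integral_mono_on hT0.le
      ((r12ZS_cont L (2 * k) hL0 hp).intervalIntegrable _ _) ?_ ?_
    · exact (continuous_const.mul ((r12S_cont L (1 / 2 + 1 / L) (2 * k) hp).add
        (r12S_cont L (1 / 2) (2 * k) hp))).intervalIntegrable _ _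
    · intro t _
      exact r12pt L t (2 * k) hL0 hp
  -- small terms
  have k1 : T⁻¹ * (1 / L * (3 * T * K)) ≤ e * L ^ (k ^ 2) := by
    have h2 : T⁻¹ * (1 / L * (3 * T * K)) = 3 * K / L := by field_simp
    rw [h2]
    have h3 : 3 * K / L ≤ e := by
      rw [div_le_iff₀ hL0]
      rw [div_le_iff₀ he0] at hLK
      linarith
    nlinarith
  have k2 : T⁻¹ * Real.exp (2 * k * L) ≤ e * L ^ (k ^ 2) := by
    have h2 : T⁻¹ * Real.exp (2 * k * L) ≤ Real.exp (-L) := by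
      rw [hTd, ← Real.exp_neg, ← Real.exp_add]
      refine Real.exp_le_exp.2 ?_
      have h3 : (2 * k + 1) * L ≤ D * L := mul_le_mul_of_nonneg_right hDk hL0.le
      linarith
    have h3 : Real.exp (-L) ≤ e := by
      rw [Real.exp_neg]
      have h4 : L ≤ Real.exp L := by
        have := Real.add_one_le_exp L; linarith
      have h5 : (Real.exp L)⁻¹ ≤ (1 / e)⁻¹ :=
        inv_anti₀ (by positivity) (hLe.trans h4)
      rwa [one_div, inv_inv] at h5
    nlinarith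
  have j6 : T⁻¹ * (∫ t in (0 : ℝ)..T, ‖r12S L (((1 / 2 + 1 / L : ℝ) : ℂ) + I * t)‖ ^ (2 * k)) ≤
      C1 * (5 * e * L ^ (k ^ 2)) := by
    have h2 := mul_le_mul_of_nonneg_left j4 (inv_nonneg.2 hT0.le)
    refine h2.trans ?_
    have h3 : T⁻¹ * (C1 * ((∫ t in (-T)..(2 * T),
        ‖r12S L (((1 / 2 : ℝ) : ℂ) + I * t)‖ ^ (2 * k)) + 1 / L * (3 * T * K) +
        Real.exp (2 * k * L))) = C1 * (T⁻¹ * (∫ t in (-T)..(2 * T),
        ‖r12S L (((1 / 2 : ℝ) : ℂ) + I * t)‖ ^ (2 * k)) + T⁻¹ * (1 / L * (3 * T * K)) +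
        T⁻¹ * Real.exp (2 * k * L)) := by ring
    rw [h3]
    refine mul_le_mul_of_nonneg_left ?_ (by linarith)
    linarith
  have j7 : T⁻¹ * (∫ t in (0 : ℝ)..T, ‖ZS r12w L t‖ ^ (2 * k)) ≤
      A * ((5 * C1 + 1) * e * L ^ (k ^ 2)) := by
    have h2 := mul_le_mul_of_nonneg_left j5 (inv_nonneg.2 hT0.le)
    refine h2.trans ?_
    rw [← mul_assoc, mul_comm T⁻¹ A, mul_assoc, mul_add]
    refine mul_le_mul_of_nonneg_left ?_ hA0.le
    linarith
  have j8 : A * ((5 * C1 + 1) * e * L ^ (k ^ 2)) = c1 / 4 * L ^ (k ^ 2) := by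
    rw [hee]
    field_simp
  have j9 : c1 / 2 * L ^ (k ^ 2) ≤ c1 / 4 * L ^ (k ^ 2) := by
    rw [← j8]; exact j1.trans j7
  have : 0 < c1 * L ^ (k ^ 2) := by positivity
  linarith

end Pool.Agent.Lib.PS
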