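import Pool.Agent.Lib.MP_f9aece_nt_mt.All
import Pool.Agent.Lib.MP_f9aece_nt_j4.GroupsH
import Pool.Agent.Lib.MP_f9aece_nt_n4.R1
import Pool.Agent.Lib.MP_f9aece_nt_mp.N1PowSum
import Pool.Agent.Lib.MP_f9aece_nt_mp.C1SubMean
import Pool.Agent.Lib.MP_f9aece_nt_mp.C3MaxPrinc
import Pool.Agent.Lib.MP_f9aece_nt_mp.C4Convex
import Pool.Agent.Lib.MP_f9aece_nt_mp.C5GWBd
import Pool.Agent.Lib.MP_f9aece_nt_mp.C6ConvexInt
import Pool.Agent.Lib.MP_f9aece_nt_ps.R01
import Pool.Agent.Lib.MP_f9aece_nt_ps.R02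
import Pool.Agent.Lib.MP_f9aece_nt_ps.R03
import Pool.Agent.Lib.MP_f9aece_nt_ps.R04
import Pool.Agent.Lib.MP_f9aece_nt_ps.R05
import Pool.Agent.Lib.MP_f9aece_nt_ps.R06
import Pool.Agent.Lib.MP_f9aece_nt_ps.R07
import Pool.Agent.Lib.MP_f9aece_nt_ps.R08
import Pool.Agent.Lib.MP_f9aece_nt_ps.R09
import Pool.Agent.Lib.MP_f9aece_nt_ps.R10
import Pool.Agent.Lib.MP_f9aece_nt_ps.R11
import Pool.Agent.Lib.MP_f9aece_nt_ps.R12

/-!
Moments of the partial sums of zeta on the critical line: everything together.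
-/

set_option autoImplicit false

namespace Pool.Agent.Lib.PS

open MeasureTheory Set Filter Topology Complex
open Pool.Agent.Lib.MS (ZS)

theorem xWinPow : WinPow := winPow (winDiv winOne) enPow

theorem xPiece : Piece := piece MT.xLevel MS.mert J4.vvSg xWinPow qSplit num

theorem xHead : Head := head MT.xLevel MS.mert xWinPow

theorem xTail : Tail := tail MS.telescope MP2.powSum J4.existsJ xPiece xHead

theorem xSharpInt : SharpInt :=
  sharpInt MS.unifMVP (sharpLim MT.xLimEx MT.powIneq MT.cauL MS.unifMVP xTail)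

theorem xSharpPos : SharpPos :=
  sharpPos MT.xThmOne (MP2.convexInt (MP2.convex MP2.subMean MP2.maxPrinc) MP2.gwBd) xSharpInt

end Pool.Agent.Lib.PS
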