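import Pool.Agent.Lib.MP_f9aece_nt_ps.Defs
import Pool.Agent.Lib.MP_f9aece_nt_ms.Coeffs

/-!
P2: divisor functions over a window.
-/

set_option autoImplicit false

namespace Pool.Agent.Lib.PS

open MeasureTheory Set Filter Topology Complex
open Pool.Agent.Lib.MP_f9aece_nt (DP pair BK K1 ev PP VV Smo expo)
open Pool.Agent.Lib.MP_f9aece_nt_h40 (ind)
open Pool.Agent.Lib.MP_f9aece_nt_h85 (Rst)
open Pool.Agent.Lib.J4 (En V2)
open Pool.Agent.Lib.N4 (OmS)
open Pool.Agent.Lib.MS (MVP Par RW TZ zr ZS un)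

private lemma r02_OmS_mul (S : Finset ℕ) {m n : ℕ} (hm : m ≠ 0) (hn : n ≠ 0) :
    OmS S (m * n) = OmS S m + OmS S n := by
  unfold OmS
  rw [← Finset.sum_add_distrib]
  refine Finset.sum_congr rfl fun p _ => ?_
  rw [Nat.factorization_mul hm hn, Finsupp.add_apply]

private lemma r02_smo_dvd {I : Set ℕ} {a n : ℕ} (hn : n ∈ Smo I) (h : a ∣ n) : a ∈ Smo I :=
  ⟨fun h0 => hn.1 (by rw [h0, zero_dvd_iff] at h; exact h), fun p hp hpa => hn.2 p hp (hpa.trans h)⟩

/-- a sum over factorizations, grouped by the first factor -/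
private lemma r02_sum (B : Finset ℕ) (g h : ℕ → ℝ) (hg : ∀ n, 0 ≤ g n) {K M : ℝ}
    (hK : ∀ a, (∃ n ∈ B, a ∣ n) → ∀ D : Finset ℕ, (∀ b ∈ D, a * b ∈ B) → ∑ b ∈ D, h b ≤ K)
    (hK0 : 0 ≤ K)
    (hM : ∀ A : Finset ℕ, (∀ a ∈ A, ∃ n ∈ B, a ∣ n) → ∑ a ∈ A, g a ≤ M) :
    ∑ n ∈ B, ∑ p ∈ n.divisorsAntidiagonal, g p.1 * h p.2 ≤ M * K := by
  classical
  rw [← Finset.sum_biUnion (by
    intro n _ m _ hnm
    refine Finset.disjoint_left.2 fun p hp hp' => hnm ?_
    rw [← (Nat.mem_divisorsAntidiagonal.1 hp).1, (Nat.mem_divisorsAntidiagonal.1 hp').1])]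
  set P := B.biUnion fun n => n.divisorsAntidiagonal with hP
  have hPm : ∀ p ∈ P, p.1 * p.2 ∈ B := by
    intro p hp
    obtain ⟨n, hn, hpn⟩ := Finset.mem_biUnion.1 hp
    rw [(Nat.mem_divisorsAntidiagonal.1 hpn).1]
    exact hn
  rw [← Finset.sum_fiberwise_of_maps_to (s := P) (t := P.image Prod.fst) (g := Prod.fst)
    (fun p hp => Finset.mem_image_of_mem _ hp)]
  have hA : ∀ a ∈ P.image Prod.fst, ∃ n ∈ B, a ∣ n := by
    intro a ha
    obtain ⟨p, hp, rfl⟩ := Finset.mem_image.1 ha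
    exact ⟨_, hPm p hp, dvd_mul_right _ _⟩
  calc ∑ a ∈ P.image Prod.fst, ∑ p ∈ P.filter (fun p => p.1 = a), g p.1 * h p.2
      ≤ ∑ a ∈ P.image Prod.fst, g a * K := by
        refine Finset.sum_le_sum fun a ha => ?_
        have e : ∑ p ∈ P.filter (fun p => p.1 = a), g p.1 * h p.2 =
            g a * ∑ b ∈ (P.filter fun p => p.1 = a).image Prod.snd, h b := by
          rw [Finset.sum_image (by
            intro p hp p' hp' hpp
            have h1 := (Finset.mem_filter.1 (Finset.mem_coe.1 hp)).2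
            have h2 := (Finset.mem_filter.1 (Finset.mem_coe.1 hp')).2
            exact Prod.ext (h1.trans h2.symm) hpp), Finset.mul_sum]
          refine Finset.sum_congr rfl fun p hp => ?_
          rw [(Finset.mem_filter.1 hp).2]
        rw [e]
        refine mul_le_mul_of_nonneg_left (hK a (hA a ha) _ ?_) (hg a)
        intro b hb
        obtain ⟨p, hp, rfl⟩ := Finset.mem_image.1 hb
        obtain ⟨hp1, hp2⟩ := Finset.mem_filter.1 hp
        rw [← hp2]
        exact hPm p hp1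
    _ = (∑ a ∈ P.image Prod.fst, g a) * K := by rw [Finset.sum_mul]
    _ ≤ M * K := mul_le_mul_of_nonneg_right (hM _ hA) hK0

/-- Induction on `q`. `q = 0`: `zr ^ 1 = zr` is one, this is `WinOne` (for `x'` nonnegative). Step:
`(zr ^ (q + 2)) n = ∑_{a b = n} (zr ^ (q + 1)) a`, `OmS S n = OmS S a + OmS S b`, and for `n ∈ B`
both `a` and `b` lie in `Smo (Rst p0 y')`, `0 ≤ log a ≤ x'`, `x - log a < log b ≤ x' - log a`. So the
sum is at most `(∑_a 2 ^ OmS S a (zr ^ (q + 1)) a / a) * sup_a ∑_b 2 ^ OmS S b / b`, first factor by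
induction with `x = -1` (`(x' + 1 + y + 1) / (y + 1) ≤ 2 (x' + y + 1) / (y + 1)`), second by
`WinOne`. -/
theorem winDiv (h : WinOne) : WinDiv := by
  intro q p0 hp0
  obtain ⟨C₁, hC₁, h1⟩ := h p0 hp0
  induction q with
  | zero =>
    refine ⟨C₁, hC₁, fun y y' x x' hy' hyy hxx _ S hS B hB => ?_⟩
    have e : ∑ n ∈ B, 2 ^ OmS S n * ((zr ^ (0 + 1)) n * (n : ℝ)⁻¹) =
        ∑ n ∈ B, 2 ^ OmS S n * (n : ℝ)⁻¹ := by
      refine Finset.sum_congr rfl fun n hn => ?_
      rw [zero_add, pow_one, MS.zr_apply (hB n hn).1.1, one_mul]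
    rw [e]
    have := h1 y y' x x' hy' hyy hxx S hS B hB
    simpa using this
  | succ q ih =>
    obtain ⟨C, hC, h2⟩ := ih
    refine ⟨2 * (C * C₁), by nlinarith, fun y y' x x' hy' hyy hxx hx0 S hS B hB => ?_⟩
    have hy : 0 ≤ y := hy'.trans hyy
    have hy1 : 0 < y + 1 := by linarith
    have hlog : ∀ a, (∃ n ∈ B, a ∣ n) → a ∈ Smo (Rst p0 y') ∧ 0 ≤ Real.log a ∧
        Real.log a ≤ x' := by
      rintro a ⟨n, hn, han⟩
      have hs := r02_smo_dvd (hB n hn).1 han
      have ha : 0 < a := Nat.pos_of_ne_zero hs.1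
      refine ⟨hs, Real.log_natCast_nonneg a, le_trans ?_ (hB n hn).2.2⟩
      refine Real.log_le_log (by exact_mod_cast ha) ?_
      exact_mod_cast Nat.le_of_dvd (Nat.pos_of_ne_zero (hB n hn).1.1) han
    have e : ∑ n ∈ B, 2 ^ OmS S n * ((zr ^ (q + 1 + 1)) n * (n : ℝ)⁻¹) =
        ∑ n ∈ B, ∑ p ∈ n.divisorsAntidiagonal,
          (2 ^ OmS S p.1 * ((zr ^ (q + 1)) p.1 * (p.1 : ℝ)⁻¹)) *
            (2 ^ OmS S p.2 * (p.2 : ℝ)⁻¹) := by
      refine Finset.sum_congr rfl fun n hn => ?_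
      rw [pow_succ zr (q + 1), ArithmeticFunction.mul_apply, Finset.sum_mul, Finset.mul_sum]
      refine Finset.sum_congr rfl fun p hp => ?_
      obtain ⟨hp1, hp2⟩ := Nat.mem_divisorsAntidiagonal.1 hp
      have ha : p.1 ≠ 0 := fun h0 => hp2 (by rw [← hp1, h0, zero_mul])
      have hb : p.2 ≠ 0 := fun h0 => hp2 (by rw [← hp1, h0, mul_zero])
      rw [← hp1, r02_OmS_mul S ha hb, MS.zr_apply hb, pow_add]
      push_cast
      rw [mul_inv]
      ring
    rw [e]
    have hE : (0 : ℝ) < Real.exp (2 * VV S) := Real.exp_pos _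
    have hw : 0 ≤ (x' - x + y + 1) / (y + 1) := div_nonneg (by linarith) hy1.le
    have hv : 0 ≤ (x' + y + 1) / (y + 1) := div_nonneg (by linarith) hy1.le
    refine (r02_sum B (fun a => 2 ^ OmS S a * ((zr ^ (q + 1)) a * (a : ℝ)⁻¹))
      (fun b => 2 ^ OmS S b * (b : ℝ)⁻¹)
      (fun n => by
        have := MS.zr_pow_nonneg (q + 1) n
        positivity)
      (K := C₁ * (Real.exp (2 * VV S) * ((x' - x + y + 1) / (y + 1))))
      (M := C * (Real.exp (2 * (q + 1) * VV S)
        * (((x' + y + 1) / (y + 1)) ^ q * ((x' - (-1) + y + 1) / (y + 1)))))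
      ?_ (by positivity) ?_).trans ?_
    · intro a ha D hD
      obtain ⟨hs, h0, _⟩ := hlog a ha
      have ha0 : (0 : ℝ) < a := by exact_mod_cast Nat.pos_of_ne_zero hs.1
      have h3 := h1 y y' (x - Real.log a) (x' - Real.log a) hy' hyy (by linarith) S hS D (by
        intro b hb
        have hb' := hB _ (hD b hb)
        have hbs := r02_smo_dvd hb'.1 (dvd_mul_left b a)
        have hb0 : (0 : ℝ) < b := by exact_mod_cast Nat.pos_of_ne_zero hbs.1
        have hl : Real.log ((a * b : ℕ) : ℝ) = Real.log a + Real.log b := by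
          push_cast
          rw [Real.log_mul ha0.ne' hb0.ne']
        refine ⟨hbs, ?_, ?_⟩
        · have := hb'.2.1
          rw [hl] at this
          linarith
        · have := hb'.2.2
          rw [hl] at this
          linarith)
      have e2 : x' - Real.log a - (x - Real.log a) + y + 1 = x' - x + y + 1 := by ring
      rw [e2] at h3
      exact h3
    · intro A hA
      refine h2 y y' (-1) x' hy' hyy (by linarith) hx0 S hS A ?_
      intro a ha
      obtain ⟨hs, h0, hle⟩ := hlog a (hA a ha)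
      exact ⟨hs, by linarith, hle⟩
    · have e3 : Real.exp (2 * ((q + 1 : ℕ) + 1) * VV S) =
          Real.exp (2 * (q + 1) * VV S) * Real.exp (2 * VV S) := by
        rw [← Real.exp_add]
        congr 1
        push_cast
        ring
      rw [e3]
      have h4 : (x' - (-1) + y + 1) / (y + 1) ≤ 2 * ((x' + y + 1) / (y + 1)) := by
        rw [mul_div_assoc']
        refine div_le_div_of_nonneg_right ?_ hy1.le
        linarith
      have hvq : 0 ≤ ((x' + y + 1) / (y + 1)) ^ q := pow_nonneg hv q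
      have hEq : (0 : ℝ) < Real.exp (2 * (q + 1) * VV S) := Real.exp_pos _
      calc C * (Real.exp (2 * (q + 1) * VV S)
            * (((x' + y + 1) / (y + 1)) ^ q * ((x' - (-1) + y + 1) / (y + 1))))
            * (C₁ * (Real.exp (2 * VV S) * ((x' - x + y + 1) / (y + 1))))
          ≤ C * (Real.exp (2 * (q + 1) * VV S)
            * (((x' + y + 1) / (y + 1)) ^ q * (2 * ((x' + y + 1) / (y + 1)))))
            * (C₁ * (Real.exp (2 * VV S) * ((x' - x + y + 1) / (y + 1)))) := by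
            gcongr
        _ = 2 * (C * C₁) * (Real.exp (2 * (q + 1) * VV S) * Real.exp (2 * VV S)
            * (((x' + y + 1) / (y + 1)) ^ (q + 1) * ((x' - x + y + 1) / (y + 1)))) := by
            rw [pow_succ]
            ring

end Pool.Agent.Lib.PS
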